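import Mathlib

set_option autoImplicit false

/-!
# Decomposable languages: definitions for the undecidability proof
-/

namespace Pool.Agent.H81.Dec

/-- `Sh u v w`: the word `w` is a shuffle of `u` and `v`. -/
inductive Sh {A : Type} : List A → List A → List A → Prop
  | nil : Sh [] [] []
  | left {a : A} {u v w : List A} : Sh u v w → Sh (a :: u) v (a :: w)
  | right {a : A} {u v w : List A} : Sh u v w → Sh u (a :: v) (a :: w)

/-- Decomposable languages. -/
def Decomp {A : Type} (K : Set (List A)) : Prop :=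
  ∃ S : Set (Set (List A)), S.Finite ∧ K ∈ S ∧ ∀ L ∈ S,
    (∃ P : Set (Set (List A) × Set (List A)), P ⊆ S ×ˢ S ∧
      {p : List A × List A | p.1 ++ p.2 ∈ L} = ⋃ q ∈ P, q.1 ×ˢ q.2) ∧
    (∃ P : Set (Set (List A) × Set (List A)), P ⊆ S ×ˢ S ∧
      {p : List A × List A | ∃ w ∈ L, Sh p.1 p.2 w} = ⋃ q ∈ P, q.1 ×ˢ q.2)

/-- Two-sided ideals of words. -/
def TwoSided {A : Type} (K : Set (List A)) : Prop := ∀ u w v : List A, w ∈ K → u ++ w ++ v ∈ K

/-! ### Patterns -/

/-- An item of a pattern: one letter in a class, or any number of letters in a class. -/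
inductive Item (T : Type)
  | one (P : T → Bool)
  | many (P : T → Bool)

/-- `Mt pat w`: the word `w` matches the pattern `pat`. -/
def Mt {T : Type} : List (Item T) → List T → Prop
  | [], w => w = []
  | .one P :: r, w => ∃ c w', w = c :: w' ∧ P c = true ∧ Mt r w'
  | .many P :: r, w => ∃ u v, w = u ++ v ∧ (∀ c ∈ u, P c = true) ∧ Mt r v

/-- `Occ c pat s e`: the bi-infinite word `c` matches the pattern on the interval `[s, e)`. -/
def Occ {T : Type} (c : ℤ → T) : List (Item T) → ℤ → ℤ → Prop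
  | [], s, e => s = e
  | .one P :: r, s, e => P (c s) = true ∧ Occ c r (s + 1) e
  | .many P :: r, s, e => ∃ s', s ≤ s' ∧ (∀ t, s ≤ t → t < s' → P (c t) = true) ∧ Occ c r s' e

/-- The factor of length `n` at position `s`. -/
def fw {T : Type} (c : ℤ → T) (s : ℤ) (n : ℕ) : List T :=
  (List.range n).map fun t : ℕ => c (s + (t : ℤ))

/-! ### Letters -/

/-- Labels: parity of a level and a digit in base four. -/
abbrev S := Fin 2 × Fin 4

/-- The label of level `m` and digit `d`. -/
def lab (m : ℕ) (d : ℤ) : S :=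
  (⟨m % 2, Nat.mod_lt _ (by norm_num)⟩,
    ⟨(d % 4).toNat, by have := Int.emod_lt_of_pos d (show (0 : ℤ) < 4 by norm_num); omega⟩)

theorem lab_eq_iff {m m' : ℕ} {d d' : ℤ} : lab m d = lab m' d' ↔ m % 2 = m' % 2 ∧ d % 4 = d' % 4 := by
  unfold lab
  rw [Prod.mk.injEq, Fin.mk.injEq, Fin.mk.injEq]
  have h1 := Int.emod_nonneg d (show (4 : ℤ) ≠ 0 by norm_num)
  have h2 := Int.emod_nonneg d' (show (4 : ℤ) ≠ 0 by norm_num)
  omega

/-- Letters: own label, parent label, content. -/
abbrev Lt (Γ : Type) := S × S × Γ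

/-- Columns: pairs of letters. -/
abbrev Col (Γ : Type) := Lt Γ × Lt Γ

/-- The alphabet of the language: two disjoint copies of the letters. -/
abbrev Al (Γ : Type) := Lt Γ ⊕ Lt Γ

/-- Four labels which look like the positions `1, 2, 3, *` of level `l` up to rotation. -/
def W4 (l : ℕ) (f : Fin 4 → S) : Prop :=
  ∃ φ : Fin 4, ∀ i : Fin 4, ((i : ℕ) + (φ : ℕ)) % 4 ≠ 0 → f i = lab l ((i : ℕ) + (φ : ℕ))

instance (l : ℕ) (f : Fin 4 → S) : Decidable (W4 l f) := by unfold W4; infer_instance

/-- Local rules for the contents of two consecutive rows `b` (length `m`) and `a` (length `m + 1`). -/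
structure Sys (Γ : Type) where
  /-- admissible content of the row of length one -/
  seed : Γ → Bool
  /-- `start b a`: first cells -/
  start : Γ → Γ → Bool
  /-- `loc b a b' a'`: neighbouring cells -/
  loc : Γ → Γ → Γ → Γ → Bool
  /-- `last b a a'`: last cell of the old row, and the two last cells of the new row -/
  last : Γ → Γ → Γ → Bool
  /-- phase of a row -/
  run : Γ → Bool

variable {Γ : Type}

/-- The row `a` of length `m + 1` is a successor of the row `b` of length `m`. -/
def Stp (T : Sys Γ) (m : ℕ) (b a : ℕ → Γ) : Prop :=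
  (m = 0 → T.seed (a 0) = true) ∧
  (0 < m → T.start (b 0) (a 0) = true ∧
    (∀ p, p + 1 < m → T.loc (b p) (a p) (b (p + 1)) (a (p + 1)) = true) ∧
    T.last (b (m - 1)) (a (m - 1)) (a m) = true)

/-- An infinite sequence of rows, row `m` having length `m`, in which the phase changes after
row `N`. -/
def Chain (T : Sys Γ) (N : ℕ) : Prop :=
  ∃ ρ : ℕ → ℕ → Γ, ∀ m, Stp T m (ρ m) (ρ (m + 1)) ∧ (1 ≤ m → (T.run (ρ m 0) = true ↔ N + 1 ≤ m))

/-! ### Column classes -/

def hid (c : Col Γ) : Bool := decide (c.1.1 = c.2.1)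

/-- Column with given labels. -/
def sp (s t : S) (c : Col Γ) : Bool := decide (c.1.1 = s) && decide (c.2.1 = t)

def isK1 (r : ℕ) (c : Col Γ) : Bool := sp (lab r 1) (lab r 2) c
def isK2 (r : ℕ) (c : Col Γ) : Bool := sp (lab r 2) (lab r 3) c
def isA (r : ℕ) (c : Col Γ) : Bool := sp (lab (r + 1) 1) (lab r 1) c
def isZ (r : ℕ) (c : Col Γ) : Bool := sp (lab r 3) (lab (r + 1) 1) c
def isC (r : ℕ) (c : Col Γ) : Bool := sp (lab (r + 1) 2) (lab r 1) c

/-- Cells of a compared pair of rows. -/
def isCell (r : ℕ) (c : Col Γ) : Bool :=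
  hid c && decide (c.1.1.2 = 1) && decide (c.1.2.1 = lab (r + 1) 1) && decide (c.2.2.1 = lab r 1)

/-- `K1` columns with parent label `x` on the first tape. -/
def isK1p (r : ℕ) (x : S) (c : Col Γ) : Bool := isK1 r c && decide (c.1.2.1 = x)

/-! ### The rules -/

/-- Window rule: parent labels of four consecutive `K1` columns. -/
def patR1 (r : ℕ) (x : Fin 4 → S) : List (Item (Col Γ)) :=
  [.one (isK1p r (x 0)), .many hid, .one (isK2 r), .many (fun c => !isK1 r c),
   .one (isK1p r (x 1)), .many hid, .one (isK2 r), .many (fun c => !isK1 r c),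
   .one (isK1p r (x 2)), .many hid, .one (isK2 r), .many (fun c => !isK1 r c),
   .one (isK1p r (x 3)), .many hid, .one (isK2 r)]

/-- `badPar r v₂ v₁ x`: the parent label `x` of a `K1` column is wrong, where `v₁`, `v₂` are the
labels of the last and second last visible columns before it. -/
def badPar (r : ℕ) (v2 v1 : S × S) (x : S) : Bool :=
  if v1.2 = lab r 1 ∧ v1.1 ≠ lab r 3 then decide (x ≠ v1.1)
  else if v1 = (lab r 3, lab r 1) then
    (if v2.1 = lab r 3 then decide (x ≠ lab r 3)
     else if v2 = (lab r 2, lab r 3) then decide (x ≠ lab r 1 ∧ x ≠ lab r 3)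
     else false)
  else if v1.1 = lab r 3 then decide (x ≠ lab r 1)
  else if v1 = (lab r 2, lab r 3) then decide (x ≠ lab r 1)
  else false

/-- Parent rule. -/
def patR2 (r : ℕ) (v2 v1 : S × S) (x : S) : List (Item (Col Γ)) :=
  [.one (sp v2.1 v2.2), .many hid, .one (sp v1.1 v1.2), .many hid, .one (isK1p r x), .many hid,
   .one (isK2 r)]

/-- The confirmation part of the content rules. -/
def tailP (r : ℕ) : List (Item (Col Γ)) :=
  [.many hid, .one (isK2 r), .many hid, .one (isZ r), .many hid, .one (isC r)]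

/-- Hidden columns which are not cells. -/
def nc (r : ℕ) (c : Col Γ) : Bool := hid c && !isCell r c

def patSeed (T : Sys Γ) (r : ℕ) : List (Item (Col Γ)) :=
  .one (isA r) :: .many (nc r) :: .one (fun c => isK1 r c && !T.seed c.1.2.2) :: tailP r

def patStart (T : Sys Γ) (r : ℕ) : List (Item (Col Γ)) :=
  .one (isA r) :: .many (nc r) ::
    .one (fun c => isCell r c && !T.start c.2.2.2 c.1.2.2) :: .many hid :: .one (isK1 r) :: tailP r

def patLoc (T : Sys Γ) [DecidableEq Γ] (r : ℕ) (b a : Γ) : List (Item (Col Γ)) :=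
  .one (isA r) :: .many hid ::
    .one (fun c => isCell r c && decide (c.2.2.2 = b) && decide (c.1.2.2 = a)) :: .many (nc r) ::
    .one (fun c => isCell r c && !T.loc b a c.2.2.2 c.1.2.2) ::
    .many hid :: .one (isK1 r) :: tailP r

def patLast (T : Sys Γ) [DecidableEq Γ] (r : ℕ) (b a : Γ) : List (Item (Col Γ)) :=
  .one (isA r) :: .many hid ::
    .one (fun c => isCell r c && decide (c.2.2.2 = b) && decide (c.1.2.2 = a)) :: .many (nc r) ::
    .one (fun c => isK1 r c && !T.last b a c.1.2.2) :: tailP r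

/-- Structural patterns. -/
def SP (Γ : Type) : Set (List (Item (Col Γ))) :=
  {pat | ∃ r < 2, (∃ x : Fin 4 → S, ¬ W4 (r + 1) x ∧ pat = patR1 r x) ∨
    (∃ v2 v1 : S × S, ∃ x : S, v2.1 ≠ v2.2 ∧ v1.1 ≠ v1.2 ∧ badPar r v2 v1 x = true ∧
      pat = patR2 r v2 v1 x)}

/-- Content patterns. -/
def CP (T : Sys Γ) [DecidableEq Γ] : Set (List (Item (Col Γ))) :=
  {pat | ∃ r < 2, pat = patSeed T r ∨ pat = patStart T r ∨
    (∃ b a : Γ, pat = patLoc T r b a ∨ pat = patLast T r b a)}

/-- Counting rule: the verdict on a compared pair of rows of lengths `i` and `i + 1`, whose phases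
are `fb` and `fa`. -/
def badN (N : ℕ) (fb fa : Bool) (i : ℕ) : Bool :=
  (fb != decide (N + 1 ≤ i)) || (fa != decide (N ≤ i))

/-- Column words violating the counting rule. -/
def EN (T : Sys Γ) (N : ℕ) : Set (List (Col Γ)) :=
  {e | ∃ r < 2, ∃ (cA : Col Γ) (row t : List (Col Γ)) (c0 : Col Γ), e = cA :: (row ++ t) ∧
    isA r cA = true ∧ (∀ c ∈ row, hid c = true) ∧ (row.filter (isCell r)).head? = some c0 ∧
    badN N (T.run c0.2.2.2) (T.run c0.1.2.2) (row.filter (isCell r)).length = true ∧
    Mt (.one (isK1 r) :: tailP r) t}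

/-! ### The language -/

/-- Patterns on the alphabet: four letters of one copy with wrong labels. -/
def patX (f : Fin 4 → S) : List (Item (Al Γ)) :=
  [.one (fun a => a.elim (fun x => decide (x.1 = f 0)) fun _ => false), .many (fun a => a.isRight),
   .one (fun a => a.elim (fun x => decide (x.1 = f 1)) fun _ => false), .many (fun a => a.isRight),
   .one (fun a => a.elim (fun x => decide (x.1 = f 2)) fun _ => false), .many (fun a => a.isRight),
   .one (fun a => a.elim (fun x => decide (x.1 = f 3)) fun _ => false)]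

def patY (f : Fin 4 → S) : List (Item (Al Γ)) :=
  [.one (fun a => a.elim (fun _ => false) fun x => decide (x.1 = f 0)), .many (fun a => a.isLeft),
   .one (fun a => a.elim (fun _ => false) fun x => decide (x.1 = f 1)), .many (fun a => a.isLeft),
   .one (fun a => a.elim (fun _ => false) fun x => decide (x.1 = f 2)), .many (fun a => a.isLeft),
   .one (fun a => a.elim (fun _ => false) fun x => decide (x.1 = f 3))]

/-- Column words as words over the alphabet, first tape first. -/
def flX (e : List (Col Γ)) : List (Al Γ) := e.flatMap fun c => [Sum.inl c.1, Sum.inr c.2]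

/-- Column words as words over the alphabet, with the two copies exchanged. -/
def flY (e : List (Col Γ)) : List (Al Γ) := e.flatMap fun c => [Sum.inr c.1, Sum.inl c.2]

/-- The part of the language not depending on `N`. -/
def Kfix (T : Sys Γ) [DecidableEq Γ] : Set (List (Al Γ)) :=
  {w | (∃ u e v, w = u ++ e ++ v ∧ ∃ f : Fin 4 → S, ¬ W4 0 f ∧ (Mt (patX f) e ∨ Mt (patY f) e)) ∨
    (∃ u e v, (w = u ++ flX e ++ v ∨ w = u ++ flY e ++ v) ∧ ∃ pat ∈ SP Γ ∪ CP T, Mt pat e)}

/-- The part of the language depending on `N`. -/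
def Kcnt (T : Sys Γ) (N : ℕ) : Set (List (Al Γ)) :=
  {w | ∃ u e v, w = u ++ flX e ++ v ∧ e ∈ EN T N}

/-- The language. -/
def KN (T : Sys Γ) [DecidableEq Γ] (N : ℕ) : Set (List (Al Γ)) := Kfix T ∪ Kcnt T N

/-! ### Avoiding pairs of bi-infinite words -/

/-- Structural rules for a pair of bi-infinite words. -/
def AvS (α β : ℤ → Lt Γ) : Prop :=
  (∀ t : ℤ, W4 0 fun i : Fin 4 => (α (t + (i : ℕ))).1) ∧
  (∀ pat ∈ SP Γ, ∀ l s e : ℤ, ¬ Occ (fun t => (α t, β (t + l))) pat s e)

/-- Content rules. -/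
def AvC (T : Sys Γ) [DecidableEq Γ] (α β : ℤ → Lt Γ) : Prop :=
  ∀ pat ∈ CP T, ∀ l s e : ℤ, ¬ Occ (fun t => (α t, β (t + l))) pat s e

/-- Counting rule. -/
def AvN (T : Sys Γ) (N : ℕ) (α β : ℤ → Lt Γ) : Prop :=
  ∀ (l s : ℤ) (n : ℕ), fw (fun t => (α t, β (t + l))) s n ∉ EN T N

end Pool.Agent.H81.Dec
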