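import Mathlib
import Pool.Agent.H81.Dec.Defs

set_option autoImplicit false

/-!
# Basic facts: labels, positions, phases
-/

namespace Pool.Agent.H81.Dec

variable {Γ : Type}

theorem lab_mod (m : ℕ) (d : ℤ) : lab (m % 2) d = lab m d := lab_eq_iff.2 ⟨by omega, rfl⟩
theorem lab_mod' (m : ℕ) (d : ℤ) : lab (m % 2 + 1) d = lab (m + 1) d := lab_eq_iff.2 ⟨by omega, rfl⟩

theorem lab_ne {m m' : ℕ} {d d' : ℤ} (h : m % 2 ≠ m' % 2 ∨ d % 4 ≠ d' % 4) : lab m d ≠ lab m' d' := by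
  intro h'
  rw [lab_eq_iff] at h'
  omega

theorem isK1_mod (m : ℕ) : (isK1 (m % 2) : Col Γ → Bool) = isK1 m := by
  funext c; simp only [isK1, lab_mod]
theorem isK2_mod (m : ℕ) : (isK2 (m % 2) : Col Γ → Bool) = isK2 m := by
  funext c; simp only [isK2, lab_mod]
theorem isA_mod (m : ℕ) : (isA (m % 2) : Col Γ → Bool) = isA m := by
  funext c; simp only [isA, lab_mod, lab_mod']
theorem isZ_mod (m : ℕ) : (isZ (m % 2) : Col Γ → Bool) = isZ m := by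
  funext c; simp only [isZ, lab_mod, lab_mod']
theorem isC_mod (m : ℕ) : (isC (m % 2) : Col Γ → Bool) = isC m := by
  funext c; simp only [isC, lab_mod, lab_mod']
theorem isCell_mod (m : ℕ) : (isCell (m % 2) : Col Γ → Bool) = isCell m := by
  funext c; simp only [isCell, lab_mod, lab_mod']
theorem isK1p_mod (m : ℕ) (x : S) : (isK1p (m % 2) x : Col Γ → Bool) = isK1p m x := by
  funext c; simp only [isK1p, isK1_mod]
theorem nc_mod (m : ℕ) : (nc (m % 2) : Col Γ → Bool) = nc m := by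
  funext c; simp only [nc, isCell_mod]
theorem tailP_mod (m : ℕ) : (tailP (m % 2) : List (Item (Col Γ))) = tailP m := by
  simp only [tailP, isK2_mod, isZ_mod, isC_mod]
theorem patR1_mod (m : ℕ) (x : Fin 4 → S) : (patR1 (m % 2) x : List (Item (Col Γ))) = patR1 m x := by
  simp only [patR1, isK1p_mod, isK2_mod, isK1_mod]
theorem patR2_mod (m : ℕ) (v2 v1 : S × S) (x : S) :
    (patR2 (m % 2) v2 v1 x : List (Item (Col Γ))) = patR2 m v2 v1 x := by
  simp only [patR2, isK1p_mod, isK2_mod]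
theorem badPar_mod (m : ℕ) (v2 v1 : S × S) (x : S) : badPar (m % 2) v2 v1 x = badPar m v2 v1 x := by
  simp only [badPar, lab_mod]

theorem W4_mod (m : ℕ) (x : Fin 4 → S) : W4 (m % 2 + 1) x ↔ W4 (m + 1) x := by
  simp only [W4, lab_mod']

theorem patR1_mem (m : ℕ) {x : Fin 4 → S} (hx : ¬ W4 (m + 1) x) : patR1 m x ∈ SP Γ :=
  ⟨m % 2, by omega, Or.inl ⟨x, by rwa [W4_mod], (patR1_mod m x).symm⟩⟩

theorem patR2_mem (m : ℕ) {v2 v1 : S × S} {x : S} (h2 : v2.1 ≠ v2.2) (h1 : v1.1 ≠ v1.2)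
    (hx : badPar m v2 v1 x = true) : patR2 m v2 v1 x ∈ SP Γ :=
  ⟨m % 2, by omega, Or.inr ⟨v2, v1, x, h2, h1, by rwa [badPar_mod], (patR2_mod m v2 v1 x).symm⟩⟩

section content
variable (T : Sys Γ) [DecidableEq Γ]

theorem patSeed_mem (m : ℕ) : patSeed T m ∈ CP T :=
  ⟨m % 2, by omega, Or.inl (by simp only [patSeed, isA_mod, nc_mod, isK1_mod, tailP_mod])⟩
theorem patStart_mem (m : ℕ) : patStart T m ∈ CP T :=
  ⟨m % 2, by omega, Or.inr (Or.inl (by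
    simp only [patStart, isA_mod, nc_mod, isCell_mod, isK1_mod, tailP_mod]))⟩
theorem patLoc_mem (m : ℕ) (b a : Γ) : patLoc T m b a ∈ CP T :=
  ⟨m % 2, by omega, Or.inr (Or.inr ⟨b, a, Or.inl (by
    simp only [patLoc, isA_mod, nc_mod, isCell_mod, isK1_mod, tailP_mod])⟩)⟩
theorem patLast_mem (m : ℕ) (b a : Γ) : patLast T m b a ∈ CP T :=
  ⟨m % 2, by omega, Or.inr (Or.inr ⟨b, a, Or.inr (by
    simp only [patLast, isA_mod, nc_mod, isCell_mod, isK1_mod, tailP_mod])⟩)⟩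

end content

/-- Every integer is a multiple of `4 ^ m`, or `4 ^ q * j` with `q < m` and `j` not divisible by
`4`. -/
theorem dec4 (m : ℕ) (t : ℤ) : (∃ j, t = 4 ^ m * j) ∨ ∃ q < m, ∃ j : ℤ, j % 4 ≠ 0 ∧ t = 4 ^ q * j := by
  induction m with
  | zero => exact Or.inl ⟨t, by simp⟩
  | succ m ih =>
    rcases ih with ⟨j, hj⟩ | ⟨q, hq, j, hj, ht⟩
    · by_cases h : j % 4 = 0
      · exact Or.inl ⟨j / 4, by rw [hj, pow_succ, mul_assoc, Int.mul_ediv_cancel' (Int.dvd_of_emod_eq_zero h)]⟩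
      · exact Or.inr ⟨m, by omega, j, h, hj⟩
    · exact Or.inr ⟨q, by omega, j, hj, ht⟩

theorem not_mul_of_between {m : ℕ} {j : ℤ} {t : ℤ} (h1 : 4 ^ m * j < t) (h2 : t < 4 ^ m * (j + 1)) :
    ∃ q < m, ∃ i : ℤ, i % 4 ≠ 0 ∧ t = 4 ^ q * i := by
  rcases dec4 m t with ⟨i, hi⟩ | h
  · exfalso
    have hp : (0 : ℤ) < 4 ^ m := by positivity
    rw [hi] at h1 h2
    have h3 := lt_of_mul_lt_mul_left h1 hp.le
    have h4 := lt_of_mul_lt_mul_left h2 hp.le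
    omega
  · exact h

/-- Global phase. -/
theorem global_phase (l : ℕ) (ξ : ℤ → S) (h : ∀ i : ℤ, W4 l fun k : Fin 4 => ξ (i + (k : ℕ))) :
    ∃ φ : ℤ, ∀ i, (i - φ) % 4 ≠ 0 → ξ i = lab l (i - φ) := by
  choose f hf using h
  -- consistency of neighbouring windows
  have hstep : ∀ i, ((f (i + 1) : ℕ) : ℤ) % 4 = (((f i : ℕ) : ℤ) + 1) % 4 := by
    intro i
    by_contra hne
    have h0 := hf i
    have h1 := hf (i + 1)
    have key : ∀ k : Fin 4, ∀ k' : Fin 4, (k : ℕ) = (k' : ℕ) + 1 → ((k : ℕ) + (f i : ℕ)) % 4 ≠ 0 →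
        ((k' : ℕ) + (f (i + 1) : ℕ)) % 4 ≠ 0 → False := by
      intro k k' hk hz hz'
      have e0 := h0 k hz
      have e1 := h1 k' hz'
      simp only at e0 e1
      rw [hk] at e0
      rw [show i + 1 + ((k' : ℕ) : ℤ) = i + (((k' : ℕ) + 1 : ℕ) : ℤ) by push_cast; ring] at e1
      rw [e0, lab_eq_iff] at e1
      apply hne
      have := e1.2
      push_cast at this
      omega
    have hb0 := (f i).isLt
    have hb1 := (f (i + 1)).isLt
    have k1 := key 1 0 rfl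
    have k2 := key 2 1 rfl
    have k3 := key 3 2 rfl
    have v0 : ((0 : Fin 4) : ℕ) = 0 := rfl
    have v1 : ((1 : Fin 4) : ℕ) = 1 := rfl
    have v2 : ((2 : Fin 4) : ℕ) = 2 := rfl
    have v3 : ((3 : Fin 4) : ℕ) = 3 := rfl
    rw [v0, v1] at k1
    rw [v1, v2] at k2
    rw [v2, v3] at k3
    have k1' : ¬ ((1 + (f i : ℕ)) % 4 ≠ 0 ∧ (0 + (f (i + 1) : ℕ)) % 4 ≠ 0) := fun h => k1 h.1 h.2
    have k2' : ¬ ((2 + (f i : ℕ)) % 4 ≠ 0 ∧ (1 + (f (i + 1) : ℕ)) % 4 ≠ 0) := fun h => k2 h.1 h.2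
    have k3' : ¬ ((3 + (f i : ℕ)) % 4 ≠ 0 ∧ (2 + (f (i + 1) : ℕ)) % 4 ≠ 0) := fun h => k3 h.1 h.2
    omega
  have hall : ∀ i : ℤ, ((f i : ℕ) : ℤ) % 4 = (((f 0 : ℕ) : ℤ) + i) % 4 := by
    intro i
    induction i using Int.induction_on with
    | zero => simp
    | succ i ih => rw [hstep]; omega
    | pred i ih =>
      have := hstep (-(i : ℤ) - 1)
      rw [show -(i : ℤ) - 1 + 1 = -(i : ℤ) by ring] at this
      omega
  refine ⟨-((f 0 : ℕ) : ℤ), fun i hi => ?_⟩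
  have h1 := hf i 0
  have v0 : ((0 : Fin 4) : ℕ) = 0 := rfl
  rw [v0] at h1
  have h2 := hall i
  have h3 : (0 + (f i : ℕ)) % 4 ≠ 0 := by omega
  have h4 := h1 h3
  simp only [v0, Nat.cast_zero, add_zero] at h4
  rw [h4, lab_eq_iff]
  exact ⟨rfl, by omega⟩

end Pool.Agent.H81.Dec
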