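import Mathlib
import Pool.Agent.H81.Dec.Defs

set_option autoImplicit false

/-!
# Ideals in which all long pairs of words have a shuffle are decomposable
-/

namespace Pool.Agent.H81.Dec

namespace Sh

variable {A : Type}

theorem length_eq {u v w : List A} (h : Sh u v w) : w.length = u.length + v.length := by
  induction h with
  | nil => rfl
  | left _ ih => simp only [List.length_cons, ih]; omega
  | right _ ih => simp only [List.length_cons, ih]; omega

theorem symm {u v w : List A} (h : Sh u v w) : Sh v u w := by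
  induction h with
  | nil => exact .nil
  | left _ ih => exact .right ih
  | right _ ih => exact .left ih

theorem nil_left (v : List A) : Sh [] v v := by
  induction v with
  | nil => exact .nil
  | cons a v ih => exact .right ih

theorem eq_of_nil_left {v w : List A} (h : Sh [] v w) : w = v := by
  induction v generalizing w with
  | nil => cases h; rfl
  | cons a v ih =>
    cases h with
    | right h => rw [ih h]

theorem append {u v w u' v' w' : List A} (h : Sh u v w) (h' : Sh u' v' w') :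
    Sh (u ++ u') (v ++ v') (w ++ w') := by
  induction h with
  | nil => exact h'
  | left _ ih => exact .left ih
  | right _ ih => exact .right ih

theorem conc (u v : List A) : Sh u v (u ++ v) := by
  have := append (nil_left u).symm (nil_left v)
  simpa using this

/-- Splitting a shuffle with a concatenation. -/
theorem split {x y u w : List A} (h : Sh u (x ++ y) w) :
    ∃ u1 u2 w1 w2, u = u1 ++ u2 ∧ w = w1 ++ w2 ∧ Sh u1 x w1 ∧ Sh u2 y w2 := by
  generalize hz : x ++ y = z at h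
  induction h generalizing x with
  | nil =>
    have hx : x = [] := by
      cases x with
      | nil => rfl
      | cons _ _ => simp at hz
    subst hx
    have hy : y = [] := by simpa using hz
    subst hy
    exact ⟨[], [], [], [], rfl, rfl, .nil, .nil⟩
  | @left a u v w h ih =>
    obtain ⟨u1, u2, w1, w2, rfl, rfl, h1, h2⟩ := ih hz
    exact ⟨a :: u1, u2, a :: w1, w2, rfl, rfl, .left h1, h2⟩
  | @right a u v w h ih =>
    cases x with
    | nil =>
      simp only [List.nil_append] at hz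
      subst hz
      exact ⟨[], u, [], a :: w, rfl, rfl, .nil, .right h⟩
    | cons b x =>
      simp only [List.cons_append, List.cons.injEq] at hz
      obtain ⟨rfl, hz⟩ := hz
      obtain ⟨u1, u2, w1, w2, rfl, rfl, h1, h2⟩ := ih hz
      exact ⟨u1, u2, b :: w1, w2, rfl, rfl, .right h1, h2⟩

/-- Associativity. -/
theorem assoc {u x y z w : List A} (h : Sh u z w) (h' : Sh x y z) :
    ∃ t, Sh u x t ∧ Sh t y w := by
  induction h generalizing x y with
  | nil => cases h'; exact ⟨[], .nil, .nil⟩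
  | left _ ih =>
    obtain ⟨t, h1, h2⟩ := ih h'
    exact ⟨_, .left h1, .left h2⟩
  | right _ ih =>
    cases h' with
    | left h' =>
      obtain ⟨t, h1, h2⟩ := ih h'
      exact ⟨_, .right h1, .left h2⟩
    | right h' =>
      obtain ⟨t, h1, h2⟩ := ih h'
      exact ⟨t, h1, .right h2⟩

theorem assoc' {u x y t w : List A} (h : Sh u x t) (h' : Sh t y w) :
    ∃ z, Sh u z w ∧ Sh x y z := by
  obtain ⟨z, h1, h2⟩ := assoc h'.symm h.symm
  exact ⟨z, h2.symm, h1.symm⟩

end Sh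

section

variable {A : Type}

/-- Local form of decomposability. -/
theorem decomp_of_local (S : Set (Set (List A))) (hS : S.Finite) (K : Set (List A)) (hK : K ∈ S)
    (hτ : ∀ L ∈ S, ∀ x y : List A, x ++ y ∈ L → ∃ L₁ ∈ S, ∃ L₂ ∈ S, x ∈ L₁ ∧ y ∈ L₂ ∧
      ∀ x' ∈ L₁, ∀ y' ∈ L₂, x' ++ y' ∈ L)
    (hσ : ∀ L ∈ S, ∀ x y : List A, (∃ w ∈ L, Sh x y w) → ∃ L₁ ∈ S, ∃ L₂ ∈ S, x ∈ L₁ ∧ y ∈ L₂ ∧
      ∀ x' ∈ L₁, ∀ y' ∈ L₂, ∃ w ∈ L, Sh x' y' w) : Decomp K := by
  refine ⟨S, hS, hK, fun L hL => ⟨?_, ?_⟩⟩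
  · refine ⟨{q | q ∈ S ×ˢ S ∧ q.1 ×ˢ q.2 ⊆ {p : List A × List A | p.1 ++ p.2 ∈ L}},
      fun q hq => hq.1, ?_⟩
    ext ⟨x, y⟩
    simp only [Set.mem_ofPred_eq, Set.mem_iUnion, exists_prop]
    constructor
    · intro h
      obtain ⟨L₁, h₁, L₂, h₂, hx, hy, hall⟩ := hτ L hL x y h
      exact ⟨(L₁, L₂), ⟨⟨h₁, h₂⟩, fun p hp => hall p.1 hp.1 p.2 hp.2⟩, ⟨hx, hy⟩⟩
    · rintro ⟨q, ⟨-, hq⟩, hxy⟩
      exact hq hxy
  · refine ⟨{q | q ∈ S ×ˢ S ∧ q.1 ×ˢ q.2 ⊆ {p : List A × List A | ∃ w ∈ L, Sh p.1 p.2 w}},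
      fun q hq => hq.1, ?_⟩
    ext ⟨x, y⟩
    simp only [Set.mem_ofPred_eq, Set.mem_iUnion, exists_prop]
    constructor
    · intro h
      obtain ⟨L₁, h₁, L₂, h₂, hx, hy, hall⟩ := hσ L hL x y h
      exact ⟨(L₁, L₂), ⟨⟨h₁, h₂⟩, fun p hp => hall p.1 hp.1 p.2 hp.2⟩, ⟨hx, hy⟩⟩
    · rintro ⟨q, ⟨-, hq⟩, hxy⟩
      exact hq hxy

/-- Partial shuffle quotient. -/
def dq (u : List A) (M : Set (List A)) : Set (List A) := {v | ∃ w ∈ M, Sh u v w}

/-- Members of the base family. -/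
def bs {Q : Type} (D : DFA A Q) (K : Set (List A)) (p q : Q) : Set (List A) :=
  {w | w ∈ K ∨ D.evalFrom p w = q}

/-- The base family. -/
def base {Q : Type} (D : DFA A Q) (K : Set (List A)) : Set (Set (List A)) :=
  {K} ∪ Set.range fun pq : Q × Q => bs D K pq.1 pq.2

theorem base_tau {Q : Type} (D : DFA A Q) (K : Set (List A)) (hK : ∀ w, w ∈ K ↔ D.eval w ∈ D.accept)
    (hid : TwoSided K) (M : Set (List A)) (hM : M ∈ base D K) (x y : List A) (h : x ++ y ∈ M) :
    ∃ L₁ ∈ base D K, ∃ L₂ ∈ base D K, x ∈ L₁ ∧ y ∈ L₂ ∧ ∀ x' ∈ L₁, ∀ y' ∈ L₂, x' ++ y' ∈ M := by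
  have hKM : ∀ w ∈ K, w ∈ M := by
    rcases hM with rfl | ⟨⟨p, q⟩, rfl⟩
    · exact fun w hw => hw
    · exact fun w hw => Or.inl hw
  have hl : ∀ x' y', x' ∈ K → x' ++ y' ∈ K := fun x' y' hx => by simpa using hid [] x' y' hx
  have hr : ∀ x' y', y' ∈ K → x' ++ y' ∈ K := fun x' y' hx => by simpa using hid x' y' [] hx
  have key : ∀ p q : Q, D.evalFrom p (x ++ y) = q → (∀ w, D.evalFrom p w = q → w ∈ M) →
      ∃ L₁ ∈ base D K, ∃ L₂ ∈ base D K, x ∈ L₁ ∧ y ∈ L₂ ∧ ∀ x' ∈ L₁, ∀ y' ∈ L₂, x' ++ y' ∈ M := by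
    intro p q hpq hall
    refine ⟨bs D K p (D.evalFrom p x), Or.inr ⟨(_, _), rfl⟩, bs D K (D.evalFrom p x) q,
      Or.inr ⟨(_, _), rfl⟩, Or.inr rfl, Or.inr ?_, ?_⟩
    · rw [← hpq, DFA.evalFrom_of_append]
    · rintro x' (hx' | hx') y' (hy' | hy')
      · exact hKM _ (hl _ _ hx')
      · exact hKM _ (hl _ _ hx')
      · exact hKM _ (hr _ _ hy')
      · apply hall
        rw [DFA.evalFrom_of_append, hx', hy']
  have keyK : x ++ y ∈ K →
      ∃ L₁ ∈ base D K, ∃ L₂ ∈ base D K, x ∈ L₁ ∧ y ∈ L₂ ∧ ∀ x' ∈ L₁, ∀ y' ∈ L₂, x' ++ y' ∈ M := by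
    intro hxy
    refine key D.start (D.evalFrom D.start (x ++ y)) rfl fun w hw => hKM w ?_
    rw [hK] at hxy ⊢
    change D.evalFrom D.start w ∈ D.accept
    rw [hw]
    exact hxy
  rcases hM with rfl | ⟨⟨p, q⟩, rfl⟩
  · exact keyK h
  · rcases h with h | h
    · exact keyK h
    · exact key p q h fun w hw => Or.inr hw

theorem decomp_of_ideal {A : Type} [Fintype A] {K : Set (List A)}
    (hreg : Language.IsRegular (K : Language A))
    (hid : TwoSided K) (N : ℕ)
    (hN : ∀ u v : List A, N ≤ u.length → N ≤ v.length → ∃ w ∈ K, Sh u v w) : Decomp K := by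
  obtain ⟨Q, hQ, D, hD⟩ := hreg
  have hK : ∀ w, w ∈ K ↔ D.eval w ∈ D.accept := by
    intro w
    have : w ∈ D.accepts ↔ D.eval w ∈ D.accept := Iff.rfl
    rw [hD] at this
    exact this
  have hKM : ∀ M ∈ base D K, ∀ w ∈ K, w ∈ M := by
    rintro M (rfl | ⟨⟨p, q⟩, rfl⟩)
    · exact fun w hw => hw
    · exact fun w hw => Or.inl hw
  have hbfin : (base D K).Finite := (Set.finite_singleton K).union (Set.finite_range _)
  set S : Set (Set (List A)) :=
    {X | (∃ u, ∃ M ∈ base D K, X = dq u M) ∨ (∃ v : List A, v.length ≤ N ∧ X = {v}) ∨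
      (∃ i ≤ N, X = {w | i ≤ w.length})} with hS
  have mdq : ∀ u M, M ∈ base D K → dq u M ∈ S := fun u M hM => Or.inl ⟨u, M, hM, rfl⟩
  have msg : ∀ v : List A, v.length ≤ N → ({v} : Set (List A)) ∈ S :=
    fun v hv => Or.inr (Or.inl ⟨v, hv, rfl⟩)
  have mln : ∀ i, i ≤ N → {w : List A | i ≤ w.length} ∈ S :=
    fun i hi => Or.inr (Or.inr ⟨i, hi, rfl⟩)
  have hfin : S.Finite := by
    have hW : {w : List A | w.length ≤ N}.Finite := List.finite_length_le A N
    have f1 : (⋃ M ∈ base D K, (fun u => dq u M) '' {w : List A | w.length ≤ N}).Finite :=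
      hbfin.biUnion fun M _ => hW.image _
    have f2 : ((fun X : Set (List A) => X ∪ {w | N ≤ w.length}) ''
        (𝒫 {w : List A | w.length ≤ N})).Finite := (hW.finite_subsets).image _
    have f3 : ((fun v : List A => ({v} : Set (List A))) '' {w : List A | w.length ≤ N}).Finite :=
      hW.image _
    have f4 : ((fun i : ℕ => {w : List A | i ≤ w.length}) '' Set.Iic N).Finite :=
      (Set.finite_Iic N).image _
    refine ((f1.union f2).union (f3.union f4)).subset ?_
    rintro X (⟨u, M, hM, rfl⟩ | ⟨v, hv, rfl⟩ | ⟨i, hi, rfl⟩)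
    · left
      by_cases hu : u.length ≤ N
      · left
        exact Set.mem_biUnion hM ⟨u, hu, rfl⟩
      · right
        refine ⟨dq u M ∩ {w | w.length ≤ N}, Set.inter_subset_right, ?_⟩
        ext v
        simp only [Set.mem_union, Set.mem_inter_iff, Set.mem_ofPred_eq]
        constructor
        · rintro (h | h)
          · exact h.1
          · obtain ⟨w, hw, hs⟩ := hN u v (by omega) h
            exact ⟨w, hKM M hM w hw, hs⟩
        · intro h
          by_cases hv : v.length ≤ N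
          · exact Or.inl ⟨h, hv⟩
          · exact Or.inr (by omega)
    · exact Or.inr (Or.inl ⟨v, hv, rfl⟩)
    · exact Or.inr (Or.inr ⟨i, hi, rfl⟩)
  refine decomp_of_local S hfin K ?_ ?_ ?_
  · have : K = dq [] K := by
      ext v
      constructor
      · exact fun h => ⟨v, h, Sh.nil_left v⟩
      · rintro ⟨w, hw, hs⟩
        rwa [← hs.eq_of_nil_left]
    rw [this]
    exact mdq _ _ (Or.inl rfl)
  · rintro L (⟨u, M, hM, rfl⟩ | ⟨v, hv, rfl⟩ | ⟨i, hi, rfl⟩) x y hxy
    · obtain ⟨w, hw, hs⟩ := hxy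
      obtain ⟨u1, u2, w1, w2, rfl, rfl, h1, h2⟩ := hs.split
      obtain ⟨L₁, hL₁, L₂, hL₂, m1, m2, hall⟩ := base_tau D K hK hid M hM w1 w2 hw
      refine ⟨_, mdq u1 L₁ hL₁, _, mdq u2 L₂ hL₂, ⟨w1, m1, h1⟩, ⟨w2, m2, h2⟩, ?_⟩
      rintro x' ⟨a, ha, hxa⟩ y' ⟨b, hb, hyb⟩
      exact ⟨a ++ b, hall a ha b hb, hxa.append hyb⟩
    · have hxy' : x ++ y = v := hxy
      have hlen : x.length + y.length = v.length := by rw [← hxy', List.length_append]
      refine ⟨_, msg x (by omega), _, msg y (by omega), rfl, rfl, ?_⟩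
      rintro x' rfl y' rfl
      exact hxy
    · have hlen : i ≤ x.length + y.length := by simpa using hxy
      refine ⟨_, mln (min x.length i) (by omega), _, mln (i - min x.length i) (by omega), ?_, ?_, ?_⟩
      · simp
      · simp only [Set.mem_ofPred_eq]; omega
      · intro x' hx' y' hy'
        simp only [Set.mem_ofPred_eq, List.length_append] at hx' hy' ⊢
        omega
  · rintro L (⟨u, M, hM, rfl⟩ | ⟨v, hv, rfl⟩ | ⟨i, hi, rfl⟩) x y ⟨z, hz, hxy⟩
    · obtain ⟨w, hw, hs⟩ := hz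
      by_cases hx : x.length < N
      · obtain ⟨t, h1, h2⟩ := hs.assoc hxy
        refine ⟨_, msg x hx.le, _, mdq t M hM, rfl, ⟨w, hw, h2⟩, ?_⟩
        rintro x' rfl y' ⟨w', hw', hs'⟩
        obtain ⟨z', h3, h4⟩ := Sh.assoc' h1 hs'
        exact ⟨z', ⟨w', hw', h3⟩, h4⟩
      by_cases hy : y.length < N
      · obtain ⟨t, h1, h2⟩ := hs.assoc hxy.symm
        refine ⟨_, mdq t M hM, _, msg y hy.le, ⟨w, hw, h2⟩, rfl, ?_⟩
        rintro x' ⟨w', hw', hs'⟩ y' rfl
        obtain ⟨z', h3, h4⟩ := Sh.assoc' h1 hs'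
        exact ⟨z', ⟨w', hw', h3⟩, h4.symm⟩
      · refine ⟨_, mln N le_rfl, _, mln N le_rfl, by simpa using hx, by simpa using hy, ?_⟩
        intro x' hx' y' hy'
        obtain ⟨w0, hw0, hs0⟩ := hN x' y' hx' hy'
        refine ⟨w0, ⟨u ++ w0, hKM M hM _ ?_, Sh.conc u w0⟩, hs0⟩
        simpa using hid u w0 [] hw0
    · have hz' : z = v := hz
      have hlen := hxy.length_eq
      rw [hz'] at hlen
      refine ⟨_, msg x (by omega), _, msg y (by omega), rfl, rfl, ?_⟩
      rintro x' rfl y' rfl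
      exact ⟨z, hz, hxy⟩
    · have hlen := hxy.length_eq
      have hz' : i ≤ z.length := hz
      refine ⟨_, mln (min x.length i) (by omega), _, mln (i - min x.length i) (by omega), ?_, ?_, ?_⟩
      · simp
      · simp only [Set.mem_ofPred_eq]; omega
      · intro x' hx' y' hy'
        refine ⟨x' ++ y', ?_, Sh.conc x' y'⟩
        simp only [Set.mem_ofPred_eq, List.length_append] at hx' hy' ⊢
        omega

end

end Pool.Agent.H81.Dec
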