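import Mathlib
import Pool.Agent.H81.Dec.Defs

set_option autoImplicit false

/-!
# Factors of bi-infinite words and patterns
-/

namespace Pool.Agent.H81.Dec

variable {A : Type}

theorem fw_zero (c : ℤ → A) (s : ℤ) : fw c s 0 = [] := rfl

theorem fw_succ (c : ℤ → A) (s : ℤ) (n : ℕ) : fw c s (n + 1) = c s :: fw c (s + 1) n := by
  unfold fw
  rw [List.range_succ_eq_map, List.map_cons, List.map_map]
  congr 1
  · simp
  · apply List.map_congr_left
    intro t _
    simp only [Function.comp]
    congr 1
    push_cast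
    ring

theorem fw_add (c : ℤ → A) (s : ℤ) (n m : ℕ) : fw c s (n + m) = fw c s n ++ fw c (s + n) m := by
  induction n generalizing s with
  | zero => simp [fw_zero]
  | succ n ih =>
    rw [show n + 1 + m = n + m + 1 by ring, fw_succ, ih, fw_succ, List.cons_append]
    congr 3
    push_cast
    ring

theorem length_fw (c : ℤ → A) (s : ℤ) (n : ℕ) : (fw c s n).length = n := by simp [fw]

theorem mem_fw {c : ℤ → A} {s : ℤ} {n : ℕ} {x : A} (h : x ∈ fw c s n) :
    ∃ t : ℤ, s ≤ t ∧ t < s + n ∧ x = c t := by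
  simp only [fw, List.mem_map, List.mem_range] at h
  obtain ⟨t, ht, rfl⟩ := h
  exact ⟨s + t, by omega, by omega, rfl⟩

theorem mem_fw_of {c : ℤ → A} {s t : ℤ} {n : ℕ} (h1 : s ≤ t) (h2 : t < s + n) : c t ∈ fw c s n := by
  simp only [fw, List.mem_map, List.mem_range]
  exact ⟨(t - s).toNat, by omega, by congr 1; omega⟩

theorem mt_of_occ (c : ℤ → A) : ∀ (pat : List (Item A)) (s e : ℤ), Occ c pat s e →
    s ≤ e ∧ Mt pat (fw c s (e - s).toNat)
  | [], s, e, h => by
    have h : s = e := h
    subst h
    exact ⟨le_rfl, by simp [Mt, fw]⟩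
  | .one P :: r, s, e, h => by
    obtain ⟨h1, h2⟩ := h
    obtain ⟨h3, h4⟩ := mt_of_occ c r _ _ h2
    refine ⟨by omega, c s, fw c (s + 1) (e - (s + 1)).toNat, ?_, h1, h4⟩
    rw [← fw_succ]
    congr 1
    omega
  | .many P :: r, s, e, h => by
    obtain ⟨s', h1, h2, h3⟩ := h
    obtain ⟨h4, h5⟩ := mt_of_occ c r _ _ h3
    refine ⟨by omega, fw c s (s' - s).toNat, fw c s' (e - s').toNat, ?_, ?_, h5⟩
    · rw [show (e - s).toNat = (s' - s).toNat + (e - s').toNat by omega, fw_add]
      congr 2
      omega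
    · intro x hx
      obtain ⟨t, h6, h7, rfl⟩ := mem_fw hx
      exact h2 t h6 (by omega)

theorem occ_of_mt (c : ℤ → A) : ∀ (pat : List (Item A)) (s : ℤ) (n : ℕ), Mt pat (fw c s n) →
    Occ c pat s (s + n)
  | [], s, n, h => by
    have h : fw c s n = [] := h
    have := length_fw c s n
    rw [h] at this
    show s = s + n
    simp only [List.length_nil] at this
    omega
  | .one P :: r, s, n, h => by
    obtain ⟨x, w, h1, h2, h3⟩ := h
    cases n with
    | zero => simp [fw_zero] at h1
    | succ n =>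
      rw [fw_succ, List.cons.injEq] at h1
      obtain ⟨rfl, rfl⟩ := h1
      refine ⟨h2, ?_⟩
      have := occ_of_mt c r (s + 1) n h3
      rwa [show s + 1 + (n : ℤ) = s + ((n + 1 : ℕ) : ℤ) by push_cast; ring] at this
  | .many P :: r, s, n, h => by
    obtain ⟨u, v, h1, h2, h3⟩ := h
    have hl : n = u.length + v.length := by rw [← List.length_append, ← h1, length_fw]
    have h1' := h1
    rw [hl, fw_add] at h1'
    have hu : fw c s u.length = u := (List.append_inj h1' (length_fw _ _ _)).1
    have hv : fw c (s + u.length) v.length = v := (List.append_inj h1' (length_fw _ _ _)).2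
    refine ⟨s + u.length, by omega, ?_, ?_⟩
    · intro t ht ht'
      apply h2
      rw [← hu]
      exact mem_fw_of ht ht'
    · have := occ_of_mt c r (s + u.length) v.length (by rw [hv]; exact h3)
      rwa [show s + (u.length : ℤ) + (v.length : ℤ) = s + (n : ℤ) by rw [hl]; push_cast; ring] at this

end Pool.Agent.H81.Dec
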