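import Mathlib
import Pool.Agent.H81.Dec.Words
import Pool.Agent.H81.Dec.IdealThm

set_option autoImplicit false

/-!
# Valid words avoid the language
-/

namespace Pool.Agent.H81.Dec

/-- First projection of a word over the alphabet. -/
def px {Γ : Type} (w : List (Al Γ)) : List (Lt Γ) := w.filterMap Sum.getLeft?

/-- Second projection of a word over the alphabet. -/
def py {Γ : Type} (w : List (Al Γ)) : List (Lt Γ) := w.filterMap Sum.getRight?

variable {Γ : Type}

@[simp] theorem px_nil : px ([] : List (Al Γ)) = [] := rfl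
@[simp] theorem py_nil : py ([] : List (Al Γ)) = [] := rfl

@[simp] theorem px_cons_inl (x : Lt Γ) (w : List (Al Γ)) : px (Sum.inl x :: w) = x :: px w := by
  simp [px]
@[simp] theorem px_cons_inr (x : Lt Γ) (w : List (Al Γ)) : px (Sum.inr x :: w) = px w := rfl
@[simp] theorem py_cons_inl (x : Lt Γ) (w : List (Al Γ)) : py (Sum.inl x :: w) = py w := rfl
@[simp] theorem py_cons_inr (x : Lt Γ) (w : List (Al Γ)) : py (Sum.inr x :: w) = x :: py w := by
  simp [py]
@[simp] theorem px_append (u v : List (Al Γ)) : px (u ++ v) = px u ++ px v := by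
  simp [px]
@[simp] theorem py_append (u v : List (Al Γ)) : py (u ++ v) = py u ++ py v := by
  simp [py]

theorem px_flX (e : List (Col Γ)) : px (flX e) = e.map Prod.fst := by
  induction e with
  | nil => rfl
  | cons c e ih =>
    have h : flX (c :: e) = Sum.inl c.1 :: Sum.inr c.2 :: flX e := rfl
    rw [h, px_cons_inl, px_cons_inr, ih, List.map_cons]

theorem py_flX (e : List (Col Γ)) : py (flX e) = e.map Prod.snd := by
  induction e with
  | nil => rfl
  | cons c e ih =>
    have h : flX (c :: e) = Sum.inl c.1 :: Sum.inr c.2 :: flX e := rfl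
    rw [h, py_cons_inl, py_cons_inr, ih, List.map_cons]

theorem px_flY (e : List (Col Γ)) : px (flY e) = e.map Prod.snd := by
  induction e with
  | nil => rfl
  | cons c e ih =>
    have h : flY (c :: e) = Sum.inr c.1 :: Sum.inl c.2 :: flY e := rfl
    rw [h, px_cons_inr, px_cons_inl, ih, List.map_cons]

theorem py_flY (e : List (Col Γ)) : py (flY e) = e.map Prod.fst := by
  induction e with
  | nil => rfl
  | cons c e ih =>
    have h : flY (c :: e) = Sum.inr c.1 :: Sum.inl c.2 :: flY e := rfl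
    rw [h, py_cons_inr, py_cons_inl, ih, List.map_cons]

theorem proj_of_sh {a b w : List (Al Γ)} (h : Sh a b w) : ∀ u v : List (Lt Γ), a = u.map Sum.inl →
    b = v.map Sum.inr → px w = u ∧ py w = v := by
  induction h with
  | nil =>
    intro u v hu hv
    constructor
    · symm; simpa using hu.symm
    · symm; simpa using hv.symm
  | @left c u' v' w' _ ih =>
    intro u v hu hv
    cases u with
    | nil => simp at hu
    | cons x u =>
      rw [List.map_cons, List.cons.injEq] at hu
      obtain ⟨h1, h2⟩ := ih u v hu.2 hv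
      rw [hu.1]
      simp [h1, h2]
  | @right c u' v' w' _ ih =>
    intro u v hu hv
    cases v with
    | nil => simp at hv
    | cons x v =>
      rw [List.map_cons, List.cons.injEq] at hv
      obtain ⟨h1, h2⟩ := ih u v hu hv.2
      rw [hv.1]
      simp [h1, h2]

theorem px_of_right {u : List (Al Γ)} (h : ∀ a ∈ u, a.isRight = true) : px u = [] := by
  induction u with
  | nil => rfl
  | cons a u ih =>
    have h1 := h a (by simp)
    cases a with
    | inl x => simp at h1
    | inr x =>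
      rw [px_cons_inr]
      exact ih fun b hb => h b (by simp [hb])

theorem py_of_left {u : List (Al Γ)} (h : ∀ a ∈ u, a.isLeft = true) : py u = [] := by
  induction u with
  | nil => rfl
  | cons a u ih =>
    have h1 := h a (by simp)
    cases a with
    | inr x => simp at h1
    | inl x =>
      rw [py_cons_inl]
      exact ih fun b hb => h b (by simp [hb])

theorem px_of_patX {f : Fin 4 → S} {e : List (Al Γ)} (h : Mt (patX f) e) :
    ∃ x0 x1 x2 x3 : Lt Γ, px e = [x0, x1, x2, x3] ∧ x0.1 = f 0 ∧ x1.1 = f 1 ∧ x2.1 = f 2 ∧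
      x3.1 = f 3 := by
  obtain ⟨c0, e0, rfl, h0, g0, e0', rfl, k0, h⟩ := h
  obtain ⟨c1, e1, rfl, h1, g1, e1', rfl, k1, h⟩ := h
  obtain ⟨c2, e2, rfl, h2, g2, e2', rfl, k2, h⟩ := h
  obtain ⟨c3, e3, rfl, h3, h⟩ := h
  have h : e3 = [] := h
  subst h
  cases c0 with
  | inr x => simp at h0
  | inl x0 =>
  cases c1 with
  | inr x => simp at h1
  | inl x1 =>
  cases c2 with
  | inr x => simp at h2
  | inl x2 =>
  cases c3 with
  | inr x => simp at h3
  | inl x3 =>
  refine ⟨x0, x1, x2, x3, ?_, by simpa using h0, by simpa using h1, by simpa using h2,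
    by simpa using h3⟩
  simp [px_of_right k0, px_of_right k1, px_of_right k2]

theorem py_of_patY {f : Fin 4 → S} {e : List (Al Γ)} (h : Mt (patY f) e) :
    ∃ x0 x1 x2 x3 : Lt Γ, py e = [x0, x1, x2, x3] ∧ x0.1 = f 0 ∧ x1.1 = f 1 ∧ x2.1 = f 2 ∧
      x3.1 = f 3 := by
  obtain ⟨c0, e0, rfl, h0, g0, e0', rfl, k0, h⟩ := h
  obtain ⟨c1, e1, rfl, h1, g1, e1', rfl, k1, h⟩ := h
  obtain ⟨c2, e2, rfl, h2, g2, e2', rfl, k2, h⟩ := h
  obtain ⟨c3, e3, rfl, h3, h⟩ := h
  have h : e3 = [] := h
  subst h
  cases c0 with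
  | inl x => simp at h0
  | inr x0 =>
  cases c1 with
  | inl x => simp at h1
  | inr x1 =>
  cases c2 with
  | inl x => simp at h2
  | inr x2 =>
  cases c3 with
  | inl x => simp at h3
  | inr x3 =>
  refine ⟨x0, x1, x2, x3, ?_, by simpa using h0, by simpa using h1, by simpa using h2,
    by simpa using h3⟩
  simp [py_of_left k0, py_of_left k1, py_of_left k2]

/-- A middle part of a factor is a factor. -/
theorem fw_middle {A : Type} {c : ℤ → A} {s : ℤ} {n : ℕ} {a b d : List A}
    (h : fw c s n = a ++ b ++ d) : b = fw c (s + a.length) b.length := by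
  have hl : n = a.length + b.length + d.length := by
    rw [← length_fw c s n, h]
    simp [add_assoc]
  rw [hl, fw_add, fw_add] at h
  have h1 : fw c s a.length ++ fw c (s + a.length) b.length = a ++ b :=
    (List.append_inj h (by simp [length_fw])).1
  exact ((List.append_inj h1 (by simp [length_fw])).2).symm

/-- Columns from two factors. -/
theorem fw_cols {A : Type} {X : ℤ → A} {l : ℤ} : ∀ (e : List (A × A)) {s : ℤ},
    e.map Prod.fst = fw X s e.length → e.map Prod.snd = fw X (s + l) e.length →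
    e = fw (fun t => (X t, X (t + l))) s e.length
  | [], s, _, _ => by simp [fw_zero]
  | c :: e, s, h1, h2 => by
    rw [List.map_cons, List.length_cons, fw_succ, List.cons.injEq] at h1 h2
    have h3 : s + l + 1 = s + 1 + l := by ring
    rw [h3] at h2
    rw [List.length_cons, fw_succ, ← fw_cols e h1.2 h2.2, ← h1.1, ← h2.1]

theorem avoid_of_valid {Γ : Type} [DecidableEq Γ] (T : Sys Γ) (N : ℕ) (X : ℤ → Lt Γ)
    (h0 : ∀ t : ℤ, 1 ≤ t → W4 0 fun i : Fin 4 => (X (t + (i : ℕ))).1)
    (h1 : ∀ pat ∈ SP Γ ∪ CP T, ∀ l s e : ℤ, 1 ≤ s → 1 ≤ s + l → ¬ Occ (fun t => (X t, X (t + l))) pat s e)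
    (h2 : ∀ (l s : ℤ) (n : ℕ), 1 ≤ s → 1 ≤ s + l → fw (fun t => (X t, X (t + l))) s n ∉ EN T N) :
    ∀ (i j : ℕ) (w : List (Al Γ)), Sh ((List.range i).map fun t : ℕ => (Sum.inl (X ((t : ℤ) + 1)) : Al Γ))
      ((List.range j).map fun t : ℕ => (Sum.inr (X ((t : ℤ) + 1)) : Al Γ)) w → w ∉ KN T N := by
  intro i j w hsh hw
  have hproj := proj_of_sh hsh (fw X 1 i) (fw X 1 j)
    (by rw [fw, List.map_map]; exact List.map_congr_left fun t _ => by simp [add_comm])
    (by rw [fw, List.map_map]; exact List.map_congr_left fun t _ => by simp [add_comm])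
  obtain ⟨hx, hy⟩ := hproj
  -- four consecutive letters
  have four : ∀ (n : ℕ) (a b : List (Lt Γ)) (x0 x1 x2 x3 : Lt Γ) (f : Fin 4 → S),
      fw X 1 n = a ++ [x0, x1, x2, x3] ++ b → x0.1 = f 0 → x1.1 = f 1 → x2.1 = f 2 → x3.1 = f 3 →
      W4 0 f := by
    intro n a b x0 x1 x2 x3 f h e0 e1 e2 e3
    have h3 := fw_middle h
    have h4 := h0 (1 + a.length) (by omega)
    have h5 : (fun i : Fin 4 => (X (1 + (a.length : ℤ) + (i : ℕ))).1) = f := by
      simp only [List.length_cons, List.length_nil, fw_succ, fw_zero, List.cons.injEq, and_true] at h3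
      obtain ⟨g0, g1, g2, g3⟩ := h3
      funext i
      fin_cases i
      · simp only [Nat.cast_zero, add_zero]
        rw [← g0]; exact e0
      · show (X (1 + (a.length : ℤ) + ((1 : ℕ) : ℤ))).1 = f 1
        rw [Nat.cast_one, ← g1]; exact e1
      · show (X (1 + (a.length : ℤ) + ((2 : ℕ) : ℤ))).1 = f 2
        rw [show 1 + (a.length : ℤ) + ((2 : ℕ) : ℤ) = 1 + (a.length : ℤ) + 1 + 1 by push_cast; ring,
          ← g2]
        exact e2
      · show (X (1 + (a.length : ℤ) + ((3 : ℕ) : ℤ))).1 = f 3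
        rw [show 1 + (a.length : ℤ) + ((3 : ℕ) : ℤ) = 1 + (a.length : ℤ) + 1 + 1 + 1 by
          push_cast; ring, ← g3]
        exact e3
    rwa [h5] at h4
  -- columns
  have colX : ∀ (U V : List (Al Γ)) (e : List (Col Γ)), w = U ++ flX e ++ V →
      ∃ l s : ℤ, 1 ≤ s ∧ 1 ≤ s + l ∧ e = fw (fun t => (X t, X (t + l))) s e.length := by
    intro U V e hw'
    rw [hw', px_append, px_append, px_flX] at hx
    rw [hw', py_append, py_append, py_flX] at hy
    have k1 := fw_middle hx.symm
    have k2 := fw_middle hy.symm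
    rw [List.length_map] at k1 k2
    refine ⟨((py U).length : ℤ) - (px U).length, 1 + (px U).length, by omega, by omega, ?_⟩
    apply fw_cols e k1
    rw [k2]
    congr 1
    ring
  have colY : ∀ (U V : List (Al Γ)) (e : List (Col Γ)), w = U ++ flY e ++ V →
      ∃ l s : ℤ, 1 ≤ s ∧ 1 ≤ s + l ∧ e = fw (fun t => (X t, X (t + l))) s e.length := by
    intro U V e hw'
    rw [hw', px_append, px_append, px_flY] at hx
    rw [hw', py_append, py_append, py_flY] at hy
    have k1 := fw_middle hx.symm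
    have k2 := fw_middle hy.symm
    rw [List.length_map] at k1 k2
    refine ⟨((px U).length : ℤ) - (py U).length, 1 + (py U).length, by omega, by omega, ?_⟩
    apply fw_cols e k2
    rw [k1]
    congr 1
    ring
  rcases hw with (⟨U, e, V, hw, f, hf, hm | hm⟩ | ⟨U, e, V, hw | hw, pat, hpat, hm⟩) |
    ⟨U, e, V, hw, he⟩
  · obtain ⟨x0, x1, x2, x3, h3, e0, e1, e2, e3⟩ := px_of_patX hm
    rw [hw, px_append, px_append, h3] at hx
    exact hf (four i _ _ x0 x1 x2 x3 f hx.symm e0 e1 e2 e3)
  · obtain ⟨x0, x1, x2, x3, h3, e0, e1, e2, e3⟩ := py_of_patY hm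
    rw [hw, py_append, py_append, h3] at hy
    exact hf (four j _ _ x0 x1 x2 x3 f hy.symm e0 e1 e2 e3)
  · obtain ⟨l, s, hs, hsl, he⟩ := colX U V e hw
    rw [he] at hm
    exact h1 pat hpat l s _ hs hsl (occ_of_mt _ pat s _ hm)
  · obtain ⟨l, s, hs, hsl, he⟩ := colY U V e hw
    rw [he] at hm
    exact h1 pat hpat l s _ hs hsl (occ_of_mt _ pat s _ hm)
  · obtain ⟨l, s, hs, hsl, he'⟩ := colX U V e hw
    rw [he'] at he
    exact h2 l s _ hs hsl he

end Pool.Agent.H81.Dec
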