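import Mathlib
import Pool.Agent.H81.Dec.Words
import Pool.Agent.H81.Dec.IdealThm

set_option autoImplicit false

/-!
# Absorption and compactness: avoiding pairs of bi-infinite words
-/

namespace Pool.Agent.H81.Dec

namespace Bridge2

/-! ### Generalities -/

/-- Extraction of a limit point of a sequence of bi-infinite words. -/
theorem exists_limit {A : Type} [Finite A] (c : ℕ → ℤ → A) :
    ∃ γ : ℤ → A, ∀ k : ℕ, ∃ n ≥ k, ∀ t : ℤ, |t| ≤ k → γ t = c n t := by
  let _ : TopologicalSpace A := ⊥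
  have _ : DiscreteTopology A := ⟨rfl⟩
  obtain ⟨γ, hγ⟩ := exists_clusterPt_of_compactSpace (Filter.map c Filter.atTop)
  refine ⟨γ, fun k => ?_⟩
  have hopen : IsOpen {g : ℤ → A | ∀ t ∈ Finset.Icc (-(k : ℤ)) k, g t = γ t} := by
    have : {g : ℤ → A | ∀ t ∈ Finset.Icc (-(k : ℤ)) k, g t = γ t} =
        ⋂ t ∈ Finset.Icc (-(k : ℤ)) k, (fun g : ℤ → A => g t) ⁻¹' {γ t} := by
      ext g
      simp
    rw [this]
    exact isOpen_biInter_finset fun t _ => (isOpen_discrete _).preimage (continuous_apply t)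
  have hmem : {g : ℤ → A | ∀ t ∈ Finset.Icc (-(k : ℤ)) k, g t = γ t} ∈ nhds γ :=
    hopen.mem_nhds fun t _ => rfl
  have hfreq := MapClusterPt.frequently (F := Filter.atTop) (u := c) (x := γ) hγ hmem
  obtain ⟨n, hn, h⟩ := hfreq.forall_exists_of_atTop k
  refine ⟨n, hn, fun t ht => ?_⟩
  rw [abs_le] at ht
  exact (h t (Finset.mem_Icc.2 ht)).symm

theorem fw_congr {A : Type} {c c' : ℤ → A} {s : ℤ} {n : ℕ}
    (h : ∀ t : ℤ, s ≤ t → t < s + n → c t = c' t) : fw c s n = fw c' s n := by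
  unfold fw
  apply List.map_congr_left
  intro t ht
  rw [List.mem_range] at ht
  exact h _ (by omega) (by omega)

theorem fw_map {A B : Type} (g : A → B) (c : ℤ → A) (s : ℤ) (n : ℕ) :
    (fw c s n).map g = fw (fun t => g (c t)) s n := by
  unfold fw
  rw [List.map_map]
  rfl

theorem fw_shift {A : Type} (c : ℤ → A) (l s : ℤ) (n : ℕ) :
    fw (fun t => c (t + l)) s n = fw c (s + l) n := by
  unfold fw
  apply List.map_congr_left
  intro t _
  change c (s + (t : ℤ) + l) = c (s + l + t)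
  rw [show s + (t : ℤ) + l = s + l + t by ring]

theorem exists_fw {A : Type} (u : List A) (s : ℤ) (n : ℕ) (h : n ≤ u.length) (hn : 0 < n) :
    ∃ f : ℤ → A, fw f s n = u.take n := by
  have hu : u ≠ [] := by
    rintro rfl
    simp at h
    omega
  refine ⟨fun t => u.getD (t - s).toNat (u.head hu), ?_⟩
  apply List.ext_getElem
  · rw [length_fw, List.length_take]
    omega
  · intro i h1 h2
    rw [length_fw] at h1
    simp only [fw, List.getElem_map, List.getElem_range, List.getElem_take]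
    rw [show (s + (i : ℤ) - s).toNat = i by omega]
    rw [List.getD_eq_getElem _ _ (by omega)]

section

variable {Γ : Type} [DecidableEq Γ] (T : Sys Γ) (N : ℕ)

theorem twoSided_KN' : TwoSided (KN T N) := by
  intro u w v hw
  rcases hw with hw | ⟨u', e, v', rfl, he⟩
  · left
    rcases hw with ⟨u', e, v', rfl, he⟩ | ⟨u', e, v', hw, he⟩
    · exact Or.inl ⟨u ++ u', e, v' ++ v, by simp, he⟩
    · right
      rcases hw with rfl | rfl
      · exact ⟨u ++ u', e, v' ++ v, Or.inl (by simp), he⟩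
      · exact ⟨u ++ u', e, v' ++ v, Or.inr (by simp), he⟩
  · right
    exact ⟨u ++ u', e, v' ++ v, by simp, he⟩

/-- No shuffle of `u` (first copy) and `v` (second copy) is in the language. -/
def NoSh (u v : List (Lt Γ)) : Prop :=
  ∀ w : List (Al Γ), Sh (u.map Sum.inl) (v.map Sum.inr) w → w ∉ KN T N

variable {T N}

theorem NoSh.factor {u1 u2 u3 v1 v2 v3 : List (Lt Γ)} (h : NoSh T N (u1 ++ u2 ++ u3) (v1 ++ v2 ++ v3)) :
    NoSh T N u2 v2 := by
  intro w hw hK
  have h1 := ((Sh.conc (u1.map Sum.inl) (v1.map Sum.inr : List (Al Γ))).append hw).append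
    (Sh.conc (u3.map Sum.inl) (v3.map Sum.inr : List (Al Γ)))
  refine h ((u1.map Sum.inl ++ v1.map Sum.inr) ++ w ++ (u3.map Sum.inl ++ v3.map Sum.inr)) ?_
    (twoSided_KN' T N _ w _ hK)
  simp only [List.map_append]
  exact h1

theorem fw_split3 {A : Type} (c : ℤ → A) {s s' : ℤ} {n n' : ℕ} (h1 : s ≤ s') (h2 : s' + n' ≤ s + n) :
    ∃ u v, fw c s n = u ++ fw c s' n' ++ v := by
  refine ⟨fw c s (s' - s).toNat, fw c (s' + n') (s + n - (s' + n')).toNat, ?_⟩
  have e1 : n = ((s' - s).toNat + n') + (s + n - (s' + n')).toNat := by omega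
  have e2 : s + ((s' - s).toNat : ℤ) = s' := by omega
  have e3 : s + (((s' - s).toNat + n' : ℕ) : ℤ) = s' + n' := by push_cast; omega
  conv_lhs => rw [e1]
  rw [fw_add, fw_add, e2, e3]

theorem NoSh.window {α β : ℤ → Lt Γ} {s s' t t' : ℤ} {n n' m m' : ℕ}
    (h : NoSh T N (fw α s n) (fw β t m)) (h1 : s ≤ s') (h2 : s' + n' ≤ s + n) (h3 : t ≤ t')
    (h4 : t' + m' ≤ t + m) : NoSh T N (fw α s' n') (fw β t' m') := by
  obtain ⟨u, v, e⟩ := fw_split3 α h1 h2
  obtain ⟨u', v', e'⟩ := fw_split3 β h3 h4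
  rw [e, e'] at h
  exact h.factor

omit [DecidableEq Γ] in
theorem sh_flX (e : List (Col Γ)) :
    Sh ((e.map Prod.fst).map Sum.inl) ((e.map Prod.snd).map Sum.inr) (flX e) := by
  induction e with
  | nil => exact .nil
  | cons c e ih => exact .left (.right ih)

omit [DecidableEq Γ] in
theorem sh_flY (e : List (Col Γ)) :
    Sh ((e.map Prod.snd).map Sum.inl) ((e.map Prod.fst).map Sum.inr) (flY e) := by
  induction e with
  | nil => exact .nil
  | cons c e ih => exact .right (.left ih)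

omit [DecidableEq Γ] in
theorem W4_congr {f g : Fin 4 → S} (h : ∀ i, f i = g i) : W4 0 f ↔ W4 0 g := by
  rw [show f = g from funext h]

theorem kfix_of_left {w : List (Al Γ)} {a b c d : Lt Γ}
    {u w1 w2 w3 v : List (Al Γ)}
    (hw : w = u ++ Sum.inl a :: (w1 ++ Sum.inl b :: (w2 ++ Sum.inl c :: (w3 ++ Sum.inl d :: v))))
    (h1 : ∀ x ∈ w1, x.isRight = true) (h2 : ∀ x ∈ w2, x.isRight = true)
    (h3 : ∀ x ∈ w3, x.isRight = true)
    (hf : ¬ W4 0 ![a.1, b.1, c.1, d.1]) : w ∈ Kfix T := by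
  left
  refine ⟨u, Sum.inl a :: (w1 ++ Sum.inl b :: (w2 ++ Sum.inl c :: (w3 ++ [Sum.inl d]))), v,
    by rw [hw]; simp, ![a.1, b.1, c.1, d.1], hf, Or.inl ?_⟩
  refine ⟨_, _, rfl, by simp, w1, _, rfl, h1, _, _, rfl, by simp, w2, _, rfl, h2,
    _, _, rfl, by simp, w3, _, rfl, h3, _, _, rfl, by simp, rfl⟩

theorem kfix_of_right {w : List (Al Γ)} {a b c d : Lt Γ}
    {u w1 w2 w3 v : List (Al Γ)}
    (hw : w = u ++ Sum.inr a :: (w1 ++ Sum.inr b :: (w2 ++ Sum.inr c :: (w3 ++ Sum.inr d :: v))))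
    (h1 : ∀ x ∈ w1, x.isLeft = true) (h2 : ∀ x ∈ w2, x.isLeft = true)
    (h3 : ∀ x ∈ w3, x.isLeft = true)
    (hf : ¬ W4 0 ![a.1, b.1, c.1, d.1]) : w ∈ Kfix T := by
  left
  refine ⟨u, Sum.inr a :: (w1 ++ Sum.inr b :: (w2 ++ Sum.inr c :: (w3 ++ [Sum.inr d]))), v,
    by rw [hw]; simp, ![a.1, b.1, c.1, d.1], hf, Or.inr ?_⟩
  refine ⟨_, _, rfl, by simp, w1, _, rfl, h1, _, _, rfl, by simp, w2, _, rfl, h2,
    _, _, rfl, by simp, w3, _, rfl, h3, _, _, rfl, by simp, rfl⟩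

/-- The avoidance conditions from the finite windows. -/
theorem av_of_windows {α β : ℤ → Lt Γ}
    (h : ∀ k : ℕ, NoSh T N (fw α (-k) (2 * k + 1)) (fw β (-k) (2 * k + 1))) :
    AvS α β ∧ AvS β α ∧ AvC T α β ∧ AvC T β α ∧ AvN T N α β := by
  have hwin : ∀ (s t : ℤ) (n m : ℕ), NoSh T N (fw α s n) (fw β t m) := by
    intro s t n m
    refine (h (s.natAbs + n + t.natAbs + m)).window ?_ ?_ ?_ ?_ <;> omega
  -- windows of labels
  have hl : ∀ t : ℤ, W4 0 fun i : Fin 4 => (α (t + (i : ℕ))).1 := by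
    intro t
    by_contra hcon
    have h1 := hwin t t 4 0
    refine h1 _ (Sh.conc _ _) (Or.inl ?_)
    refine kfix_of_left (u := []) (w1 := []) (w2 := []) (w3 := []) (v := [])
      (a := α t) (b := α (t + 1)) (c := α (t + 1 + 1)) (d := α (t + 1 + 1 + 1)) ?_ (by simp)
      (by simp) (by simp) ?_
    · simp [fw_succ, fw_zero]
    · rw [W4_congr (g := fun i : Fin 4 => (α (t + (i : ℕ))).1)]
      · exact hcon
      · intro i
        fin_cases i
        · simp
        · simp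
        · simp [add_assoc]
        · simp [add_assoc]
  have hr : ∀ t : ℤ, W4 0 fun i : Fin 4 => (β (t + (i : ℕ))).1 := by
    intro t
    by_contra hcon
    have h1 := hwin t t 0 4
    refine h1 _ (Sh.conc _ _) (Or.inl ?_)
    refine kfix_of_right (u := []) (w1 := []) (w2 := []) (w3 := []) (v := [])
      (a := β t) (b := β (t + 1)) (c := β (t + 1 + 1)) (d := β (t + 1 + 1 + 1)) ?_ (by simp)
      (by simp) (by simp) ?_
    · simp [fw_succ, fw_zero]
    · rw [W4_congr (g := fun i : Fin 4 => (β (t + (i : ℕ))).1)]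
      · exact hcon
      · intro i
        fin_cases i
        · simp
        · simp
        · simp [add_assoc]
        · simp [add_assoc]
  -- columns
  have hX : ∀ (l s : ℤ) (n : ℕ), flX (fw (fun t => (α t, β (t + l))) s n) ∉ KN T N := by
    intro l s n
    refine hwin s (s + l) n n _ ?_
    have := sh_flX (fw (fun t => (α t, β (t + l))) s n)
    rw [fw_map Prod.fst, fw_map Prod.snd] at this
    rw [← fw_shift β l s n]
    exact this
  have hY : ∀ (l s : ℤ) (n : ℕ), flY (fw (fun t => (β t, α (t + l))) s n) ∉ KN T N := by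
    intro l s n
    refine hwin (s + l) s n n _ ?_
    have := sh_flY (fw (fun t => (β t, α (t + l))) s n)
    rw [fw_map Prod.fst, fw_map Prod.snd] at this
    rw [← fw_shift α l s n]
    exact this
  have hoX : ∀ pat ∈ SP Γ ∪ CP T, ∀ l s e : ℤ, ¬ Occ (fun t => (α t, β (t + l))) pat s e := by
    intro pat hp l s e ho
    obtain ⟨-, hm⟩ := mt_of_occ _ pat s e ho
    exact hX l s (e - s).toNat (Or.inl (Or.inr ⟨[], _, [], Or.inl (by simp), pat, hp, hm⟩))
  have hoY : ∀ pat ∈ SP Γ ∪ CP T, ∀ l s e : ℤ, ¬ Occ (fun t => (β t, α (t + l))) pat s e := by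
    intro pat hp l s e ho
    obtain ⟨-, hm⟩ := mt_of_occ _ pat s e ho
    exact hY l s (e - s).toNat (Or.inl (Or.inr ⟨[], _, [], Or.inr (by simp), pat, hp, hm⟩))
  refine ⟨⟨hl, fun pat hp => hoX pat (Or.inl hp)⟩, ⟨hr, fun pat hp => hoY pat (Or.inl hp)⟩,
    fun pat hp => hoX pat (Or.inr hp), fun pat hp => hoY pat (Or.inr hp), ?_⟩
  intro l s n he
  exact hX l s n (Or.inr ⟨[], _, [], by simp, he⟩)

/-- The limit lemma. -/
theorem limit [Finite Γ] (αn βn : ℕ → ℤ → Lt Γ)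
    (h : ∀ n : ℕ, NoSh T N (fw (αn n) (-n) (2 * n + 1)) (fw (βn n) (-n) (2 * n + 1))) :
    ∃ α β : ℤ → Lt Γ, (AvS α β ∧ AvS β α ∧ AvC T α β ∧ AvC T β α ∧ AvN T N α β) ∧
      ∀ k : ℕ, ∃ n ≥ k, ∀ t : ℤ, |t| ≤ k → α t = αn n t ∧ β t = βn n t := by
  obtain ⟨γ, hγ⟩ := exists_limit (A := Lt Γ × Lt Γ) fun n t => (αn n t, βn n t)
  refine ⟨fun t => (γ t).1, fun t => (γ t).2, av_of_windows fun k => ?_, fun k => ?_⟩
  · obtain ⟨n, hn, ht⟩ := hγ k
    have h1 : NoSh T N (fw (αn n) (-k) (2 * k + 1)) (fw (βn n) (-k) (2 * k + 1)) := by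
      refine (h n).window ?_ ?_ ?_ ?_ <;> push_cast <;> omega
    rw [fw_congr (c := fun t => (γ t).1) (c' := αn n), fw_congr (c := fun t => (γ t).2) (c' := βn n)]
    · exact h1
    · intro t h2 h3
      push_cast at h3
      rw [ht t (abs_le.2 ⟨by omega, by omega⟩)]
    · intro t h2 h3
      push_cast at h3
      rw [ht t (abs_le.2 ⟨by omega, by omega⟩)]
  · obtain ⟨n, hn, ht⟩ := hγ k
    refine ⟨n, hn, fun t hk => ?_⟩
    have := ht t hk
    simp only [this, and_self]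

/-! ### Absorption -/

theorem w4_left {w : List (Al Γ)} (hw : w ∉ Kfix T) {p q : List (Lt Γ)} {a b c d : Lt Γ}
    (h : w.filterMap Sum.getLeft? = p ++ a :: b :: c :: d :: q) : W4 0 ![a.1, b.1, c.1, d.1] := by
  by_contra hcon
  apply hw
  obtain ⟨u, w', rfl, -, h1⟩ := List.filterMap_eq_append_iff.1 h
  obtain ⟨w0, x0, w'', rfl, h2, hx0, h3⟩ := List.filterMap_eq_cons_iff.1 h1
  obtain ⟨w1, x1, w''', rfl, h4, hx1, h5⟩ := List.filterMap_eq_cons_iff.1 h3
  obtain ⟨w2, x2, w4, rfl, h6, hx2, h7⟩ := List.filterMap_eq_cons_iff.1 h5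
  obtain ⟨w3, x3, v, rfl, h8, hx3, h9⟩ := List.filterMap_eq_cons_iff.1 h7
  rw [Sum.getLeft?_eq_some_iff] at hx0 hx1 hx2 hx3
  subst hx0 hx1 hx2 hx3
  refine kfix_of_left (u := u ++ w0) (w1 := w1) (w2 := w2) (w3 := w3) (v := v) ?_ ?_ ?_ ?_ hcon
  · simp
  · intro x hx
    exact Sum.getLeft?_eq_none_iff.1 (h4 x hx)
  · intro x hx
    exact Sum.getLeft?_eq_none_iff.1 (h6 x hx)
  · intro x hx
    exact Sum.getLeft?_eq_none_iff.1 (h8 x hx)

theorem w4_right {w : List (Al Γ)} (hw : w ∉ Kfix T) {p q : List (Lt Γ)} {a b c d : Lt Γ}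
    (h : w.filterMap Sum.getRight? = p ++ a :: b :: c :: d :: q) : W4 0 ![a.1, b.1, c.1, d.1] := by
  by_contra hcon
  apply hw
  obtain ⟨u, w', rfl, -, h1⟩ := List.filterMap_eq_append_iff.1 h
  obtain ⟨w0, x0, w'', rfl, h2, hx0, h3⟩ := List.filterMap_eq_cons_iff.1 h1
  obtain ⟨w1, x1, w''', rfl, h4, hx1, h5⟩ := List.filterMap_eq_cons_iff.1 h3
  obtain ⟨w2, x2, w4, rfl, h6, hx2, h7⟩ := List.filterMap_eq_cons_iff.1 h5
  obtain ⟨w3, x3, v, rfl, h8, hx3, h9⟩ := List.filterMap_eq_cons_iff.1 h7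
  rw [Sum.getRight?_eq_some_iff] at hx0 hx1 hx2 hx3
  subst hx0 hx1 hx2 hx3
  refine kfix_of_right (u := u ++ w0) (w1 := w1) (w2 := w2) (w3 := w3) (v := v) ?_ ?_ ?_ ?_ hcon
  · simp
  · intro x hx
    exact Sum.getRight?_eq_none_iff.1 (h4 x hx)
  · intro x hx
    exact Sum.getRight?_eq_none_iff.1 (h6 x hx)
  · intro x hx
    exact Sum.getRight?_eq_none_iff.1 (h8 x hx)

end

theorem n12 : lab 0 1 ≠ lab 0 2 := by decide
theorem n13 : lab 0 1 ≠ lab 0 3 := by decide
theorem n23 : lab 0 2 ≠ lab 0 3 := by decide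

theorem w4_key {x y z w : S} (h : W4 0 ![x, y, z, w]) :
      (y = lab 0 1 ∧ z = lab 0 2 ∧ w = lab 0 3) ∨ (x = lab 0 1 ∧ y = lab 0 2 ∧ z = lab 0 3) ∨
      (x = lab 0 2 ∧ y = lab 0 3 ∧ w = lab 0 1) ∨ (x = lab 0 3 ∧ z = lab 0 1 ∧ w = lab 0 2) := by
  obtain ⟨φ, h⟩ := h
  have h0 := h 0
  have h1 := h 1
  have h2 := h 2
  have h3 := h 3
  fin_cases φ
  · exact Or.inl ⟨(h1 (by decide)).trans (by decide), (h2 (by decide)).trans (by decide),
      (h3 (by decide)).trans (by decide)⟩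
  · exact Or.inr (Or.inl ⟨(h0 (by decide)).trans (by decide), (h1 (by decide)).trans (by decide),
      (h2 (by decide)).trans (by decide)⟩)
  · exact Or.inr (Or.inr (Or.inl ⟨(h0 (by decide)).trans (by decide),
      (h1 (by decide)).trans (by decide), (h3 (by decide)).trans (by decide)⟩))
  · exact Or.inr (Or.inr (Or.inr ⟨(h0 (by decide)).trans (by decide),
      (h2 (by decide)).trans (by decide), (h3 (by decide)).trans (by decide)⟩))

/-- Six labels with correct windows contain `1, 2, 3`. -/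
theorem find123 {a b c d e f : S} (h0 : W4 0 ![a, b, c, d]) (h1 : W4 0 ![b, c, d, e])
    (h2 : W4 0 ![c, d, e, f]) :
    (a = lab 0 1 ∧ b = lab 0 2 ∧ c = lab 0 3) ∨
    (b = lab 0 1 ∧ c = lab 0 2 ∧ d = lab 0 3) ∨
    (c = lab 0 1 ∧ d = lab 0 2 ∧ e = lab 0 3) ∨
    (d = lab 0 1 ∧ e = lab 0 2 ∧ f = lab 0 3) := by
  rcases w4_key h0 with ⟨p1, p2, p3⟩ | ⟨p1, p2, p3⟩ | ⟨p1, p2, p3⟩ | ⟨p1, p2, p3⟩
  · exact Or.inr (Or.inl ⟨p1, p2, p3⟩)
  · exact Or.inl ⟨p1, p2, p3⟩
  · subst p1 p2 p3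
    rcases w4_key h1 with ⟨q1, q2, q3⟩ | ⟨q1, q2, q3⟩ | ⟨q1, q2, q3⟩ | ⟨q1, q2, q3⟩
    · exact absurd q2 n12
    · exact absurd q1.symm n13
    · exact absurd q1.symm n23
    · subst q3
      rcases w4_key h2 with ⟨r1, r2, r3⟩ | ⟨r1, r2, r3⟩ | ⟨r1, r2, r3⟩ | ⟨r1, r2, r3⟩
      · exact Or.inr (Or.inr (Or.inr ⟨rfl, rfl, r3⟩))
      · exact absurd r2 n12
      · exact absurd r2 n13
      · exact absurd r2.symm n12
  · subst p1 p2 p3
    rcases w4_key h1 with ⟨q1, q2, q3⟩ | ⟨q1, q2, q3⟩ | ⟨q1, q2, q3⟩ | ⟨q1, q2, q3⟩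
    · exact Or.inr (Or.inr (Or.inl ⟨rfl, rfl, q3⟩))
    · exact absurd q2 n12
    · exact absurd q2 n13
    · exact absurd q2.symm n12

/-- A letter of the other word cannot be inserted. -/
theorem absorb {A : Type} (π : A → Option S) (K : Set (List A))
    (hW : ∀ w ∉ K, ∀ (p q : List S) (a b c d : S), w.filterMap π = p ++ a :: b :: c :: d :: q →
      W4 0 ![a, b, c, d]) (u v : List A) (hNo : ∀ w, Sh u v w → w ∉ K)
    (h6 : 6 ≤ (u.filterMap π).length) : v.filterMap π = [] := by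
  rcases hv : v.filterMap π with _ | ⟨z, r⟩
  · rfl
  exfalso
  obtain ⟨a, b, c, d, e, f, u', hu⟩ : ∃ a b c d e f u', u.filterMap π = a :: b :: c :: d :: e :: f :: u' := by
    generalize u.filterMap π = U at h6
    match U, h6 with
    | a :: b :: c :: d :: e :: f :: u', _ => exact ⟨_, _, _, _, _, _, _, rfl⟩
  have huv : (u ++ v).filterMap π = a :: b :: c :: d :: e :: f :: (u' ++ z :: r) := by
    rw [List.filterMap_append, hu, hv]
    rfl
  have h0 := hW _ (hNo _ (Sh.conc u v)) [] (e :: f :: (u' ++ z :: r)) a b c d huv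
  have h1 := hW _ (hNo _ (Sh.conc u v)) [a] (f :: (u' ++ z :: r)) b c d e huv
  have h2 := hW _ (hNo _ (Sh.conc u v)) [a, b] (u' ++ z :: r) c d e f huv
  -- insertion
  have ins : ∀ (p : List S) (q : List S), u.filterMap π = p ++ lab 0 1 :: lab 0 2 :: lab 0 3 :: q → False := by
    intro p q hpq
    obtain ⟨v1, v2, rfl, hv1, hv2⟩ : ∃ v1 v2, v = v1 ++ v2 ∧ v1.filterMap π = [z] ∧
        v2.filterMap π = r := by
      obtain ⟨v1, v2, h3, h4, h5⟩ := List.filterMap_eq_append_iff.1 (show v.filterMap π = [z] ++ r from hv)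
      exact ⟨v1, v2, h3, h4, h5⟩
    have hA : W4 0 ![lab 0 1, z, lab 0 2, lab 0 3] := by
      obtain ⟨u1, u2, rfl, hu1, hu2⟩ := List.filterMap_eq_append_iff.1
        (show u.filterMap π = (p ++ [lab 0 1]) ++ lab 0 2 :: lab 0 3 :: q by rw [hpq]; simp)
      have hs : Sh (u1 ++ u2) (v1 ++ v2) ((u1 ++ v1) ++ (u2 ++ v2)) := (Sh.conc u1 v1).append (Sh.conc u2 v2)
      refine hW _ (hNo _ hs) p (q ++ r) _ _ _ _ ?_
      simp only [List.filterMap_append, hu1, hu2, hv1, hv2]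
      simp
    have hB : W4 0 ![lab 0 1, lab 0 2, z, lab 0 3] := by
      obtain ⟨u1, u2, rfl, hu1, hu2⟩ := List.filterMap_eq_append_iff.1
        (show u.filterMap π = (p ++ [lab 0 1, lab 0 2]) ++ lab 0 3 :: q by rw [hpq]; simp)
      have hs : Sh (u1 ++ u2) (v1 ++ v2) ((u1 ++ v1) ++ (u2 ++ v2)) := (Sh.conc u1 v1).append (Sh.conc u2 v2)
      refine hW _ (hNo _ hs) p (q ++ r) _ _ _ _ ?_
      simp only [List.filterMap_append, hu1, hu2, hv1, hv2]
      simp
    rcases w4_key hA with ⟨e1, -, -⟩ | ⟨-, -, e1⟩ | ⟨e1, -, -⟩ | ⟨e1, -, -⟩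
    · rcases w4_key hB with ⟨e2, -, -⟩ | ⟨-, -, e2⟩ | ⟨e2, -, -⟩ | ⟨e2, -, -⟩
      · exact n12 e2.symm
      · exact n13 (e1.symm.trans e2)
      · exact n12 e2
      · exact n13 e2
    · exact n23 e1
    · exact n12 e1
    · exact n13 e1
  rcases find123 h0 h1 h2 with ⟨rfl, rfl, rfl⟩ | ⟨rfl, rfl, rfl⟩ | ⟨rfl, rfl, rfl⟩ | ⟨rfl, rfl, rfl⟩
  · exact ins [] _ hu
  · exact ins [a] _ hu
  · exact ins [a, b] _ hu
  · exact ins [a, b, c] _ hu

section

variable {Γ : Type}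

theorem eq_map_inr {w : List (Al Γ)} (h : w.filterMap Sum.getLeft? = []) :
    ∃ v : List (Lt Γ), w = v.map Sum.inr := by
  induction w with
  | nil => exact ⟨[], rfl⟩
  | cons a w ih =>
    rcases a with a | a
    · simp at h
    · obtain ⟨v, rfl⟩ := ih (by simpa using h)
      exact ⟨a :: v, rfl⟩

theorem eq_map_inl {w : List (Al Γ)} (h : w.filterMap Sum.getRight? = []) :
    ∃ v : List (Lt Γ), w = v.map Sum.inl := by
  induction w with
  | nil => exact ⟨[], rfl⟩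
  | cons a w ih =>
    rcases a with a | a
    · obtain ⟨v, rfl⟩ := ih (by simpa using h)
      exact ⟨a :: v, rfl⟩
    · simp at h

theorem length_add (w : List (Al Γ)) :
    (w.filterMap Sum.getLeft?).length + (w.filterMap Sum.getRight?).length = w.length := by
  induction w with
  | nil => rfl
  | cons a w ih =>
    rcases a with a | a
    · simp only [List.filterMap_cons, Sum.getLeft?_inl, Sum.getRight?_inl, List.length_cons]
      omega
    · simp only [List.filterMap_cons, Sum.getLeft?_inr, Sum.getRight?_inr, List.length_cons]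
      omega

theorem map_split {l : List (Lt Γ)} {p q : List S} {a b c d : S}
    (h : l.map Prod.fst = p ++ a :: b :: c :: d :: q) :
    ∃ (p' q' : List (Lt Γ)) (a' b' c' d' : Lt Γ), l = p' ++ a' :: b' :: c' :: d' :: q' ∧
      a'.1 = a ∧ b'.1 = b ∧ c'.1 = c ∧ d'.1 = d := by
  obtain ⟨p', l1, rfl, -, h1⟩ := List.map_eq_append_iff.1 h
  obtain ⟨a', l2, rfl, ha, h2⟩ := List.map_eq_cons_iff.1 h1
  obtain ⟨b', l3, rfl, hb, h3⟩ := List.map_eq_cons_iff.1 h2
  obtain ⟨c', l4, rfl, hc, h4⟩ := List.map_eq_cons_iff.1 h3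
  obtain ⟨d', l5, rfl, hd, h5⟩ := List.map_eq_cons_iff.1 h4
  exact ⟨p', l5, a', b', c', d', rfl, ha, hb, hc, hd⟩

variable [DecidableEq Γ] {T : Sys Γ} {N : ℕ}

theorem absorb_left (u v : List (Al Γ)) (hNo : ∀ w, Sh u v w → w ∉ KN T N)
    (h6 : 6 ≤ (u.filterMap Sum.getLeft?).length) : v.filterMap Sum.getLeft? = [] := by
  have := absorb (fun a : Al Γ => (Sum.getLeft? a).map Prod.fst) (KN T N) ?_ u v hNo ?_
  · rw [← List.map_filterMap, List.map_eq_nil_iff] at this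
    exact this
  · intro w hw p q a b c d h
    rw [← List.map_filterMap] at h
    obtain ⟨p', q', a', b', c', d', h1, rfl, rfl, rfl, rfl⟩ := map_split h
    exact w4_left (fun h => hw (Or.inl h)) h1
  · rw [← List.map_filterMap, List.length_map]
    exact h6

theorem absorb_right (u v : List (Al Γ)) (hNo : ∀ w, Sh u v w → w ∉ KN T N)
    (h6 : 6 ≤ (u.filterMap Sum.getRight?).length) : v.filterMap Sum.getRight? = [] := by
  have := absorb (fun a : Al Γ => (Sum.getRight? a).map Prod.fst) (KN T N) ?_ u v hNo ?_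
  · rw [← List.map_filterMap, List.map_eq_nil_iff] at this
    exact this
  · intro w hw p q a b c d h
    rw [← List.map_filterMap] at h
    obtain ⟨p', q', a', b', c', d', h1, rfl, rfl, rfl, rfl⟩ := map_split h
    exact w4_right (fun h => hw (Or.inl h)) h1
  · rw [← List.map_filterMap, List.length_map]
    exact h6

theorem two_sorts {u v : List (Al Γ)} (hNo : ∀ w, Sh u v w → w ∉ KN T N) {M : ℕ} (hM : 12 ≤ M)
    (hu : M ≤ u.length) (hv : M ≤ v.length) :
    ∃ u' v' : List (Lt Γ), NoSh T N u' v' ∧ M ≤ u'.length ∧ M ≤ v'.length := by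
  have hNo' : ∀ w, Sh v u w → w ∉ KN T N := fun w hw => hNo w hw.symm
  have hlu := length_add u
  have hlv := length_add v
  by_cases h6 : 6 ≤ (u.filterMap Sum.getLeft?).length
  · have h1 := absorb_left u v hNo h6
    have h2 : 6 ≤ (v.filterMap Sum.getRight?).length := by
      rw [h1, List.length_nil] at hlv
      omega
    have h3 := absorb_right v u hNo' h2
    obtain ⟨v', rfl⟩ := eq_map_inr h1
    obtain ⟨u', rfl⟩ := eq_map_inl h3
    exact ⟨u', v', hNo, by simpa using hu, by simpa using hv⟩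
  · have h6' : 6 ≤ (u.filterMap Sum.getRight?).length := by omega
    have h1 := absorb_right u v hNo h6'
    have h2 : 6 ≤ (v.filterMap Sum.getLeft?).length := by
      rw [h1, List.length_nil] at hlv
      omega
    have h3 := absorb_left v u hNo' h2
    obtain ⟨v', rfl⟩ := eq_map_inl h1
    obtain ⟨u', rfl⟩ := eq_map_inr h3
    exact ⟨v', u', hNo', by simpa using hv, by simpa using hu⟩

end

end Bridge2

open Bridge2 in
theorem pair_of_not_mortal {Γ : Type} [Fintype Γ] [DecidableEq Γ] (T : Sys Γ) (N : ℕ)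
    (h : ¬ ∃ M : ℕ, ∀ u v : List (Al Γ), M ≤ u.length → M ≤ v.length → ∃ w ∈ KN T N, Sh u v w) :
    ∃ α β : ℤ → Lt Γ, AvS α β ∧ AvS β α ∧ AvC T α β ∧ AvC T β α ∧ AvN T N α β := by
  have h1 : ∀ n : ℕ, ∃ ab : (ℤ → Lt Γ) × (ℤ → Lt Γ),
      NoSh T N (fw ab.1 (-n) (2 * n + 1)) (fw ab.2 (-n) (2 * n + 1)) := by
    intro n
    by_contra hcon
    apply h
    refine ⟨12 + (2 * n + 1), fun u v hu hv => ?_⟩
    by_contra hno
    apply hcon
    obtain ⟨u', v', h2, h3, h4⟩ := two_sorts (T := T) (N := N) (u := u) (v := v)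
      (fun w hw hK => hno ⟨w, hK, hw⟩) (M := 12 + (2 * n + 1)) (by omega) hu hv
    obtain ⟨a, ha⟩ := exists_fw u' (-n) (2 * n + 1) (by omega) (by omega)
    obtain ⟨b, hb⟩ := exists_fw v' (-n) (2 * n + 1) (by omega) (by omega)
    refine ⟨(a, b), ?_⟩
    simp only [ha, hb]
    refine NoSh.factor (u1 := []) (v1 := []) (u3 := u'.drop (2 * n + 1)) (v3 := v'.drop (2 * n + 1)) ?_
    simpa using h2
  choose ab hab using h1
  obtain ⟨α, β, h2, -⟩ := limit (fun n => (ab n).1) (fun n => (ab n).2) hab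
  exact ⟨α, β, h2⟩

open Bridge2 in
theorem pair_of_periodic {Γ : Type} [Fintype Γ] [DecidableEq Γ] (T : Sys Γ) (N : ℕ) (x y : ℕ → Lt Γ)
    (i P : ℕ) (hP : 0 < P)
    (h : ∀ (n j : ℕ) (w : List (Al Γ)),
      Sh ((List.range n).map fun t : ℕ => (Sum.inl (x (i + t % P)) : Al Γ))
        ((List.range j).map fun t : ℕ => (Sum.inr (y t) : Al Γ)) w → w ∉ KN T N) :
    ∃ α β : ℤ → Lt Γ, AvS α β ∧ AvS β α ∧ ∀ t : ℤ, α (t + P) = α t := by
  have hyp : ∀ n : ℕ, NoSh T N
      (fw ((fun (n : ℕ) (t : ℤ) => x (i + ((t + n) % P).toNat)) n) (-n) (2 * n + 1))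
      (fw ((fun (n : ℕ) (t : ℤ) => y (t + n).toNat) n) (-n) (2 * n + 1)) := by
    intro n w hw
    refine h (2 * n + 1) (2 * n + 1) w ?_
    have e1 : (fw (fun t : ℤ => x (i + ((t + n) % P).toNat)) (-n) (2 * n + 1)).map Sum.inl =
        (List.range (2 * n + 1)).map fun t : ℕ => (Sum.inl (x (i + t % P)) : Al Γ) := by
      rw [fw, List.map_map]
      apply List.map_congr_left
      intro t _
      simp only [Function.comp]
      rw [show (-(n : ℤ) + t + n) = t by ring]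
      norm_cast
    have e2 : (fw (fun t : ℤ => y (t + n).toNat) (-n) (2 * n + 1)).map Sum.inr =
        (List.range (2 * n + 1)).map fun t : ℕ => (Sum.inr (y t) : Al Γ) := by
      rw [fw, List.map_map]
      apply List.map_congr_left
      intro t _
      simp only [Function.comp]
      rw [show (-(n : ℤ) + t + n) = t by ring]
      norm_cast
    rw [← e1, ← e2]
    exact hw
  obtain ⟨α, β, h2, h3⟩ := limit (T := T) (N := N) _ _ hyp
  refine ⟨α, β, h2.1, h2.2.1, fun t => ?_⟩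
  obtain ⟨n, -, hn⟩ := h3 (t.natAbs + P)
  rw [(hn (t + P) (abs_le.2 ⟨by omega, by omega⟩)).1, (hn t (abs_le.2 ⟨by omega, by omega⟩)).1]
  rw [show t + (P : ℤ) + n = t + n + P by ring, Int.add_emod_right]

end Pool.Agent.H81.Dec
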