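import Mathlib
import Pool.Agent.H81.Dec.Defs

set_option autoImplicit false

/-!
# Finite automata with one saturating counter, depending on a bound `N`
-/

namespace Pool.Agent.H81.Dec

/-- A finite automaton with one counter. The counter takes values in `0, ..., N + 1`; a transition
sees the comparison of the counter with `N`, and keeps (`none`), resets (`some false`) or increments
(`some true`, saturating at `N + 1`) the counter. -/
structure CA (Q A : Type) where
  q0 : Q
  step : Q → A → Ordering → Q
  act : Q → A → Ordering → Option Bool
  acc : Q → Bool

/-- Action on the counter. -/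
def actC (N : ℕ) : Option Bool → ℕ → ℕ
  | none, i => i
  | some false, _ => 0
  | some true, i => min (i + 1) (N + 1)

variable {Q A : Type}

/-- One step. -/
def CA.next (M : CA Q A) (N : ℕ) (c : Q × ℕ) (a : A) : Q × ℕ :=
  (M.step c.1 a (compare c.2 N), actC N (M.act c.1 a (compare c.2 N)) c.2)

/-- State after reading a word. -/
def CA.run (M : CA Q A) (N : ℕ) (w : List A) : Q × ℕ := w.foldl (M.next N) (M.q0, 0)

/-- Acceptance. -/
def CA.Accepts (M : CA Q A) (N : ℕ) (w : List A) : Prop := M.acc (M.run N w).1 = true

/-- The language recognised by a list code (format of the frozen statement). -/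
def CodeAcc {k : ℕ} (c : List (List ℕ) × List ℕ) (w : List (Fin k)) : Prop :=
  w.foldl (fun q a => (c.1.getD q []).getD (a : ℕ) 0) 0 ∈ c.2

end Pool.Agent.H81.Dec
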