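import Mathlib
import Pool.Agent.H81.Dec.Defs

set_option autoImplicit false

/-!
# Stack machines and the row system of a stack machine
-/

namespace Pool.Agent.H81.Dec

/-- Operations on one stack. -/
inductive Op (G : Type)
  | keep
  | pop
  | push (g : G)
  deriving DecidableEq

/-- Effect of an operation on a stack (the top is the head of the list). -/
def Op.app {G : Type} : Op G → List G → List G
  | .keep, l => l
  | .pop, l => l.tail
  | .push g, l => g :: l

/-- A machine with states `Q` and stacks `K` over the stack alphabet `G`; the transition sees the
state and the tops of all stacks, and `none` means halting. -/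
structure SM (Q K G : Type) where
  δ : Q → (K → Option G) → Option (Q × (K → Op G))

variable {Q K G : Type}

/-- One step. -/
def SM.step (M : SM Q K G) (c : Q × (K → List G)) : Option (Q × (K → List G)) :=
  (M.δ c.1 fun k => (c.2 k).head?).map fun r => (r.1, fun k => (r.2 k).app (c.2 k))

/-- `t` steps; `none` if the machine has halted. -/
def SM.iter (M : SM Q K G) (c : Q × (K → List G)) (t : ℕ) : Option (Q × (K → List G)) :=
  (fun o => Option.bind o M.step)^[t] (some c)

/-- Initial configuration: the word `g1 g2 g1 g2 ...` of length `L` on the stack `k0`. -/
def initC [DecidableEq K] (q0 : Q) (k0 : K) (g1 g2 : G) (L : ℕ) : Q × (K → List G) :=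
  (q0, fun k => if k = k0 then (List.range L).map (fun i => if i % 2 = 0 then g1 else g2) else [])

/-- Contents of cells: phase, header (state and tops of the stacks), and the entries of the
stacks at this height. -/
abbrev Cell (Q K G : Type) := Bool × (Q × (K → Option G)) × (K → Option G)

/-- Requirement on the first cell of the new row, for one stack. -/
def okStart [DecidableEq G] : Op G → Option G → Option G → Bool
  | .keep, b, a => decide (a = b)
  | .pop, _, _ => true
  | .push g, _, a => decide (a = some g)

/-- Requirement on neighbouring cells, for one stack. -/
def okLoc [DecidableEq G] : Op G → Option G → Option G → Option G → Option G → Bool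
  | .keep, _, _, b', a' => decide (a' = b')
  | .pop, _, a, b', _ => decide (a = b')
  | .push _, b, _, _, a' => decide (a' = b)

/-- Requirement on the last cell of the old row and the last two cells of the new row. -/
def okLast [DecidableEq G] : Op G → Option G → Option G → Option G → Bool
  | .keep, _, _, a' => decide (a' = none)
  | .pop, _, a, a' => decide (a = none) && decide (a' = none)
  | .push _, b, _, a' => decide (a' = b)

section sys

variable [DecidableEq Q] [DecidableEq K] [Fintype K] [DecidableEq G]

/-- The row system of a machine. Rows of the first phase contain `g1 g2 g1 g2 ...` on the stack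
`k0`; rows of the second phase are configurations. -/
def sysOf (M : SM Q K G) (q0 : Q) (k0 : K) (g1 g2 : G) : Sys (Cell Q K G) where
  seed a := (a.1 == false) && decide (a.2.2 = fun k => if k = k0 then some g1 else none)
  start b a :=
    if a.1 = false then
      (b.1 == false) && decide (a.2.2 = fun k => if k = k0 then some g1 else none)
    else
      decide (a.2.1.2 = a.2.2) &&
      (if b.1 = false then decide (a.2.1.1 = q0) && decide (a.2.2 = b.2.2)
       else match M.δ b.2.1.1 b.2.1.2 with
        | none => false
        | some r => decide (a.2.1.1 = r.1) &&
            decide (∀ k, okStart (r.2 k) (b.2.2 k) (a.2.2 k) = true))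
  loc b a b' a' :=
    (a'.1 == a.1) && decide (a'.2.1 = a.2.1) &&
    (if a.1 = false then
      decide (a'.2.2 = fun k => if k = k0 then
        (if a.2.2 k0 = some g1 then some g2 else some g1) else none)
     else
      (if b.1 = false then decide (a'.2.2 = b'.2.2)
       else match M.δ b.2.1.1 b.2.1.2 with
        | none => false
        | some r => decide (∀ k, okLoc (r.2 k) (b.2.2 k) (a.2.2 k) (b'.2.2 k) (a'.2.2 k) = true)))
  last b a a' :=
    (a'.1 == a.1) && decide (a'.2.1 = a.2.1) &&
    (if a.1 = false then
      decide (a'.2.2 = fun k => if k = k0 then
        (if a.2.2 k0 = some g1 then some g2 else some g1) else none)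
     else
      (if b.1 = false then decide (a'.2.2 = fun _ => none)
       else match M.δ b.2.1.1 b.2.1.2 with
        | none => false
        | some r => decide (∀ k, okLast (r.2 k) (b.2.2 k) (a.2.2 k) (a'.2.2 k) = true)))
  run a := a.1

end sys

end Pool.Agent.H81.Dec
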