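import Mathlib
import Pool.Agent.H81.Dec.Machine

set_option autoImplicit false
set_option linter.unusedSectionVars false

/-!
# Chains of rows and non-halting computations
-/

namespace Pool.Agent.H81.Dec

namespace ChainThm

section ops

variable {G : Type} [DecidableEq G]

theorem ok_iff (op : Op G) (l : List G) (m : ℕ) (hl : l.length < m) (a : ℕ → Option G) :
    (okStart op l[0]? (a 0) = true ∧
      (∀ p, p + 1 < m → okLoc op l[p]? (a p) l[p + 1]? (a (p + 1)) = true) ∧
      okLast op l[m - 1]? (a (m - 1)) (a m) = true) ↔ ∀ p, p < m + 1 → a p = (op.app l)[p]? := by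
  have hm : 0 < m := by omega
  have hnone : ∀ q, m ≤ q + 1 → l[q + 1]? = none := by
    intro q hq
    rw [List.getElem?_eq_none_iff]
    omega
  cases op with
  | keep =>
    simp only [okStart, okLoc, okLast, Op.app, decide_eq_true_eq]
    constructor
    · rintro ⟨h1, h2, h3⟩ p hp
      rcases Nat.eq_zero_or_pos p with h | h
      · rw [h, h1]
      · obtain ⟨q, rfl⟩ : ∃ q, p = q + 1 := ⟨p - 1, by omega⟩
        rcases Nat.lt_or_ge (q + 1) m with h4 | h4
        · exact h2 q h4
        · have h5 : q + 1 = m := by omega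
          rw [hnone q (by omega), h5, h3]
    · intro h
      refine ⟨h 0 (by omega), fun p hp => h (p + 1) (by omega), ?_⟩
      rw [h m (by omega)]
      have := hnone (m - 1) (by omega)
      rwa [Nat.sub_add_cancel hm] at this
  | pop =>
    simp only [okStart, okLoc, okLast, Op.app, decide_eq_true_eq, Bool.and_eq_true,
      List.getElem?_tail, true_and]
    constructor
    · rintro ⟨h2, h3, h4⟩ p hp
      rcases Nat.lt_or_ge (p + 1) m with h5 | h5
      · exact h2 p h5
      · rw [hnone p (by omega)]
        rcases Nat.lt_or_ge p m with h6 | h6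
        · have h7 : p = m - 1 := by omega
          rw [h7, h3]
        · have h7 : p = m := by omega
          rw [h7, h4]
    · intro h
      refine ⟨fun p hp => h p (by omega), ?_, ?_⟩
      · rw [h (m - 1) (by omega)]
        exact hnone _ (by omega)
      · rw [h m (by omega)]
        exact hnone _ (by omega)
  | push g =>
    simp only [okStart, okLoc, okLast, Op.app, decide_eq_true_eq]
    constructor
    · rintro ⟨h1, h2, h3⟩ p hp
      rcases Nat.eq_zero_or_pos p with h | h
      · rw [h, h1]
        rfl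
      · obtain ⟨q, rfl⟩ : ∃ q, p = q + 1 := ⟨p - 1, by omega⟩
        rw [List.getElem?_cons_succ]
        rcases Nat.lt_or_ge (q + 1) m with h4 | h4
        · exact h2 q h4
        · have h5 : q + 1 = m := by omega
          have h6 : q = m - 1 := by omega
          rw [h5, h3, h6]
    · intro h
      refine ⟨?_, fun p hp => ?_, ?_⟩
      · rw [h 0 (by omega)]
        rfl
      · rw [h (p + 1) (by omega), List.getElem?_cons_succ]
      · obtain ⟨q, rfl⟩ : ∃ q, m = q + 1 := ⟨m - 1, by omega⟩
        rw [h (q + 1) (by omega), List.getElem?_cons_succ]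
        rfl

theorem length_app (op : Op G) (l : List G) : (op.app l).length ≤ l.length + 1 := by
  cases op with
  | keep => simp [Op.app]
  | pop => simp only [Op.app, List.length_tail]; omega
  | push g => simp [Op.app]

end ops

section rows

variable {Q K G : Type} [DecidableEq Q] [DecidableEq K] [Fintype K] [DecidableEq G]

/-- The row of a configuration. -/
def enc (c : Q × (K → List G)) (p : ℕ) : Cell Q K G :=
  (true, (c.1, fun k => (c.2 k).head?), fun k => (c.2 k)[p]?)

/-- Entries of the rows of the first phase. -/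
def alt (k0 : K) (g1 g2 : G) (p : ℕ) : K → Option G :=
  fun k => if k = k0 then (if p % 2 = 0 then some g1 else some g2) else none

theorem alt_succ (k0 : K) (g1 g2 : G) (p : ℕ) :
    (fun k => if k = k0 then (if alt k0 g1 g2 p k0 = some g1 then some g2 else some g1) else none) =
      alt k0 g1 g2 (p + 1) := by
  funext k
  unfold alt
  by_cases hk : k = k0
  · rw [if_pos hk, if_pos hk, if_pos rfl]
    rcases Nat.mod_two_eq_zero_or_one p with h | h
    · have h2 : (p + 1) % 2 ≠ 0 := by omega
      rw [if_pos h, if_pos rfl, if_neg h2]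
    · have h2 : (p + 1) % 2 = 0 := by omega
      have h3 : ¬ (p % 2 = 0) := by omega
      rw [if_neg h3, if_pos h2]
      by_cases h4 : some g2 = some g1
      · rw [if_pos h4, h4]
      · rw [if_neg h4]
  · rw [if_neg hk, if_neg hk]

variable (M : SM Q K G) (q0 : Q) (k0 : K) (g1 g2 : G)

theorem step_iff {m : ℕ} {b a : ℕ → Cell Q K G} {c : Q × (K → List G)}
    (hb : ∀ p < m, b p = enc c p) (hm : 0 < m) (hlen : ∀ k, (c.2 k).length < m)
    (ha : (a 0).1 = true) :
    Stp (sysOf M q0 k0 g1 g2) m b a ↔
      ∃ c', M.step c = some c' ∧ ∀ p < m + 1, a p = enc c' p := by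
  have hb0 : b 0 = enc c 0 := hb 0 hm
  unfold Stp
  constructor
  · rintro ⟨-, h⟩
    obtain ⟨hs, hl, hla⟩ := h hm
    rw [hb0] at hs
    rw [hb (m - 1) (by omega)] at hla
    cases hδ : M.δ c.1 (fun k => (c.2 k).head?) with
    | none =>
      simp [sysOf, ha, enc, hδ] at hs
    | some r =>
      have hs2 : (a 0).2.1.2 = (a 0).2.2 ∧ (a 0).2.1.1 = r.1 ∧
          ∀ k, okStart (r.2 k) (c.2 k)[0]? ((a 0).2.2 k) = true := by
        simpa [sysOf, ha, enc, hδ] using hs
      obtain ⟨hs3, hs4, hs5⟩ := hs2
      have hhead : ∀ p < m, (a p).1 = true ∧ (a p).2.1 = (a 0).2.1 := by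
        intro p
        induction p with
        | zero => exact fun _ => ⟨ha, rfl⟩
        | succ p ih =>
          intro hp
          obtain ⟨h1, h2⟩ := ih (by omega)
          have h3 := hl p hp
          rw [hb p (by omega), hb (p + 1) hp] at h3
          simp only [sysOf, Bool.and_eq_true, beq_iff_eq, decide_eq_true_eq] at h3
          obtain ⟨⟨h4, h5⟩, -⟩ := h3
          exact ⟨h4.trans h1, h5.trans h2⟩
      have hloc : ∀ p, p + 1 < m → ∀ k, okLoc (r.2 k) (c.2 k)[p]? ((a p).2.2 k) (c.2 k)[p + 1]?
          ((a (p + 1)).2.2 k) = true := by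
        intro p hp
        have h3 := hl p hp
        rw [hb p (by omega), hb (p + 1) hp] at h3
        have h1 := (hhead p (by omega)).1
        simp only [sysOf, Bool.and_eq_true, h1, enc, hδ] at h3
        simpa using h3.2
      have hlast : ((a m).1 = true ∧ (a m).2.1 = (a 0).2.1) ∧
          ∀ k, okLast (r.2 k) (c.2 k)[m - 1]? ((a (m - 1)).2.2 k) ((a m).2.2 k) = true := by
        have h1 := hhead (m - 1) (by omega)
        simp only [sysOf, Bool.and_eq_true, h1.1, enc, hδ] at hla
        obtain ⟨⟨h2, h3⟩, h4⟩ := hla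
        refine ⟨⟨by simpa using h2, ?_⟩, by simpa using h4⟩
        have h5 : (a m).2.1 = (a (m - 1)).2.1 := by simpa using h3
        rw [h5, h1.2]
      have hent : ∀ k, ∀ p < m + 1, (a p).2.2 k = ((r.2 k).app (c.2 k))[p]? := by
        intro k
        exact (ok_iff (r.2 k) (c.2 k) m (hlen k) (fun p => (a p).2.2 k)).mp
          ⟨hs5 k, fun p hp => hloc p hp k, hlast.2 k⟩
      refine ⟨(r.1, fun k => (r.2 k).app (c.2 k)), ?_, ?_⟩
      · unfold SM.step
        rw [hδ]
        rfl
      · intro p hp
        have h1 : (a p).1 = true ∧ (a p).2.1 = (a 0).2.1 := by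
          rcases Nat.lt_or_ge p m with h | h
          · exact hhead p h
          · have : p = m := by omega
            rw [this]
            exact hlast.1
        have h2 : (a p).2.1.2 = fun k => ((r.2 k).app (c.2 k)).head? := by
          rw [h1.2, hs3]
          funext k
          rw [hent k 0 (by omega), List.head?_eq_getElem?]
        have h3 : (a p).2.1.1 = r.1 := by rw [h1.2, hs4]
        have h4 : (a p).2.2 = fun k => ((r.2 k).app (c.2 k))[p]? := by
          funext k
          exact hent k p hp
        unfold enc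
        exact Prod.ext h1.1 (Prod.ext (Prod.ext h3 h2) h4)
  · rintro ⟨c', hc', hac⟩
    refine ⟨fun h => by omega, fun _ => ?_⟩
    unfold SM.step at hc'
    cases hδ : M.δ c.1 (fun k => (c.2 k).head?) with
    | none => rw [hδ] at hc'; simp at hc'
    | some r =>
      rw [hδ] at hc'
      simp only [Option.map_some, Option.some.injEq] at hc'
      have hent : ∀ k, ∀ p < m + 1, (fun p => (a p).2.2 k) p = ((r.2 k).app (c.2 k))[p]? := by
        intro k p hp
        simp only
        rw [hac p hp, ← hc']
        rfl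
      have hok := fun k => (ok_iff (r.2 k) (c.2 k) m (hlen k) (fun p => (a p).2.2 k)).mpr (hent k)
      have h1 : ∀ p < m + 1, (a p).1 = true := fun p hp => by rw [hac p hp]; rfl
      have h2 : ∀ p < m + 1, (a p).2.1 = (c'.1, fun k => (c'.2 k).head?) :=
        fun p hp => by rw [hac p hp]; rfl
      refine ⟨?_, ?_, ?_⟩
      · rw [hb0]
        have h3 : (a 0).2.1.2 = (a 0).2.2 := by
          rw [hac 0 (by omega)]
          unfold enc
          simp only
          funext k
          rw [List.head?_eq_getElem?]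
        have h4 : (a 0).2.1.1 = r.1 := by
          rw [hac 0 (by omega), ← hc']
          rfl
        have h5 := fun k => (hok k).1
        simp [sysOf, ha, enc, hδ, h3, h4, h5]
      · intro p hp
        rw [hb p (by omega), hb (p + 1) hp]
        have h5 := fun k => (hok k).2.1 p hp
        have h6 := h1 p (by omega)
        have h7 := h1 (p + 1) (by omega)
        have h8 := h2 p (by omega)
        have h9 := h2 (p + 1) (by omega)
        simp [sysOf, enc, hδ, h5, h6, h7, h8, h9]
      · rw [hb (m - 1) (by omega)]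
        have h5 := fun k => (hok k).2.2
        have h6 := h1 (m - 1) (by omega)
        have h7 := h1 m (by omega)
        have h8 := h2 (m - 1) (by omega)
        have h9 := h2 m (by omega)
        simp [sysOf, enc, hδ, h5, h6, h7, h8, h9]

/-- The first row. -/
theorem seed_iff {b a : ℕ → Cell Q K G} :
    Stp (sysOf M q0 k0 g1 g2) 0 b a ↔ (a 0).1 = false ∧ (a 0).2.2 = alt k0 g1 g2 0 := by
  unfold Stp
  constructor
  · rintro ⟨h, -⟩
    have h1 := h rfl
    simp only [sysOf, Bool.and_eq_true, beq_iff_eq, decide_eq_true_eq] at h1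
    exact h1
  · intro h
    refine ⟨fun _ => ?_, fun h => by omega⟩
    simp only [sysOf, Bool.and_eq_true, beq_iff_eq, decide_eq_true_eq]
    exact h

/-- Rows of the first phase. -/
theorem phase1_iff {m : ℕ} {b a : ℕ → Cell Q K G} (hm : 0 < m) (hb : (b 0).1 = false)
    (ha : (a 0).1 = false) :
    Stp (sysOf M q0 k0 g1 g2) m b a ↔
      ∀ p < m + 1, (a p).1 = false ∧ (a p).2.1 = (a 0).2.1 ∧ (a p).2.2 = alt k0 g1 g2 p := by
  unfold Stp
  constructor
  · rintro ⟨-, h⟩
    obtain ⟨hs, hl, hla⟩ := h hm
    have h0 : (a 0).2.2 = alt k0 g1 g2 0 := by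
      simp only [sysOf, ha, if_true, Bool.and_eq_true, beq_iff_eq, decide_eq_true_eq] at hs
      exact hs.2
    have hin : ∀ p < m, (a p).1 = false ∧ (a p).2.1 = (a 0).2.1 ∧ (a p).2.2 = alt k0 g1 g2 p := by
      intro p
      induction p with
      | zero => exact fun _ => ⟨ha, rfl, h0⟩
      | succ p ih =>
        intro hp
        obtain ⟨h1, h2, h3⟩ := ih (by omega)
        have h4 := hl p hp
        simp only [sysOf, h1, if_true, Bool.and_eq_true, beq_iff_eq, decide_eq_true_eq] at h4
        obtain ⟨⟨h5, h6⟩, h7⟩ := h4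
        refine ⟨h5, h6.trans h2, ?_⟩
        rw [h7, h3]
        exact alt_succ k0 g1 g2 p
    intro p hp
    rcases Nat.lt_or_ge p m with h | h
    · exact hin p h
    · have hpm : p = m := by omega
      obtain ⟨h1, h2, h3⟩ := hin (m - 1) (by omega)
      simp only [sysOf, h1, if_true, Bool.and_eq_true, beq_iff_eq, decide_eq_true_eq] at hla
      obtain ⟨⟨h5, h6⟩, h7⟩ := hla
      rw [hpm]
      refine ⟨h5, h6.trans h2, ?_⟩
      rw [h7, h3]
      have h8 := alt_succ k0 g1 g2 (m - 1)
      rw [Nat.sub_add_cancel hm] at h8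
      exact h8
  · intro h
    refine ⟨fun h => by omega, fun _ => ⟨?_, ?_, ?_⟩⟩
    · obtain ⟨h1, h2, h3⟩ := h 0 (by omega)
      simp only [sysOf, h1, if_true, Bool.and_eq_true, beq_iff_eq, decide_eq_true_eq]
      exact ⟨hb, h3⟩
    · intro p hp
      obtain ⟨h1, h2, h3⟩ := h p (by omega)
      obtain ⟨h4, h5, h6⟩ := h (p + 1) (by omega)
      simp only [sysOf, h1, if_true, Bool.and_eq_true, beq_iff_eq, decide_eq_true_eq]
      refine ⟨⟨h4, h5.trans h2.symm⟩, ?_⟩
      rw [h3, alt_succ k0 g1 g2 p]
      exact h6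
    · obtain ⟨h1, h2, h3⟩ := h (m - 1) (by omega)
      obtain ⟨h4, h5, h6⟩ := h m (by omega)
      simp only [sysOf, h1, if_true, Bool.and_eq_true, beq_iff_eq, decide_eq_true_eq]
      refine ⟨⟨h4, h5.trans h2.symm⟩, ?_⟩
      rw [h3]
      have h8 := alt_succ k0 g1 g2 (m - 1)
      rw [Nat.sub_add_cancel hm] at h8
      rw [h8]
      exact h6

theorem initC_entry (L p : ℕ) :
    (fun k => ((initC q0 k0 g1 g2 L).2 k)[p]? : K → Option G) =
      if p < L then alt k0 g1 g2 p else fun _ => none := by
  funext k
  unfold initC alt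
  by_cases hk : k = k0
  · by_cases hp : p < L
    · by_cases hp2 : p % 2 = 0
      · simp [hk, hp, hp2]
      · simp [hk, hp, hp2]
    · simp [hk, hp]
  · by_cases hp : p < L
    · simp [hk, hp]
    · simp [hk, hp]

/-- The change of phase. -/
theorem change_iff {m : ℕ} {b a : ℕ → Cell Q K G} (hm : 0 < m)
    (hb : ∀ p < m, (b p).1 = false ∧ (b p).2.2 = alt k0 g1 g2 p) (ha : (a 0).1 = true) :
    Stp (sysOf M q0 k0 g1 g2) m b a ↔ ∀ p < m + 1, a p = enc (initC q0 k0 g1 g2 m) p := by
  have hhd : (fun k => ((initC q0 k0 g1 g2 m).2 k).head? : K → Option G) = alt k0 g1 g2 0 := by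
    have h1 := initC_entry (Q := Q) q0 k0 g1 g2 m 0
    rw [if_pos hm] at h1
    rw [← h1]
    funext k
    rw [List.head?_eq_getElem?]
  unfold Stp
  constructor
  · rintro ⟨-, h⟩
    obtain ⟨hs, hl, hla⟩ := h hm
    obtain ⟨hb1, hb2⟩ := hb 0 hm
    have h0 : (a 0).2.1.2 = (a 0).2.2 ∧ (a 0).2.1.1 = q0 ∧ (a 0).2.2 = alt k0 g1 g2 0 := by
      simpa [sysOf, ha, hb1, hb2] using hs
    obtain ⟨h01, h02, h03⟩ := h0
    have hin : ∀ p < m, (a p).1 = true ∧ (a p).2.1 = (a 0).2.1 ∧ (a p).2.2 = alt k0 g1 g2 p := by
      intro p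
      induction p with
      | zero => exact fun _ => ⟨ha, rfl, h03⟩
      | succ p ih =>
        intro hp
        obtain ⟨h1, h2, h3⟩ := ih (by omega)
        have h4 := hl p hp
        obtain ⟨hb3, -⟩ := hb p (by omega)
        obtain ⟨-, hb6⟩ := hb (p + 1) hp
        have h5 : ((a (p + 1)).1 = true ∧ (a (p + 1)).2.1 = (a p).2.1) ∧
            (a (p + 1)).2.2 = alt k0 g1 g2 (p + 1) := by
          simpa [sysOf, h1, hb3, hb6] using h4
        obtain ⟨⟨h5, h6⟩, h7⟩ := h5
        exact ⟨h5, h6.trans h2, h7⟩
    have hlast : (a m).1 = true ∧ (a m).2.1 = (a 0).2.1 ∧ (a m).2.2 = fun _ => none := by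
      obtain ⟨h1, h2, h3⟩ := hin (m - 1) (by omega)
      obtain ⟨hb3, -⟩ := hb (m - 1) (by omega)
      have h5 : ((a m).1 = true ∧ (a m).2.1 = (a (m - 1)).2.1) ∧
          (a m).2.2 = fun _ => none := by
        simpa [sysOf, h1, hb3] using hla
      obtain ⟨⟨h5, h6⟩, h7⟩ := h5
      exact ⟨h5, h6.trans h2, h7⟩
    have hh : (a 0).2.1 = ((initC q0 k0 g1 g2 m).1,
        fun k => ((initC q0 k0 g1 g2 m).2 k).head?) := by
      rw [hhd]
      exact Prod.ext h02 (h01.trans h03)
    intro p hp
    unfold enc
    rw [← hh, initC_entry]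
    rcases Nat.lt_or_ge p m with h | h
    · rw [if_pos h]
      obtain ⟨h1, h2, h3⟩ := hin p h
      exact Prod.ext h1 (Prod.ext h2 h3)
    · have hpm : p = m := by omega
      rw [if_neg (by omega), hpm]
      obtain ⟨h1, h2, h3⟩ := hlast
      exact Prod.ext h1 (Prod.ext h2 h3)
  · intro h
    have h1 : ∀ p < m + 1, (a p).1 = true := fun p hp => by rw [h p hp]; rfl
    have h2 : ∀ p < m + 1, (a p).2.1 = (q0, alt k0 g1 g2 0) := by
      intro p hp
      rw [h p hp, ← hhd]
      rfl
    have h3 : ∀ p < m + 1, (a p).2.2 = if p < m then alt k0 g1 g2 p else fun _ => none := by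
      intro p hp
      rw [h p hp, ← initC_entry (Q := Q) q0 k0 g1 g2 m p]
      rfl
    refine ⟨fun h => by omega, fun _ => ⟨?_, ?_, ?_⟩⟩
    · obtain ⟨hb1, hb2⟩ := hb 0 hm
      have h4 := h1 0 (by omega)
      have h5 := h2 0 (by omega)
      have h6 := h3 0 (by omega)
      rw [if_pos hm] at h6
      simp [sysOf, hb1, hb2, h4, h5, h6]
    · intro p hp
      obtain ⟨hb1, -⟩ := hb p (by omega)
      obtain ⟨-, hb2⟩ := hb (p + 1) hp
      have h4 := h1 p (by omega)
      have h5 := h2 p (by omega)
      have h4' := h1 (p + 1) (by omega)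
      have h5' := h2 (p + 1) (by omega)
      have h6' := h3 (p + 1) (by omega)
      rw [if_pos hp] at h6'
      simp [sysOf, hb1, hb2, h4, h5, h4', h5', h6']
    · obtain ⟨hb1, -⟩ := hb (m - 1) (by omega)
      have h4 := h1 (m - 1) (by omega)
      have h5 := h2 (m - 1) (by omega)
      have h4' := h1 m (by omega)
      have h5' := h2 m (by omega)
      have h6' := h3 m (by omega)
      rw [if_neg (by omega)] at h6'
      simp [sysOf, hb1, h4, h5, h4', h5', h6']

theorem iter_succ (c : Q × (K → List G)) (t : ℕ) :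
    M.iter c (t + 1) = (M.iter c t).bind M.step := by
  unfold SM.iter
  rw [Function.iterate_succ_apply']

theorem step_length {c c' : Q × (K → List G)} (h : M.step c = some c') (k : K) :
    (c'.2 k).length ≤ (c.2 k).length + 1 := by
  unfold SM.step at h
  rw [Option.map_eq_some_iff] at h
  obtain ⟨r, -, rfl⟩ := h
  exact length_app (r.2 k) (c.2 k)

theorem iter_length {c c' : Q × (K → List G)} (k : K) (t : ℕ) (h : M.iter c t = some c') :
    (c'.2 k).length ≤ (c.2 k).length + t := by
  induction t generalizing c' with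
  | zero =>
    have h1 : c = c' := by
      unfold SM.iter at h
      simpa using h
    rw [h1]
    omega
  | succ t ih =>
    rw [iter_succ, Option.bind_eq_some_iff] at h
    obtain ⟨c1, h1, h2⟩ := h
    have := ih h1
    have := step_length M h2 k
    omega

theorem initC_length (k : K) (L : ℕ) : ((initC q0 k0 g1 g2 L).2 k).length ≤ L := by
  unfold initC
  by_cases hk : k = k0
  · simp [hk]
  · simp [hk]

end rows

end ChainThm

open ChainThm

theorem sysOf_seed {Q K G : Type} [DecidableEq Q] [DecidableEq K] [Fintype K] [DecidableEq G]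
    (M : SM Q K G) (q0 : Q) (k0 : K) (g1 g2 : G) (a : Cell Q K G) :
    (sysOf M q0 k0 g1 g2).seed a = true → (sysOf M q0 k0 g1 g2).run a = false := by
  intro h
  simp only [sysOf, Bool.and_eq_true, beq_iff_eq, decide_eq_true_eq] at h
  exact h.1

theorem chain_iff {Q K G : Type} [DecidableEq Q] [DecidableEq K] [Fintype K] [DecidableEq G]
    (M : SM Q K G) (q0 : Q) (k0 : K) (g1 g2 : G) (n : ℕ) :
    Chain (sysOf M q0 k0 g1 g2) (2 * (n + 1)) ↔
      ∀ t, M.iter (initC q0 k0 g1 g2 (2 * (n + 1))) t ≠ none := by
  set N := 2 * (n + 1) with hN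
  have hN2 : 2 ≤ N := by omega
  constructor
  · rintro ⟨ρ, hρ⟩
    have hrun : ∀ m, 1 ≤ m → ((ρ m 0).1 = true ↔ N + 1 ≤ m) := fun m hm => (hρ m).2 hm
    have hfalse : ∀ m, 1 ≤ m → m ≤ N → (ρ m 0).1 = false := by
      intro m h1 h2
      have h3 := hrun m h1
      cases h4 : (ρ m 0).1 with
      | false => rfl
      | true =>
        have := h3.mp h4
        omega
    have hph1 : ∀ m, 1 ≤ m → m ≤ N → ∀ p < m, (ρ m p).1 = false ∧
        (ρ m p).2.2 = alt k0 g1 g2 p := by
      intro m h1 h2 p hp
      obtain ⟨m, rfl⟩ : ∃ j, m = j + 1 := ⟨m - 1, by omega⟩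
      rcases Nat.eq_zero_or_pos m with h0 | h0
      · subst h0
        have h3 := (seed_iff M q0 k0 g1 g2).mp (hρ 0).1
        have h4 : p = 0 := by omega
        rw [h4]
        exact h3
      · have h3 := (phase1_iff M q0 k0 g1 g2 h0 (hfalse m h0 (by omega))
          (hfalse (m + 1) (by omega) h2)).mp (hρ m).1 p hp
        exact ⟨h3.1, h3.2.2⟩
    have hmain : ∀ t, ∃ c, M.iter (initC q0 k0 g1 g2 N) t = some c ∧
        ∀ p < N + 1 + t, ρ (N + 1 + t) p = enc c p := by
      intro t
      induction t with
      | zero =>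
        refine ⟨initC q0 k0 g1 g2 N, rfl, ?_⟩
        have h1 : (ρ (N + 1) 0).1 = true := (hrun (N + 1) (by omega)).mpr le_rfl
        exact (change_iff M q0 k0 g1 g2 (by omega) (hph1 N (by omega) le_rfl) h1).mp (hρ N).1
      | succ t ih =>
        obtain ⟨c, hc, henc⟩ := ih
        have h1 : (ρ (N + 1 + t + 1) 0).1 = true := (hrun (N + 1 + t + 1) (by omega)).mpr (by omega)
        have hlen : ∀ k, (c.2 k).length < N + 1 + t := by
          intro k
          have h2 := iter_length M k t hc
          have h3 := initC_length (Q := Q) q0 k0 g1 g2 k N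
          omega
        obtain ⟨c', hc', henc'⟩ := (step_iff M q0 k0 g1 g2 henc (by omega) hlen h1).mp
          (hρ (N + 1 + t)).1
        refine ⟨c', ?_, ?_⟩
        · rw [iter_succ, hc]
          exact hc'
        · exact henc'
    intro t
    obtain ⟨c, hc, -⟩ := hmain t
    rw [hc]
    exact Option.some_ne_none c
  · intro h
    have hex : ∀ t, ∃ c, M.iter (initC q0 k0 g1 g2 N) t = some c := by
      intro t
      exact Option.ne_none_iff_exists'.mp (h t)
    choose c hc using hex
    have hc0 : c 0 = initC q0 k0 g1 g2 N := by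
      have h1 := hc 0
      unfold SM.iter at h1
      simpa using h1.symm
    have hstep : ∀ t, M.step (c t) = some (c (t + 1)) := by
      intro t
      have h1 := hc (t + 1)
      rw [iter_succ, hc t] at h1
      exact h1
    let hdr : Q × (K → Option G) := (q0, fun _ => none)
    let ρ : ℕ → ℕ → Cell Q K G := fun m p =>
      if m ≤ N then (false, hdr, alt k0 g1 g2 p) else enc (c (m - (N + 1))) p
    have hρ1 : ∀ m, m ≤ N → ∀ p, ρ m p = (false, hdr, alt k0 g1 g2 p) := by
      intro m hm p
      simp only [ρ, if_pos hm]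
    have hρ2 : ∀ m, N < m → ∀ p, ρ m p = enc (c (m - (N + 1))) p := by
      intro m hm p
      simp only [ρ, if_neg (not_le.mpr hm)]
    refine ⟨ρ, fun m => ⟨?_, ?_⟩⟩
    · rcases Nat.eq_zero_or_pos m with h0 | h0
      · subst h0
        rw [seed_iff, hρ1 1 (by omega)]
        exact ⟨rfl, rfl⟩
      · rcases Nat.lt_or_ge m N with h1 | h1
        · rw [phase1_iff M q0 k0 g1 g2 h0 (by rw [hρ1 m (by omega)])
            (by rw [hρ1 (m + 1) (by omega)])]
          intro p _
          rw [hρ1 (m + 1) (by omega), hρ1 (m + 1) (by omega)]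
          exact ⟨rfl, rfl, rfl⟩
        · rcases Nat.eq_or_lt_of_le h1 with h2 | h2
          · rw [← h2, change_iff M q0 k0 g1 g2 (by omega)
              (by
                intro p _
                rw [hρ1 N le_rfl]
                exact ⟨rfl, rfl⟩)
              (by rw [hρ2 (N + 1) (by omega)]; rfl)]
            intro p _
            rw [hρ2 (N + 1) (by omega), Nat.sub_self, hc0]
          · obtain ⟨t, rfl⟩ : ∃ t, m = N + 1 + t := ⟨m - (N + 1), by omega⟩
            have h3 : N + 1 + t - (N + 1) = t := by omega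
            have h4 : N + 1 + t + 1 - (N + 1) = t + 1 := by omega
            have hlen : ∀ k, ((c t).2 k).length < N + 1 + t := by
              intro k
              have h2 := iter_length M k t (hc t)
              have h3 := initC_length (Q := Q) q0 k0 g1 g2 k N
              omega
            rw [step_iff M q0 k0 g1 g2 (c := c t)
              (by
                intro p _
                rw [hρ2 _ (by omega), h3])
              (by omega) hlen
              (by rw [hρ2 _ (by omega)]; rfl)]
            refine ⟨c (t + 1), hstep t, ?_⟩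
            intro p _
            rw [hρ2 _ (by omega), h4]
    · intro hm
      change (ρ m 0).1 = true ↔ N + 1 ≤ m
      rcases Nat.lt_or_ge N m with h1 | h1
      · rw [hρ2 m h1]
        exact ⟨fun _ => h1, fun _ => rfl⟩
      · rw [hρ1 m h1]
        constructor
        · intro h
          exact absurd h Bool.false_ne_true
        · intro h
          omega

end Pool.Agent.H81.Dec
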