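import Mathlib
import Pool.Agent.H81.Dec.CA

set_option autoImplicit false

/-!
# Module F: a one counter automaton for the counting rule
-/

namespace Pool.Agent.H81.Dec

namespace CntF

/-- States of a thread. -/
inductive TS
  | cnt (f : Option (Bool × Bool))
  | c1
  | c2
  | c3
  | acc
  | dead
  deriving DecidableEq, Fintype

open TS

variable {Γ : Type}

/-! ### Labels -/

theorem lab1 : ∀ (r : Fin 2) (s : S),
    (decide (s = lab (r : ℕ) 1) && decide (s = lab (r : ℕ) 2)) = false ∧
    (decide (s = lab (r : ℕ) 2) && decide (s = lab (r : ℕ) 3)) = false ∧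
    (decide (s = lab (r : ℕ) 3) && decide (s = lab ((r : ℕ) + 1) 1)) = false ∧
    (decide (s = lab ((r : ℕ) + 1) 2) && decide (s = lab (r : ℕ) 1)) = false := by
  decide

theorem lab2 : ∀ (r r' : Fin 2) (s t : S),
    (decide (s = lab ((r' : ℕ) + 1) 1) && decide (t = lab (r' : ℕ) 1)) = true →
    decide (s = t) = false ∧
    (decide (s = lab (r : ℕ) 1) && decide (t = lab (r : ℕ) 2)) = false ∧
    (decide (s = lab (r : ℕ) 2) && decide (t = lab (r : ℕ) 3)) = false ∧
    (decide (s = lab (r : ℕ) 3) && decide (t = lab ((r : ℕ) + 1) 1)) = false ∧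
    (decide (s = lab ((r : ℕ) + 1) 2) && decide (t = lab (r : ℕ) 1)) = false ∧
    ((decide (s = lab ((r : ℕ) + 1) 1) && decide (t = lab (r : ℕ) 1)) = true → r = r') := by
  decide

theorem hid_facts (r : Fin 2) (c : Col Γ) (h : hid c = true) :
    isK1 (r : ℕ) c = false ∧ isK2 (r : ℕ) c = false ∧ isZ (r : ℕ) c = false ∧
      isC (r : ℕ) c = false := by
  obtain ⟨⟨s, p, g⟩, ⟨t, q, g'⟩⟩ := c
  simp only [hid, decide_eq_true_eq] at h
  subst h
  exact lab1 r s

theorem A_facts (r' r : Fin 2) (c : Col Γ) (h : isA (r' : ℕ) c = true) :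
    hid c = false ∧ isK1 (r : ℕ) c = false ∧ isK2 (r : ℕ) c = false ∧ isZ (r : ℕ) c = false ∧
      isC (r : ℕ) c = false ∧ (isA (r : ℕ) c = true → r = r') := by
  obtain ⟨⟨s, p, g⟩, ⟨t, q, g'⟩⟩ := c
  exact lab2 r r' s t h

theorem cell_hid (r : ℕ) (c : Col Γ) (h : isCell r c = true) : hid c = true := by
  unfold isCell at h
  simp only [Bool.and_eq_true] at h
  exact h.1.1.1

/-! ### The verdict as a function of the comparison -/

/-- The verdict as a function of the comparison of the length with `N`. -/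
def badO (o : Ordering) (fb fa : Bool) : Bool :=
  (fb != decide (o = .gt)) || (fa != decide (o ≠ .lt))

theorem badN_eq (N : ℕ) (fb fa : Bool) (i : ℕ) : badN N fb fa i = badO (compare i N) fb fa := by
  unfold badN badO
  have h1 : decide (N + 1 ≤ i) = decide (compare i N = .gt) := by
    rw [decide_eq_decide, Nat.compare_eq_gt]
    omega
  have h2 : decide (N ≤ i) = decide (compare i N ≠ .lt) := by
    rw [decide_eq_decide, Ne, Nat.compare_eq_lt]
    omega
  rw [h1, h2]

theorem compare_min (N i : ℕ) : compare (min i (N + 1)) N = compare i N := by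
  rcases le_or_gt i (N + 1) with h | h
  · rw [min_eq_left h]
  · rw [min_eq_right h.le, Nat.compare_eq_gt.2 (by omega), Nat.compare_eq_gt.2 (by omega)]

/-! ### Threads -/

/-- The phases read off a cell. -/
def ph (T : Sys Γ) (c : Col Γ) : Bool × Bool := (T.run c.2.2.2, T.run c.1.2.2)

/-- Step of a thread. -/
def tstep (T : Sys Γ) (r : ℕ) (s : TS) (c : Col Γ) (o : Ordering) : TS :=
  match s with
  | cnt f =>
    if hid c = true then
      (if isCell r c = true then cnt (some (f.getD (ph T c))) else cnt f)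
    else if isK1 r c = true then
      (match f with
        | some p => if badO o p.1 p.2 = true then c1 else dead
        | none => dead)
    else dead
  | c1 => if hid c = true then c1 else if isK2 r c = true then c2 else dead
  | c2 => if hid c = true then c2 else if isZ r c = true then c3 else dead
  | c3 => if hid c = true then c3 else if isC r c = true then acc else dead
  | acc => dead
  | dead => dead

/-- Action of a thread on the counter. -/
def tact (r : ℕ) (s : TS) (c : Col Γ) : Option Bool :=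
  match s with
  | cnt _ => if isCell r c = true then some true else none
  | _ => none

/-- Step of a thread with its counter. -/
def tn (T : Sys Γ) (N r : ℕ) (p : TS × ℕ) (c : Col Γ) : TS × ℕ :=
  (tstep T r p.1 c (compare p.2 N), actC N (tact r p.1 c) p.2)

theorem tn_dead (T : Sys Γ) (N r : ℕ) (i : ℕ) (t : List (Col Γ)) :
    (t.foldl (tn T N r) (dead, i)).1 = dead := by
  induction t generalizing i with
  | nil => rfl
  | cons c t ih =>
    rw [List.foldl_cons]
    exact ih _

theorem tn_acc (T : Sys Γ) (N r : ℕ) (i : ℕ) (t : List (Col Γ)) :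
    (t.foldl (tn T N r) (acc, i)).1 = acc ↔ t = [] := by
  cases t with
  | nil => simp
  | cons c t =>
    rw [List.foldl_cons]
    have : tn T N r (acc, i) c = (dead, i) := rfl
    rw [this, tn_dead]
    simp

theorem Mt_nil {U : Type} (w : List U) : Mt ([] : List (Item U)) w ↔ w = [] := Iff.rfl

theorem Mt_one_cons {U : Type} (P : U → Bool) (pat : List (Item U)) (c : U) (t : List U) :
    Mt (.one P :: pat) (c :: t) ↔ P c = true ∧ Mt pat t := by
  constructor
  · rintro ⟨c', w', h, h1, h2⟩
    obtain ⟨rfl, rfl⟩ := List.cons.inj h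
    exact ⟨h1, h2⟩
  · rintro ⟨h1, h2⟩
    exact ⟨c, t, rfl, h1, h2⟩

theorem Mt_one_nil {U : Type} (P : U → Bool) (pat : List (Item U)) :
    ¬ Mt (.one P :: pat) ([] : List U) := by
  rintro ⟨c', w', h, h1, h2⟩
  exact absurd h (by simp)

theorem Mt_many_nil {U : Type} (P : U → Bool) (pat : List (Item U)) :
    Mt (.many P :: pat) ([] : List U) ↔ Mt pat [] := by
  constructor
  · rintro ⟨u, v, h, h1, h2⟩
    obtain ⟨rfl, rfl⟩ := List.append_eq_nil_iff.1 h.symm
    exact h2
  · intro h
    exact ⟨[], [], rfl, by simp, h⟩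

theorem Mt_many_cons {U : Type} (P : U → Bool) (pat : List (Item U)) (c : U) (t : List U) :
    Mt (.many P :: pat) (c :: t) ↔ Mt pat (c :: t) ∨ (P c = true ∧ Mt (.many P :: pat) t) := by
  constructor
  · rintro ⟨u, v, h, h1, h2⟩
    cases u with
    | nil =>
      left
      rw [List.nil_append] at h
      rw [h]
      exact h2
    | cons d u =>
      right
      rw [List.cons_append] at h
      obtain ⟨rfl, rfl⟩ := List.cons.inj h
      exact ⟨h1 c (by simp), u, v, rfl, fun x hx => h1 x (by simp [hx]), h2⟩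
  · rintro (h | ⟨h1, u, v, rfl, h2, h3⟩)
    · exact ⟨[], c :: t, rfl, by simp, h⟩
    · refine ⟨c :: u, v, rfl, ?_, h3⟩
      intro x hx
      rcases List.mem_cons.1 hx with rfl | hx
      · exact h1
      · exact h2 x hx

/-- A waiting state: hidden columns are skipped, and a column of class `P` advances. -/
theorem wait (T : Sys Γ) (N : ℕ) (r : Fin 2) (s s' : TS) (P : Col Γ → Bool) (pat : List (Item (Col Γ)))
    (hP : ∀ c : Col Γ, hid c = true → P c = false)
    (hs : ∀ (c : Col Γ) (i : ℕ), tn T N (r : ℕ) (s, i) c =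
      (if hid c = true then s else if P c = true then s' else dead, i))
    (hacc : s ≠ acc)
    (h' : ∀ (t : List (Col Γ)) (i : ℕ), (t.foldl (tn T N (r : ℕ)) (s', i)).1 = acc ↔ Mt pat t)
    (t : List (Col Γ)) (i : ℕ) :
    (t.foldl (tn T N (r : ℕ)) (s, i)).1 = acc ↔ Mt (.many hid :: .one P :: pat) t := by
  induction t with
  | nil =>
    rw [Mt_many_nil]
    constructor
    · intro h
      exact absurd h hacc
    · intro h
      exact absurd h (Mt_one_nil _ _)
  | cons c t ih =>
    rw [List.foldl_cons, hs, Mt_many_cons, Mt_one_cons]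
    by_cases hc : hid c = true
    · rw [if_pos hc, ih]
      simp [hc, hP c hc]
    · rw [if_neg hc]
      by_cases hc' : P c = true
      · rw [if_pos hc', h']
        simp [hc, hc']
      · rw [if_neg hc', tn_dead]
        simp [hc, hc']

theorem acc_c3 (T : Sys Γ) (N : ℕ) (r : Fin 2) (t : List (Col Γ)) (i : ℕ) :
    (t.foldl (tn T N (r : ℕ)) (c3, i)).1 = acc ↔ Mt [.many hid, .one (isC (r : ℕ))] t :=
  wait T N r c3 acc (isC (r : ℕ)) [] (fun c hc => (hid_facts r c hc).2.2.2)
    (fun c i => rfl) (by simp) (fun t i => tn_acc T N (r : ℕ) i t) t i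

theorem acc_c2 (T : Sys Γ) (N : ℕ) (r : Fin 2) (t : List (Col Γ)) (i : ℕ) :
    (t.foldl (tn T N (r : ℕ)) (c2, i)).1 = acc ↔
      Mt [.many hid, .one (isZ (r : ℕ)), .many hid, .one (isC (r : ℕ))] t :=
  wait T N r c2 c3 (isZ (r : ℕ)) _ (fun c hc => (hid_facts r c hc).2.2.1)
    (fun c i => rfl) (by simp) (fun t i => acc_c3 T N r t i) t i

theorem acc_c1 (T : Sys Γ) (N : ℕ) (r : Fin 2) (t : List (Col Γ)) (i : ℕ) :
    (t.foldl (tn T N (r : ℕ)) (c1, i)).1 = acc ↔ Mt (tailP (r : ℕ)) t :=
  wait T N r c1 c2 (isK2 (r : ℕ)) _ (fun c hc => (hid_facts r c hc).2.1)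
    (fun c i => rfl) (by simp) (fun t i => acc_c2 T N r t i) t i

theorem acc_cnt (T : Sys Γ) (N : ℕ) (r : Fin 2) (t : List (Col Γ)) (f : Option (Bool × Bool)) (i : ℕ) :
    (t.foldl (tn T N (r : ℕ)) (cnt f, min i (N + 1))).1 = acc ↔
      ∃ (row t' : List (Col Γ)) (p : Bool × Bool), t = row ++ t' ∧ (∀ c ∈ row, hid c = true) ∧
        (f.or ((row.filter (isCell (r : ℕ))).head?.map (ph T))) = some p ∧
        badN N p.1 p.2 (i + (row.filter (isCell (r : ℕ))).length) = true ∧
        Mt (.one (isK1 (r : ℕ)) :: tailP (r : ℕ)) t' := by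
  induction t generalizing f i with
  | nil =>
    simp only [List.foldl_nil]
    constructor
    · intro h
      exact absurd h (by simp)
    · rintro ⟨row, t', p, h, -, -, -, h4⟩
      obtain ⟨rfl, rfl⟩ := List.append_eq_nil_iff.1 h.symm
      exact absurd h4 (Mt_one_nil _ _)
  | cons c t ih =>
    rw [List.foldl_cons]
    by_cases hc : hid c = true
    · -- hidden column
      have hK1 := (hid_facts r c hc).1
      by_cases hcell : isCell (r : ℕ) c = true
      · have hstep : tn T N (r : ℕ) (cnt f, min i (N + 1)) c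
            = (cnt (some (f.getD (ph T c))), min (i + 1) (N + 1)) := by
          unfold tn tstep tact
          simp only [hc, if_true, hcell, actC]
          rw [Prod.mk.injEq]
          refine ⟨rfl, ?_⟩
          omega
        rw [hstep, ih]
        constructor
        · rintro ⟨row, t', p, rfl, h1, h2, h3, h4⟩
          refine ⟨c :: row, t', p, rfl, ?_, ?_, ?_, h4⟩
          · intro x hx
            rcases List.mem_cons.1 hx with rfl | hx
            · exact hc
            · exact h1 x hx
          · rw [List.filter_cons_of_pos hcell, List.head?_cons, Option.map_some]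
            rw [Option.some_or] at h2
            rw [← h2]
            cases f <;> simp
          · rw [List.filter_cons_of_pos hcell, List.length_cons]
            rw [show i + ((row.filter (isCell (r : ℕ))).length + 1)
              = i + 1 + (row.filter (isCell (r : ℕ))).length by ring]
            exact h3
        · rintro ⟨row, t', p, h0, h1, h2, h3, h4⟩
          cases row with
          | nil =>
            rw [List.nil_append] at h0
            rw [← h0, Mt_one_cons] at h4
            rw [hK1] at h4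
            exact absurd h4.1 (by simp)
          | cons d row =>
            rw [List.cons_append] at h0
            obtain ⟨rfl, rfl⟩ := List.cons.inj h0
            refine ⟨row, t', p, rfl, fun x hx => h1 x (by simp [hx]), ?_, ?_, h4⟩
            · rw [List.filter_cons_of_pos hcell, List.head?_cons, Option.map_some] at h2
              rw [Option.some_or]
              rw [← h2]
              cases f <;> simp
            · rw [List.filter_cons_of_pos hcell, List.length_cons] at h3
              rw [show i + 1 + (row.filter (isCell (r : ℕ))).length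
                = i + ((row.filter (isCell (r : ℕ))).length + 1) by ring]
              exact h3
      · have hstep : tn T N (r : ℕ) (cnt f, min i (N + 1)) c = (cnt f, min i (N + 1)) := by
          unfold tn tstep tact
          simp only [hc, if_true, hcell, actC]
          rfl
        rw [hstep, ih]
        constructor
        · rintro ⟨row, t', p, rfl, h1, h2, h3, h4⟩
          refine ⟨c :: row, t', p, rfl, ?_, ?_, ?_, h4⟩
          · intro x hx
            rcases List.mem_cons.1 hx with rfl | hx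
            · exact hc
            · exact h1 x hx
          · rw [List.filter_cons_of_neg hcell]
            exact h2
          · rw [List.filter_cons_of_neg hcell]
            exact h3
        · rintro ⟨row, t', p, h0, h1, h2, h3, h4⟩
          cases row with
          | nil =>
            rw [List.nil_append] at h0
            rw [← h0, Mt_one_cons] at h4
            rw [hK1] at h4
            exact absurd h4.1 (by simp)
          | cons d row =>
            rw [List.cons_append] at h0
            obtain ⟨rfl, rfl⟩ := List.cons.inj h0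
            rw [List.filter_cons_of_neg hcell] at h2 h3
            exact ⟨row, t', p, rfl, fun x hx => h1 x (by simp [hx]), h2, h3, h4⟩
    · -- visible column
      have hcell : ¬ isCell (r : ℕ) c = true := fun h => hc (cell_hid _ _ h)
      have key : (∃ (row t' : List (Col Γ)) (p : Bool × Bool), c :: t = row ++ t' ∧
          (∀ c ∈ row, hid c = true) ∧
          (f.or ((row.filter (isCell (r : ℕ))).head?.map (ph T))) = some p ∧
          badN N p.1 p.2 (i + (row.filter (isCell (r : ℕ))).length) = true ∧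
          Mt (.one (isK1 (r : ℕ)) :: tailP (r : ℕ)) t') ↔
          ∃ p, f = some p ∧ badN N p.1 p.2 i = true ∧ isK1 (r : ℕ) c = true ∧ Mt (tailP (r : ℕ)) t := by
        constructor
        · rintro ⟨row, t', p, h0, h1, h2, h3, h4⟩
          cases row with
          | nil =>
            rw [List.nil_append] at h0
            rw [← h0, Mt_one_cons] at h4
            refine ⟨p, ?_, ?_, h4⟩
            · simpa using h2
            · simpa using h3
          | cons d row =>
            rw [List.cons_append] at h0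
            obtain ⟨rfl, rfl⟩ := List.cons.inj h0
            exact absurd (h1 c (by simp)) hc
        · rintro ⟨p, rfl, h1, h2, h3⟩
          refine ⟨[], c :: t, p, rfl, by simp, by simp, by simpa using h1, ?_⟩
          rw [Mt_one_cons]
          exact ⟨h2, h3⟩
      rw [key]
      by_cases hK : isK1 (r : ℕ) c = true
      · cases f with
        | none =>
          have hstep : (tn T N (r : ℕ) (cnt none, min i (N + 1)) c).1 = dead := by
            simp [tn, tstep, hc, hK]
          have : tn T N (r : ℕ) (cnt none, min i (N + 1)) c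
              = (dead, (tn T N (r : ℕ) (cnt none, min i (N + 1)) c).2) := by
            rw [← hstep]
          rw [this, tn_dead]
          simp
        | some p =>
          have h1 : tstep T (r : ℕ) (cnt (some p)) c (compare (min i (N + 1)) N)
              = if badN N p.1 p.2 i = true then c1 else dead := by
            rw [badN_eq, compare_min]
            simp [tstep, hc, hK]
          have hstep : tn T N (r : ℕ) (cnt (some p), min i (N + 1)) c
              = (if badN N p.1 p.2 i = true then c1 else dead,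
                (tn T N (r : ℕ) (cnt (some p), min i (N + 1)) c).2) := by
            rw [← h1]
            rfl
          rw [hstep]
          by_cases hb : badN N p.1 p.2 i = true
          · rw [if_pos hb, acc_c1]
            constructor
            · intro h
              exact ⟨p, rfl, hb, hK, h⟩
            · rintro ⟨q, hq, -, -, h⟩
              exact h
          · rw [if_neg hb, tn_dead]
            constructor
            · intro h
              exact absurd h (by simp)
            · rintro ⟨q, hq, hb', -, -⟩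
              rw [Option.some.injEq] at hq
              subst hq
              exact absurd hb' hb
      · have hstep : (tn T N (r : ℕ) (cnt f, min i (N + 1)) c).1 = dead := by
          simp [tn, tstep, hc, hK]
        have : tn T N (r : ℕ) (cnt f, min i (N + 1)) c
            = (dead, (tn T N (r : ℕ) (cnt f, min i (N + 1)) c).2) := by
          rw [← hstep]
        rw [this, tn_dead]
        simp [hK]

/-- The column words violating the counting rule in terms of threads. -/
theorem EN_iff (T : Sys Γ) (N : ℕ) (e : List (Col Γ)) :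
    e ∈ EN T N ↔ ∃ (r : Fin 2) (cA : Col Γ) (rest : List (Col Γ)), e = cA :: rest ∧
      isA (r : ℕ) cA = true ∧ (rest.foldl (tn T N (r : ℕ)) (cnt none, 0)).1 = acc := by
  constructor
  · rintro ⟨r, hr, cA, row, t, c0, rfl, hA, hrow, hc0, hb, ht⟩
    refine ⟨⟨r, hr⟩, cA, row ++ t, rfl, hA, ?_⟩
    have := (acc_cnt T N ⟨r, hr⟩ (row ++ t) none 0).2
      ⟨row, t, ph T c0, rfl, hrow, ?_, ?_, ht⟩
    · simpa using this
    · rw [hc0]
      simp
    · rw [Nat.zero_add]
      exact hb
  · rintro ⟨r, cA, rest, rfl, hA, h⟩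
    have h' : (rest.foldl (tn T N (r : ℕ)) (cnt none, min 0 (N + 1))).1 = acc := by
      simpa using h
    rw [acc_cnt] at h'
    obtain ⟨row, t', p, rfl, hrow, hp, hb, ht⟩ := h'
    rw [Option.none_or] at hp
    obtain ⟨c0, hc0, rfl⟩ := Option.map_eq_some_iff.1 hp
    refine ⟨(r : ℕ), r.2, cA, row, t', c0, rfl, hA, hrow, hc0, ?_, ht⟩
    rw [Nat.zero_add] at hb
    exact hb

/-! ### The automaton -/

/-- New control after a column. -/
def cstep (T : Sys Γ) (q : Fin 2 × TS) (c : Col Γ) (o : Ordering) : Fin 2 × TS :=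
  if isA (((0 : Fin 2) : ℕ)) c = true then (0, cnt none)
  else if isA (((1 : Fin 2) : ℕ)) c = true then (1, cnt none)
  else (q.1, tstep T (q.1 : ℕ) q.2 c o)

/-- Action on the counter after a column. -/
def cact (q : Fin 2 × TS) (c : Col Γ) : Option Bool :=
  if isA (((0 : Fin 2) : ℕ)) c = true then some false
  else if isA (((1 : Fin 2) : ℕ)) c = true then some false
  else tact (q.1 : ℕ) q.2 c

/-- The automaton. -/
def MM (T : Sys Γ) : CA (Option (Lt Γ) × (Fin 2 × TS)) (Al Γ) where
  q0 := (none, (0, dead))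
  step q a o :=
    if q.2.2 = acc then q else
      match a with
      | .inl x =>
        match q.1 with
        | none => (some x, q.2)
        | some _ => (some x, (0, dead))
      | .inr y =>
        match q.1 with
        | none => (none, (0, dead))
        | some x => (none, cstep T q.2 (x, y) o)
  act q a _ :=
    if q.2.2 = acc then none else
      match a with
      | .inl _ => none
      | .inr y =>
        match q.1 with
        | none => none
        | some x => cact q.2 (x, y)
  acc q := decide (q.2.2 = acc)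

/-- Column step of control and counter. -/
def cn (T : Sys Γ) (N : ℕ) (q : (Fin 2 × TS) × ℕ) (c : Col Γ) : (Fin 2 × TS) × ℕ :=
  (cstep T q.1 c (compare q.2 N), actC N (cact q.1 c) q.2)

/-- Suffixes in column form. -/
def Suf (w : List (Al Γ)) (P : List (Col Γ) → Prop) : Prop := ∃ u e, w = u ++ flX e ∧ P e

/-- The suffix predicate of a live thread. -/
def PL (T : Sys Γ) (N : ℕ) (r : Fin 2) (s : TS) (i : ℕ) (e : List (Col Γ)) : Prop :=
  ∃ (cA : Col Γ) (rest : List (Col Γ)), e = cA :: rest ∧ isA (r : ℕ) cA = true ∧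
    rest.foldl (tn T N (r : ℕ)) (cnt none, 0) = (s, i)

/-- The control and the counter describe the live thread of the word. -/
def J (T : Sys Γ) (N : ℕ) (w : List (Al Γ)) (q : Fin 2 × TS) (i : ℕ) : Prop :=
  ∀ (r' : Fin 2) (s' : TS) (i' : ℕ), s' ≠ dead → s' ≠ acc →
    ((q = (r', s') ∧ i = i') ↔ Suf w (PL T N r' s' i'))

theorem flX_snoc (e : List (Col Γ)) (c : Col Γ) :
    flX (e ++ [c]) = flX e ++ [Sum.inl c.1, Sum.inr c.2] := by
  simp [flX]

theorem suf_snoc (w : List (Al Γ)) (x y : Lt Γ) (P : List (Col Γ) → Prop) (hP : ¬ P []) :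
    Suf (w ++ [Sum.inl x, Sum.inr y]) P ↔ Suf w fun e => P (e ++ [(x, y)]) := by
  constructor
  · rintro ⟨u, e, h, he⟩
    rcases List.eq_nil_or_concat' e with rfl | ⟨e', c, rfl⟩
    · exact absurd he hP
    · rw [flX_snoc, ← List.append_assoc] at h
      obtain ⟨h1, h2⟩ := List.append_inj' h rfl
      simp only [List.cons.injEq, Sum.inl.injEq, Sum.inr.injEq, and_true] at h2
      obtain ⟨h2, h3⟩ := h2
      refine ⟨u, e', h1, ?_⟩
      have : c = (x, y) := Prod.ext h2.symm h3.symm
      rw [← this]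
      exact he
  · rintro ⟨u, e, rfl, he⟩
    refine ⟨u, e ++ [(x, y)], ?_, he⟩
    rw [flX_snoc, List.append_assoc]

theorem not_suf_nil (P : List (Col Γ) → Prop) (hP : ¬ P []) : ¬ Suf ([] : List (Al Γ)) P := by
  rintro ⟨u, e, h, he⟩
  obtain ⟨rfl, h2⟩ := List.append_eq_nil_iff.1 h.symm
  rcases List.eq_nil_or_concat' e with rfl | ⟨e', c, rfl⟩
  · exact hP he
  · rw [flX_snoc] at h2
    simp at h2

theorem not_suf_inl (w : List (Al Γ)) (x : Lt Γ) (P : List (Col Γ) → Prop) (hP : ¬ P []) :
    ¬ Suf (w ++ [Sum.inl x]) P := by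
  rintro ⟨u, e, h, he⟩
  rcases List.eq_nil_or_concat' e with rfl | ⟨e', c, rfl⟩
  · exact hP he
  · rw [flX_snoc, show ([Sum.inl c.1, Sum.inr c.2] : List (Al Γ)) = [Sum.inl c.1] ++ [Sum.inr c.2]
      from rfl, ← List.append_assoc, ← List.append_assoc] at h
    have := (List.append_inj' h rfl).2
    simp at this

theorem not_suf_inr (w : List (Al Γ)) (y : Lt Γ) (P : List (Col Γ) → Prop) (hP : ¬ P [])
    (hw : ∀ w' x, w ≠ w' ++ [Sum.inl x]) : ¬ Suf (w ++ [Sum.inr y]) P := by
  rintro ⟨u, e, h, he⟩
  rcases List.eq_nil_or_concat' e with rfl | ⟨e', c, rfl⟩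
  · exact hP he
  · rw [flX_snoc, show ([Sum.inl c.1, Sum.inr c.2] : List (Al Γ)) = [Sum.inl c.1] ++ [Sum.inr c.2]
      from rfl, ← List.append_assoc, ← List.append_assoc] at h
    exact hw _ _ (List.append_inj' h rfl).1

theorem not_EN_nil (T : Sys Γ) (N : ℕ) : ¬ ([] : List (Col Γ)) ∈ EN T N := by
  rw [EN_iff]
  rintro ⟨r, cA, rest, h, -⟩
  simp at h

theorem not_PL_nil (T : Sys Γ) (N : ℕ) (r : Fin 2) (s : TS) (i : ℕ) : ¬ PL T N r s i [] := by
  rintro ⟨cA, rest, h, -⟩
  simp at h

theorem kcnt_snoc (T : Sys Γ) (N : ℕ) (w : List (Al Γ)) (a : Al Γ) :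
    w ++ [a] ∈ Kcnt T N ↔ w ∈ Kcnt T N ∨ Suf (w ++ [a]) fun e => e ∈ EN T N := by
  constructor
  · rintro ⟨u, e, v, h, he⟩
    rcases List.eq_nil_or_concat' v with rfl | ⟨v', b, rfl⟩
    · right
      rw [List.append_nil] at h
      exact ⟨u, e, h, he⟩
    · left
      rw [← List.append_assoc] at h
      exact ⟨u, e, v', (List.append_inj' h rfl).1, he⟩
  · rintro (⟨u, e, v, rfl, he⟩ | ⟨u, e, h, he⟩)
    · exact ⟨u, e, v ++ [a], by simp, he⟩
    · exact ⟨u, e, [], by simpa using h, he⟩

theorem not_kcnt_nil (T : Sys Γ) (N : ℕ) : ¬ ([] : List (Al Γ)) ∈ Kcnt T N := by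
  rintro ⟨u, e, v, h, he⟩
  have h1 : ([] : List (Al Γ)) = u ++ flX e := by
    have h2 := List.append_eq_nil_iff.1 h.symm
    exact h2.1.symm
  exact not_suf_nil _ (not_EN_nil T N) ⟨u, e, h1, he⟩

/-- No live thread in a word without column suffixes. -/
theorem J_idle (T : Sys Γ) (N : ℕ) (w : List (Al Γ)) (i : ℕ)
    (hw : ∀ P : List (Col Γ) → Prop, ¬ P [] → ¬ Suf w P) : J T N w (0, dead) i := by
  intro r' s' i' h1 h2
  constructor
  · rintro ⟨h, -⟩
    rw [Prod.mk.injEq] at h
    exact absurd h.2.symm h1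
  · intro h
    exact absurd h (hw _ (not_PL_nil T N r' s' i'))

theorem tstep_A (T : Sys Γ) (r r' : Fin 2) (s : TS) (c : Col Γ) (o : Ordering)
    (h : isA (r' : ℕ) c = true) : tstep T (r : ℕ) s c o = dead := by
  obtain ⟨h1, h2, h3, h4, h5, -⟩ := A_facts r' r c h
  cases s <;> simp [tstep, h1, h2, h3, h4, h5]

theorem PL_snoc (T : Sys Γ) (N : ℕ) (r : Fin 2) (s : TS) (i : ℕ) (e : List (Col Γ)) (c : Col Γ)
    (hs : s ≠ dead) :
    PL T N r s i (e ++ [c]) ↔ (e = [] ∧ isA (r : ℕ) c = true ∧ s = cnt none ∧ i = 0) ∨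
      ∃ s0 i0, s0 ≠ dead ∧ s0 ≠ acc ∧ PL T N r s0 i0 e ∧ tn T N (r : ℕ) (s0, i0) c = (s, i) := by
  constructor
  · rintro ⟨cA, rest, h, hA, hf⟩
    rcases List.eq_nil_or_concat' rest with rfl | ⟨rest', d, rfl⟩
    · left
      cases e with
      | nil =>
        simp only [List.nil_append, List.cons.injEq, and_true] at h
        subst h
        simp only [List.foldl_nil, Prod.mk.injEq] at hf
        exact ⟨rfl, hA, hf.1.symm, hf.2.symm⟩
      | cons b e =>
        simp at h
    · right
      rw [← List.cons_append] at h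
      obtain ⟨h1, h2⟩ := List.append_inj' h rfl
      simp only [List.cons.injEq, and_true] at h2
      subst h2 h1
      rw [List.foldl_append, List.foldl_cons, List.foldl_nil] at hf
      refine ⟨(rest'.foldl (tn T N (r : ℕ)) (cnt none, 0)).1,
        (rest'.foldl (tn T N (r : ℕ)) (cnt none, 0)).2, ?_, ?_, ⟨cA, rest', rfl, hA, rfl⟩, hf⟩
      · intro h0
        apply hs
        refine (congrArg Prod.fst hf).symm.trans ?_
        simp [tn, tstep, h0]
      · intro h0
        apply hs
        refine (congrArg Prod.fst hf).symm.trans ?_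
        simp [tn, tstep, h0]
  · rintro (⟨rfl, hA, rfl, rfl⟩ | ⟨s0, i0, -, -, ⟨cA, rest, rfl, hA, hf⟩, h⟩)
    · exact ⟨c, [], rfl, hA, rfl⟩
    · refine ⟨cA, rest ++ [c], rfl, hA, ?_⟩
      rw [List.foldl_append, hf]
      exact h

theorem EN_snoc (T : Sys Γ) (N : ℕ) (e : List (Col Γ)) (c : Col Γ) :
    e ++ [c] ∈ EN T N ↔
      ∃ (r : Fin 2) (s0 : TS) (i0 : ℕ), s0 ≠ dead ∧ s0 ≠ acc ∧ PL T N r s0 i0 e ∧
        (tn T N (r : ℕ) (s0, i0) c).1 = acc := by
  rw [EN_iff]
  constructor
  · rintro ⟨r, cA, rest, h, hA, hf⟩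
    have h1 : PL T N r acc (rest.foldl (tn T N (r : ℕ)) (cnt none, 0)).2 (e ++ [c]) :=
      ⟨cA, rest, h, hA, Prod.ext hf rfl⟩
    rw [PL_snoc _ _ _ _ _ _ _ (by simp)] at h1
    rcases h1 with ⟨-, -, h2, -⟩ | ⟨s0, i0, h2, h3, h4, h5⟩
    · exact absurd h2 (by simp)
    · exact ⟨r, s0, i0, h2, h3, h4, by rw [h5]⟩
  · rintro ⟨r, s0, i0, h1, h2, h3, h4⟩
    have h5 : PL T N r acc (tn T N (r : ℕ) (s0, i0) c).2 (e ++ [c]) := by
      rw [PL_snoc _ _ _ _ _ _ _ (by simp)]
      exact Or.inr ⟨s0, i0, h1, h2, h3, Prod.ext h4 rfl⟩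
    obtain ⟨cA, rest, h, hA, hf⟩ := h5
    exact ⟨r, cA, rest, h, hA, by rw [hf]⟩

theorem cn_eq (T : Sys Γ) (N : ℕ) (q : Fin 2 × TS) (i : ℕ) (c : Col Γ) (r' : Fin 2) (s' : TS) (i' : ℕ)
    (hs : s' ≠ dead) :
    cn T N (q, i) c = ((r', s'), i') ↔
      (isA (r' : ℕ) c = true ∧ s' = cnt none ∧ i' = 0) ∨
        (q.1 = r' ∧ tn T N (r' : ℕ) (q.2, i) c = (s', i')) := by
  have hgen : ∀ r : Fin 2, isA (r : ℕ) c = true → cn T N (q, i) c = ((r, cnt none), 0) →
      (cn T N (q, i) c = ((r', s'), i') ↔
      (isA (r' : ℕ) c = true ∧ s' = cnt none ∧ i' = 0) ∨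
        (q.1 = r' ∧ tn T N (r' : ℕ) (q.2, i) c = (s', i'))) := by
    intro r hA hcn
    rw [hcn]
    constructor
    · intro h
      simp only [Prod.mk.injEq] at h
      obtain ⟨⟨rfl, rfl⟩, rfl⟩ := h
      exact Or.inl ⟨hA, rfl, rfl⟩
    · rintro (⟨hA', rfl, rfl⟩ | ⟨-, h⟩)
      · have := (A_facts r r' c hA).2.2.2.2.2 hA'
        rw [this]
      · exfalso
        apply hs
        refine (congrArg Prod.fst h).symm.trans ?_
        exact tstep_A T r' r _ _ _ hA
  by_cases h0 : isA (((0 : Fin 2) : ℕ)) c = true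
  · apply hgen 0 h0
    simp only [cn, cstep, cact, h0, if_true, actC]
  · by_cases h1 : isA (((1 : Fin 2) : ℕ)) c = true
    · apply hgen 1 h1
      simp only [cn, cstep, cact, h0, h1, if_true, actC]
      rfl
    · have hcn : cn T N (q, i) c = ((q.1, tstep T (q.1 : ℕ) q.2 c (compare i N)),
          actC N (tact (q.1 : ℕ) q.2 c) i) := by
        simp only [cn, cstep, cact, h0, h1]
        rfl
      have hA : ¬ isA (r' : ℕ) c = true := by
        intro h
        fin_cases r'
        · exact h0 h
        · exact h1 h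
      rw [hcn]
      constructor
      · intro h
        simp only [Prod.mk.injEq] at h
        obtain ⟨⟨h2, h3⟩, h4⟩ := h
        subst h2
        exact Or.inr ⟨rfl, Prod.ext h3 h4⟩
      · rintro (⟨h, -⟩ | ⟨rfl, h⟩)
        · exact absurd h hA
        · have h3 := congrArg Prod.fst h
          have h4 := congrArg Prod.snd h
          simp only [tn] at h3 h4
          rw [h3, h4]

theorem cn_acc (T : Sys Γ) (N : ℕ) (q : Fin 2 × TS) (i : ℕ) (c : Col Γ) :
    (cn T N (q, i) c).1.2 = acc ↔ (tn T N (q.1 : ℕ) (q.2, i) c).1 = acc := by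
  constructor
  · intro h
    have h1 : cn T N (q, i) c = (((cn T N (q, i) c).1.1, acc), (cn T N (q, i) c).2) := by
      rw [← h]
    rw [cn_eq T N q i c _ _ _ (by simp)] at h1
    rcases h1 with ⟨-, h2, -⟩ | ⟨h2, h3⟩
    · exact absurd h2 (by simp)
    · rw [h2, h3]
  · intro h
    have h1 : cn T N (q, i) c = ((q.1, acc), (tn T N (q.1 : ℕ) (q.2, i) c).2) := by
      rw [cn_eq T N q i c _ _ _ (by simp)]
      exact Or.inr ⟨rfl, Prod.ext h rfl⟩
    rw [h1]

theorem live_of_tn (T : Sys Γ) (N r : ℕ) (s : TS) (i : ℕ) (c : Col Γ)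
    (h : (tn T N r (s, i) c).1 ≠ dead) : s ≠ dead ∧ s ≠ acc := by
  constructor
  · rintro rfl
    exact h rfl
  · rintro rfl
    exact h rfl

theorem J_step_acc (T : Sys Γ) (N : ℕ) (w : List (Al Γ)) (q : Fin 2 × TS) (i : ℕ) (x y : Lt Γ)
    (hJ : J T N w q i) :
    (cn T N (q, i) (x, y)).1.2 = acc ↔ Suf (w ++ [Sum.inl x, Sum.inr y]) fun e => e ∈ EN T N := by
  rw [suf_snoc w x y _ (not_EN_nil T N), cn_acc]
  constructor
  · intro h
    obtain ⟨h1, h2⟩ := live_of_tn T N (q.1 : ℕ) q.2 i (x, y) (by rw [h]; simp)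
    obtain ⟨u, e, hw, he⟩ := (hJ q.1 q.2 i h1 h2).1 ⟨rfl, rfl⟩
    exact ⟨u, e, hw, (EN_snoc T N e (x, y)).2 ⟨q.1, q.2, i, h1, h2, he, h⟩⟩
  · rintro ⟨u, e, hw, he⟩
    rw [EN_snoc] at he
    obtain ⟨r, s0, i0, h1, h2, h3, h4⟩ := he
    obtain ⟨rfl, rfl⟩ := (hJ r s0 i0 h1 h2).2 ⟨u, e, hw, h3⟩
    exact h4

theorem J_step (T : Sys Γ) (N : ℕ) (w : List (Al Γ)) (q : Fin 2 × TS) (i : ℕ) (x y : Lt Γ)
    (hJ : J T N w q i) :
    J T N (w ++ [Sum.inl x, Sum.inr y]) (cn T N (q, i) (x, y)).1 (cn T N (q, i) (x, y)).2 := by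
  intro r' s' i' hs1 hs2
  rw [suf_snoc w x y _ (not_PL_nil T N r' s' i')]
  have h0 : ((cn T N (q, i) (x, y)).1 = (r', s') ∧ (cn T N (q, i) (x, y)).2 = i') ↔
      cn T N (q, i) (x, y) = ((r', s'), i') := by
    constructor
    · rintro ⟨h1, h2⟩
      exact Prod.ext h1 h2
    · intro h
      rw [h]
      exact ⟨rfl, rfl⟩
  rw [h0, cn_eq T N q i (x, y) r' s' i' hs1]
  constructor
  · rintro (⟨h1, h2, h3⟩ | ⟨rfl, h⟩)
    · exact ⟨w, [], by simp [flX],
        (PL_snoc T N r' s' i' [] (x, y) hs1).2 (Or.inl ⟨rfl, h1, h2, h3⟩)⟩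
    · obtain ⟨h1, h2⟩ := live_of_tn T N (q.1 : ℕ) q.2 i (x, y) (by rw [h]; exact hs1)
      obtain ⟨u, e, hw, he⟩ := (hJ q.1 q.2 i h1 h2).1 ⟨rfl, rfl⟩
      exact ⟨u, e, hw,
        (PL_snoc T N q.1 s' i' e (x, y) hs1).2 (Or.inr ⟨q.2, i, h1, h2, he, h⟩)⟩
  · rintro ⟨u, e, hw, he⟩
    rw [PL_snoc _ _ _ _ _ _ _ hs1] at he
    rcases he with ⟨-, h1, h2, h3⟩ | ⟨s0, i0, h1, h2, h3, h4⟩
    · exact Or.inl ⟨h1, h2, h3⟩
    · obtain ⟨rfl, rfl⟩ := (hJ r' s0 i0 h1 h2).2 ⟨u, e, hw, h3⟩
      exact Or.inr ⟨rfl, h4⟩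

/-- The invariant. -/
def Inv (T : Sys Γ) (N : ℕ) (w : List (Al Γ)) (st : (Option (Lt Γ) × (Fin 2 × TS)) × ℕ) : Prop :=
  (st.1.2.2 = acc ↔ w ∈ Kcnt T N) ∧ (st.1.2.2 ≠ acc →
    ((st.1.1 = none ∧ J T N w st.1.2 st.2 ∧ ∀ w' x, w ≠ w' ++ [Sum.inl x]) ∨
      ∃ x w', st.1.1 = some x ∧ w = w' ++ [Sum.inl x] ∧ J T N w' st.1.2 st.2))

theorem inv_step (T : Sys Γ) (N : ℕ) (w : List (Al Γ)) (p : Option (Lt Γ)) (q : Fin 2 × TS) (i : ℕ)
    (a : Al Γ) (h : Inv T N w ((p, q), i)) : Inv T N (w ++ [a]) ((MM T).next N ((p, q), i) a) := by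
  obtain ⟨h1, h2⟩ := h
  simp only at h1 h2
  by_cases hacc : q.2 = acc
  · have hn : (MM T).next N ((p, q), i) a = ((p, q), i) := by
      simp [CA.next, MM, hacc, actC]
    rw [hn]
    refine ⟨?_, fun h => absurd hacc h⟩
    simp only
    constructor
    · intro _
      rw [kcnt_snoc]
      exact Or.inl (h1.1 hacc)
    · intro _
      exact hacc
  · have hw : w ∉ Kcnt T N := fun h => hacc (h1.2 h)
    have h2' := h2 hacc
    cases a with
    | inl x =>
      have hk : w ++ [Sum.inl x] ∉ Kcnt T N := by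
        rw [kcnt_snoc]
        rintro (h | h)
        · exact hw h
        · exact not_suf_inl w x _ (not_EN_nil T N) h
      rcases h2' with ⟨rfl, hJ, -⟩ | ⟨x0, w', rfl, rfl, hJ⟩
      · have hn : (MM T).next N ((none, q), i) (Sum.inl x) = ((some x, q), i) := by
          simp [CA.next, MM, hacc, actC]
        rw [hn]
        refine ⟨⟨fun h => absurd h hacc, fun h => absurd h hk⟩, fun _ => Or.inr ?_⟩
        exact ⟨x, w, rfl, rfl, hJ⟩
      · have hn : (MM T).next N ((some x0, q), i) (Sum.inl x) = ((some x, (0, dead)), i) := by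
          simp [CA.next, MM, hacc, actC]
        rw [hn]
        refine ⟨⟨fun h => absurd h (by simp), fun h => absurd h hk⟩, fun _ => Or.inr ?_⟩
        exact ⟨x, w' ++ [Sum.inl x0], rfl, rfl, J_idle T N _ _ fun P hP => not_suf_inl w' x0 P hP⟩
    | inr y =>
      rcases h2' with ⟨rfl, hJ, hw'⟩ | ⟨x, w', rfl, rfl, hJ⟩
      · have hk : w ++ [Sum.inr y] ∉ Kcnt T N := by
          rw [kcnt_snoc]
          rintro (h | h)
          · exact hw h
          · exact not_suf_inr w y _ (not_EN_nil T N) hw' h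
        have hn : (MM T).next N ((none, q), i) (Sum.inr y) = ((none, (0, dead)), i) := by
          simp [CA.next, MM, hacc, actC]
        rw [hn]
        refine ⟨⟨fun h => absurd h (by simp), fun h => absurd h hk⟩, fun _ => Or.inl ?_⟩
        refine ⟨rfl, J_idle T N _ _ fun P hP => not_suf_inr w y P hP hw', ?_⟩
        intro w'' x h
        have := (List.append_inj' h rfl).2
        simp at this
      · have hn : (MM T).next N ((some x, q), i) (Sum.inr y)
            = ((none, (cn T N (q, i) (x, y)).1), (cn T N (q, i) (x, y)).2) := by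
          simp [CA.next, MM, hacc, cn]
        rw [hn]
        have happ : w' ++ [Sum.inl x] ++ [Sum.inr y] = w' ++ [Sum.inl x, Sum.inr y] := by simp
        refine ⟨?_, fun _ => Or.inl ⟨rfl, ?_, ?_⟩⟩
        · simp only
          rw [J_step_acc T N w' q i x y hJ, kcnt_snoc, happ]
          constructor
          · intro h
            exact Or.inr h
          · rintro (h | h)
            · exact absurd h hw
            · exact h
        · rw [happ]
          exact J_step T N w' q i x y hJ
        · intro w'' x h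
          have := (List.append_inj' h rfl).2
          simp at this

theorem inv_run (T : Sys Γ) (N : ℕ) (w : List (Al Γ)) : Inv T N w ((MM T).run N w) := by
  induction w using List.reverseRecOn with
  | nil =>
    refine ⟨⟨fun h => absurd h (by simp [CA.run, MM]), fun h => absurd h (not_kcnt_nil T N)⟩,
      fun _ => Or.inl ⟨rfl, J_idle T N _ _ fun P hP => not_suf_nil P hP, by simp⟩⟩
  | append_singleton w a ih =>
    have h : (MM T).run N (w ++ [a]) = (MM T).next N ((MM T).run N w) a := by
      simp [CA.run, List.foldl_append]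
    rw [h]
    exact inv_step T N w _ _ _ a ih

end CntF

theorem exists_cntAuto {Γ : Type} [Fintype Γ] [DecidableEq Γ] (T : Sys Γ) :
    ∃ (Q : Type) (_ : Fintype Q) (_ : DecidableEq Q) (M : CA Q (Al Γ)),
      ∀ N w, M.Accepts N w ↔ w ∈ Kcnt T N := by
  refine ⟨Option (Lt Γ) × (Fin 2 × CntF.TS), inferInstance, inferInstance, CntF.MM T, ?_⟩
  intro N w
  rw [← (CntF.inv_run T N w).1]
  unfold CA.Accepts
  simp only [CntF.MM, decide_eq_true_eq]

end Pool.Agent.H81.Dec

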