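import Mathlib
import Pool.Agent.H81.Dec.CA

set_option autoImplicit false

/-!
# Automata with one saturating counter have computable finite tables
-/

namespace Pool.Agent.H81.Dec

/-- A function of three bounded arguments extends to a primitive recursive function. -/
theorem exists_primrec_three (m k l : ℕ) (g : ℕ → ℕ → ℕ → ℕ) :
    ∃ f : ℕ → ℕ → ℕ → ℕ, Primrec (fun p : ℕ × ℕ × ℕ => f p.1 p.2.1 p.2.2) ∧
      ∀ a < m, ∀ b < k, ∀ c < l, f a b c = g a b c := by
  let L : List (List (List ℕ)) :=
    (List.range m).map fun a => (List.range k).map fun b => (List.range l).map fun c => g a b c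
  refine ⟨fun a b c => ((L.getD a []).getD b []).getD c 0, ?_, ?_⟩
  · exact (Primrec.list_getD 0).comp ((Primrec.list_getD []).comp ((Primrec.list_getD []).comp
      (Primrec.const L) Primrec.fst) (Primrec.fst.comp Primrec.snd)) (Primrec.snd.comp Primrec.snd)
  · intro a ha b hb c hc
    simp [L, List.getD, ha, hb, hc]

/-- The code of the comparison with `N`. -/
def ordCode (i N : ℕ) : ℕ := if i < N then 0 else if i = N then 1 else 2

/-- Decoding of comparisons. -/
def ordDec : ℕ → Ordering
  | 0 => .lt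
  | 1 => .eq
  | _ => .gt

theorem ordDec_ordCode (i N : ℕ) : ordDec (ordCode i N) = compare i N := by
  unfold ordCode
  split_ifs with h1 h2
  · exact (compare_lt_iff_lt.2 h1).symm
  · exact (compare_eq_iff_eq.2 h2).symm
  · exact (compare_gt_iff_gt.2 (by omega)).symm

theorem ordCode_lt (i N : ℕ) : ordCode i N < 3 := by
  unfold ordCode
  split_ifs <;> omega

/-- The code of an action. -/
def actCode : Option Bool → ℕ
  | none => 0
  | some false => 1
  | some true => 2

/-- The action with a given code. -/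
def doAct (N x i : ℕ) : ℕ := if x = 0 then i else if x = 1 then 0 else min (i + 1) (N + 1)

theorem doAct_actCode (N : ℕ) (x : Option Bool) (i : ℕ) : doAct N (actCode x) i = actC N x i := by
  rcases x with _ | _ | _ <;> simp [doAct, actCode, actC]

theorem exists_code {k : ℕ} {Q : Type} [Fintype Q] [DecidableEq Q] (M : CA Q (Fin k)) :
    ∃ f : ℕ → List (List ℕ) × List ℕ, Computable f ∧
      ∀ N (w : List (Fin k)), CodeAcc (f N) w ↔ M.Accepts N w := by
  classical
  -- an enumeration of the states with the initial state first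
  obtain ⟨m, e, he0⟩ : ∃ (m : ℕ) (e : Q ≃ Fin m), (e M.q0 : ℕ) = 0 := by
    have hm : 0 < Fintype.card Q := Fintype.card_pos_iff.2 ⟨M.q0⟩
    let e0 : Q ≃ Fin (Fintype.card Q) := Fintype.equivFin Q
    refine ⟨Fintype.card Q, e0.trans (Equiv.swap (e0 M.q0) ⟨0, hm⟩), ?_⟩
    simp
  -- the state with a given number
  let dq : ℕ → Q := fun x => if h : x < m then e.symm ⟨x, h⟩ else M.q0
  have hdq : ∀ q : Q, dq (e q : ℕ) = q := by
    intro q
    simp [dq]
  obtain ⟨F, hF, hF'⟩ := exists_primrec_three m k 3 fun x a o =>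
    if h : a < k then (e (M.step (dq x) ⟨a, h⟩ (ordDec o)) : ℕ) else 0
  obtain ⟨G, hG, hG'⟩ := exists_primrec_three m k 3 fun x a o =>
    if h : a < k then actCode (M.act (dq x) ⟨a, h⟩ (ordDec o)) else 0
  obtain ⟨H, hH, hH'⟩ := exists_primrec_three m 1 1 fun x _ _ =>
    if M.acc (dq x) = true then 1 else 0
  let enc : ℕ → ℕ → ℕ → ℕ := fun N s a =>
    F (s / (N + 2)) a (ordCode (s % (N + 2)) N) * (N + 2) +
      doAct N (G (s / (N + 2)) a (ordCode (s % (N + 2)) N)) (s % (N + 2))
  let f : ℕ → List (List ℕ) × List ℕ := fun N =>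
    ((List.range (m * (N + 2))).map fun s => (List.range k).map fun a => enc N s a,
     (List.range (m * (N + 2))).filterMap fun s => if H (s / (N + 2)) 0 0 = 1 then some s else none)
  refine ⟨f, ?_, ?_⟩
  · -- primitive recursiveness
    have hN2 : Primrec fun N : ℕ => N + 2 := (Primrec.nat_add.comp Primrec.id (Primrec.const 2))
    have hordP : Primrec fun p : ℕ × ℕ => ordCode p.1 p.2 := by
      unfold ordCode
      exact Primrec.ite (PrimrecRel.comp Primrec.nat_lt Primrec.fst Primrec.snd) (Primrec.const 0)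
        (Primrec.ite (PrimrecRel.comp Primrec.eq Primrec.fst Primrec.snd) (Primrec.const 1)
          (Primrec.const 2))
    have hdoP : Primrec fun p : ℕ × ℕ × ℕ => doAct p.1 p.2.1 p.2.2 := by
      unfold doAct
      exact Primrec.ite (PrimrecRel.comp Primrec.eq (Primrec.fst.comp Primrec.snd) (Primrec.const 0))
        (Primrec.snd.comp Primrec.snd)
        (Primrec.ite (PrimrecRel.comp Primrec.eq (Primrec.fst.comp Primrec.snd) (Primrec.const 1))
          (Primrec.const 0)
          (Primrec.nat_min.comp (Primrec.succ.comp (Primrec.snd.comp Primrec.snd))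
            (Primrec.succ.comp Primrec.fst)))
    have hencP : Primrec fun p : ℕ × ℕ × ℕ => enc p.1 p.2.1 p.2.2 := by
      have h1 : Primrec fun p : ℕ × ℕ × ℕ => p.1 + 2 := hN2.comp Primrec.fst
      have h2 : Primrec fun p : ℕ × ℕ × ℕ => p.2.1 / (p.1 + 2) :=
        Primrec.nat_div.comp (Primrec.fst.comp Primrec.snd) h1
      have h3 : Primrec fun p : ℕ × ℕ × ℕ => p.2.1 % (p.1 + 2) :=
        Primrec.nat_mod.comp (Primrec.fst.comp Primrec.snd) h1
      have h4 : Primrec fun p : ℕ × ℕ × ℕ => ordCode (p.2.1 % (p.1 + 2)) p.1 :=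
        hordP.comp (Primrec.pair h3 Primrec.fst)
      have h5 : Primrec fun p : ℕ × ℕ × ℕ => p.2.2 := Primrec.snd.comp Primrec.snd
      have h6 : Primrec fun p : ℕ × ℕ × ℕ =>
          F (p.2.1 / (p.1 + 2)) p.2.2 (ordCode (p.2.1 % (p.1 + 2)) p.1) :=
        hF.comp (Primrec.pair h2 (Primrec.pair h5 h4))
      have h7 : Primrec fun p : ℕ × ℕ × ℕ =>
          G (p.2.1 / (p.1 + 2)) p.2.2 (ordCode (p.2.1 % (p.1 + 2)) p.1) :=
        hG.comp (Primrec.pair h2 (Primrec.pair h5 h4))
      exact Primrec.nat_add.comp (Primrec.nat_mul.comp h6 h1)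
        (hdoP.comp (Primrec.pair Primrec.fst (Primrec.pair h7 h3)))
    have hlen : Primrec fun N : ℕ => List.range (m * (N + 2)) :=
      Primrec.list_range.comp (Primrec.nat_mul.comp (Primrec.const m) hN2)
    have hfst : Primrec fun N : ℕ =>
        (List.range (m * (N + 2))).map fun s => (List.range k).map fun a => enc N s a := by
      refine Primrec.list_map hlen ?_
      refine Primrec.list_map (Primrec.const (List.range k)) ?_
      exact hencP.comp (Primrec.pair (Primrec.fst.comp Primrec.fst)
        (Primrec.pair (Primrec.snd.comp Primrec.fst) Primrec.snd))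
    have hsnd : Primrec fun N : ℕ => (List.range (m * (N + 2))).filterMap fun s =>
        if H (s / (N + 2)) 0 0 = 1 then some s else none := by
      refine Primrec.listFilterMap hlen ?_
      have h8 : Primrec fun p : ℕ × ℕ => H (p.2 / (p.1 + 2)) 0 0 :=
        hH.comp (Primrec.pair (Primrec.nat_div.comp Primrec.snd (hN2.comp Primrec.fst))
          (Primrec.pair (Primrec.const 0) (Primrec.const 0)))
      exact Primrec.ite (PrimrecRel.comp Primrec.eq h8 (Primrec.const 1))
        (Primrec.option_some.comp Primrec.snd) (Primrec.const none)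
    exact (Primrec.pair hfst hsnd).to_comp
  · intro N w
    -- bounds
    have hcode : ∀ (q : Q) (i : ℕ), i ≤ N + 1 → (e q : ℕ) * (N + 2) + i < m * (N + 2) := by
      intro q i hi
      have h1 : (e q : ℕ) + 1 ≤ m := (e q).2
      calc (e q : ℕ) * (N + 2) + i < (e q : ℕ) * (N + 2) + (N + 2) := by omega
        _ = ((e q : ℕ) + 1) * (N + 2) := by ring
        _ ≤ m * (N + 2) := Nat.mul_le_mul_right _ h1
    have hdiv : ∀ (q : Q) (i : ℕ), i ≤ N + 1 → ((e q : ℕ) * (N + 2) + i) / (N + 2) = e q := by
      intro q i hi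
      rw [Nat.add_comm, Nat.add_mul_div_right _ _ (by omega), Nat.div_eq_of_lt (by omega)]
      omega
    have hmod : ∀ (q : Q) (i : ℕ), i ≤ N + 1 → ((e q : ℕ) * (N + 2) + i) % (N + 2) = i := by
      intro q i hi
      rw [Nat.add_comm, Nat.add_mul_mod_self_right, Nat.mod_eq_of_lt (by omega)]
    have hstep : ∀ (c : Q × ℕ), c.2 ≤ N + 1 → ∀ a : Fin k,
        (((f N).1.getD ((e c.1 : ℕ) * (N + 2) + c.2) []).getD (a : ℕ) 0) =
          (e (M.next N c a).1 : ℕ) * (N + 2) + (M.next N c a).2 ∧ (M.next N c a).2 ≤ N + 1 := by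
      intro c hc a
      have h1 := hcode c.1 c.2 hc
      have h2 : ((f N).1.getD ((e c.1 : ℕ) * (N + 2) + c.2) []).getD (a : ℕ) 0 =
          enc N ((e c.1 : ℕ) * (N + 2) + c.2) a := by
        simp [f, List.getD, h1]
      rw [h2]
      have ho := ordCode_lt c.2 N
      have h3 := hF' (e c.1) (e c.1).2 a a.2 _ ho
      have h4 := hG' (e c.1) (e c.1).2 a a.2 _ ho
      rw [dif_pos a.2, hdq, ordDec_ordCode] at h3 h4
      simp only [enc]
      rw [hdiv c.1 c.2 hc, hmod c.1 c.2 hc, h3, h4, doAct_actCode]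
      refine ⟨rfl, ?_⟩
      simp only [CA.next]
      rcases M.act c.1 a (compare c.2 N) with _ | _ | _
      · exact hc
      · exact Nat.zero_le _
      · exact Nat.min_le_right _ _
    have hrun : ∀ (w : List (Fin k)) (c : Q × ℕ), c.2 ≤ N + 1 →
        w.foldl (fun (q : ℕ) (a : Fin k) => ((f N).1.getD q []).getD (a : ℕ) 0) ((e c.1 : ℕ) * (N + 2) + c.2) =
          (e (w.foldl (M.next N) c).1 : ℕ) * (N + 2) + (w.foldl (M.next N) c).2 ∧
          (w.foldl (M.next N) c).2 ≤ N + 1 := by
      intro w
      induction w with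
      | nil => intro c hc; exact ⟨rfl, hc⟩
      | cons a w ih =>
        intro c hc
        obtain ⟨h1, h2⟩ := hstep c hc a
        simp only [List.foldl_cons]
        rw [h1]
        exact ih _ h2
    obtain ⟨h1, h2⟩ := hrun w (M.q0, 0) (Nat.zero_le _)
    have h0 : (e M.q0 : ℕ) * (N + 2) + 0 = 0 := by rw [he0]; simp
    simp only at h1
    rw [h0] at h1
    have hcoe : CodeAcc (f N) w ↔
        w.foldl (fun (q : ℕ) (a : Fin k) => ((f N).1.getD q []).getD (a : ℕ) 0) 0 ∈ (f N).2 := by
      unfold CodeAcc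
      simp only [bind_pure_comp, List.map_eq_map, List.foldl_map]
    rw [hcoe, h1]
    unfold CA.Accepts CA.run
    set c := w.foldl (M.next N) (M.q0, 0) with hcdef
    have h3 := hcode c.1 c.2 h2
    have h4 := hH' (e c.1) (e c.1).2 0 (by norm_num) 0 (by norm_num)
    rw [hdq] at h4
    constructor
    · intro h
      simp only [f, List.mem_filterMap] at h
      obtain ⟨s, hs, hs'⟩ := h
      by_cases hc : H (s / (N + 2)) 0 0 = 1
      · rw [if_pos hc] at hs'
        have : s = (e c.1 : ℕ) * (N + 2) + c.2 := Option.some_injective _ hs'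
        rw [this, hdiv c.1 c.2 h2, h4] at hc
        by_contra hacc
        rw [if_neg hacc] at hc
        exact absurd hc (by norm_num)
      · rw [if_neg hc] at hs'
        exact absurd hs' (by simp)
    · intro h
      simp only [f, List.mem_filterMap]
      refine ⟨_, List.mem_range.2 h3, ?_⟩
      rw [hdiv c.1 c.2 h2, h4, if_pos h, if_pos rfl]

end Pool.Agent.H81.Dec
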