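import Mathlib
import Pool.Agent.H81.Dec.Basic

set_option autoImplicit false

/-!
# Avoiding pairs have the four-adic structure
-/

namespace Pool.Agent.H81.Dec

variable {Γ : Type}

/-- The word has the four-adic structure up to level `p`, with phase `a`. -/
def Str (α : ℤ → Lt Γ) (p : ℕ) (a : ℤ) : Prop :=
  ∀ q < p, ∀ j : ℤ, j % 4 ≠ 0 → (α (a + 4 ^ q * j)).1 = lab q j

theorem Str.mono {α : ℤ → Lt Γ} {p p' : ℕ} {a : ℤ} (h : Str α p a) (hp : p' ≤ p) : Str α p' a :=
  fun q hq => h q (lt_of_lt_of_le hq hp)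

theorem hid_iff (c : Col Γ) : hid c = true ↔ c.1.1 = c.2.1 := by simp [hid]
theorem sp_iff (s t : S) (c : Col Γ) : sp s t c = true ↔ c.1.1 = s ∧ c.2.1 = t := by simp [sp]
theorem isK1_iff (r : ℕ) (c : Col Γ) : isK1 r c = true ↔ c.1.1 = lab r 1 ∧ c.2.1 = lab r 2 :=
  sp_iff _ _ _
theorem isK2_iff (r : ℕ) (c : Col Γ) : isK2 r c = true ↔ c.1.1 = lab r 2 ∧ c.2.1 = lab r 3 :=
  sp_iff _ _ _
theorem isA_iff (r : ℕ) (c : Col Γ) : isA r c = true ↔ c.1.1 = lab (r + 1) 1 ∧ c.2.1 = lab r 1 :=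
  sp_iff _ _ _
theorem isZ_iff (r : ℕ) (c : Col Γ) : isZ r c = true ↔ c.1.1 = lab r 3 ∧ c.2.1 = lab (r + 1) 1 :=
  sp_iff _ _ _
theorem isC_iff (r : ℕ) (c : Col Γ) : isC r c = true ↔ c.1.1 = lab (r + 1) 2 ∧ c.2.1 = lab r 1 :=
  sp_iff _ _ _

theorem shift_mod {q m : ℕ} (hq : q < m) (i s : ℤ) : (i + 4 ^ (m - q) * s) % 4 = i % 4 := by
  obtain ⟨d, hd⟩ : ∃ d, m - q = d + 1 := ⟨m - q - 1, by omega⟩
  rw [hd, pow_succ, show i + 4 ^ d * 4 * s = i + 4 * (4 ^ d * s) by ring]
  omega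

theorem pow_split {q m : ℕ} (hq : q < m) (s : ℤ) : (4 : ℤ) ^ m * s = 4 ^ q * (4 ^ (m - q) * s) := by
  rw [← mul_assoc, ← pow_add]
  congr 2
  omega

section fixed

variable {α β : ℤ → Lt Γ} {m : ℕ} {a b l s : ℤ}

theorem hid_low (hα : Str α m a) (hβ : Str β m b) (hl : l = b - a + 4 ^ m * s) {q : ℕ} (hq : q < m)
    {i : ℤ} (hi : i % 4 ≠ 0) : (α (a + 4 ^ q * i)).1 = (β (a + 4 ^ q * i + l)).1 := by
  rw [hα q hq i hi, show a + 4 ^ q * i + l = b + 4 ^ q * (i + 4 ^ (m - q) * s) by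
    rw [hl, pow_split hq s]; ring, hβ q hq _ (by rw [shift_mod hq]; exact hi), lab_eq_iff,
    shift_mod hq]
  exact ⟨rfl, rfl⟩

theorem hid_between (hα : Str α m a) (hβ : Str β m b) (hl : l = b - a + 4 ^ m * s) {j t : ℤ}
    (h1 : a + 4 ^ m * j < t) (h2 : t < a + 4 ^ m * (j + 1)) :
    hid (α t, β (t + l)) = true := by
  obtain ⟨q, hq, i, hi, ht⟩ := not_mul_of_between (m := m) (j := j) (t := t - a) (by linarith)
    (by linarith)
  rw [hid_iff, show t = a + 4 ^ q * i by linarith]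
  exact hid_low hα hβ hl hq hi

theorem lab_top (hα : Str α (m + 1) a) {j : ℤ} (hj : j % 4 ≠ 0) :
    (α (a + 4 ^ m * j)).1 = lab m j := hα m (by omega) j hj

theorem lab_top' (hβ : Str β (m + 1) b) (hl : l = b - a + 4 ^ m * s) {j : ℤ}
    (hj : (j + s) % 4 ≠ 0) : (β (a + 4 ^ m * j + l)).1 = lab m (j + s) := by
  rw [show a + 4 ^ m * j + l = b + 4 ^ m * (j + s) by rw [hl]; ring]
  exact hβ m (by omega) _ hj

/-- Application of the parent rule. -/
theorem r2_app (hav : AvS α β) {t2 t1 tK tE : ℤ} (h21 : t2 < t1) (h1K : t1 < tK) (hKE : tK < tE)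
    (v2 : (α t2).1 ≠ (β (t2 + l)).1) (v1 : (α t1).1 ≠ (β (t1 + l)).1)
    (k1 : isK1 m (α tK, β (tK + l)) = true) (k2 : isK2 m (α tE, β (tE + l)) = true)
    (b1 : ∀ t, t2 < t → t < t1 → hid (α t, β (t + l)) = true)
    (b2 : ∀ t, t1 < t → t < tK → hid (α t, β (t + l)) = true)
    (b3 : ∀ t, tK < t → t < tE → hid (α t, β (t + l)) = true) :
    badPar m ((α t2).1, (β (t2 + l)).1) ((α t1).1, (β (t1 + l)).1) (α tK).2.1 = false := by
  by_contra hne
  rw [Bool.not_eq_false] at hne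
  refine hav.2 _ (patR2_mem m (v2 := ((α t2).1, (β (t2 + l)).1)) (v1 := ((α t1).1, (β (t1 + l)).1))
    v2 v1 hne) l t2 (tE + 1) ?_
  refine ⟨by simp [sp], t1, by omega, fun t h h' => b1 t (by omega) h', ?_⟩
  refine ⟨by simp [sp], tK, by omega, fun t h h' => b2 t (by omega) h', ?_⟩
  refine ⟨by simp [isK1p, k1], tE, by omega, fun t h h' => b3 t (by omega) h', ?_⟩
  exact ⟨k2, rfl⟩

/-- The column at a `K1` position. -/
theorem k1_col (hα : Str α (m + 1) a) (hβ : Str β (m + 1) b) (hl : l = b - a + 4 ^ m * s)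
    (hs : s % 4 = 1) {j : ℤ} (hj : j % 4 = 1) :
    isK1 m (α (a + 4 ^ m * j), β (a + 4 ^ m * j + l)) = true := by
  rw [isK1_iff]
  constructor
  · show (α (a + 4 ^ m * j)).1 = _
    rw [lab_top hα (by omega), lab_eq_iff]; omega
  · show (β (a + 4 ^ m * j + l)).1 = _
    rw [lab_top' hβ hl (by omega), lab_eq_iff]; omega

theorem k2_col (hα : Str α (m + 1) a) (hβ : Str β (m + 1) b) (hl : l = b - a + 4 ^ m * s)
    (hs : s % 4 = 1) {j : ℤ} (hj : j % 4 = 2) :
    isK2 m (α (a + 4 ^ m * j), β (a + 4 ^ m * j + l)) = true := by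
  rw [isK2_iff]
  constructor
  · show (α (a + 4 ^ m * j)).1 = _
    rw [lab_top hα (by omega), lab_eq_iff]; omega
  · show (β (a + 4 ^ m * j + l)).1 = _
    rw [lab_top' hβ hl (by omega), lab_eq_iff]; omega

/-- Between two `K1` positions there is no `K1` column. -/
theorem not_k1 (hα : Str α (m + 1) a) (hβ : Str β (m + 1) b) (hl : l = b - a + 4 ^ m * s)
    (hs : s % 4 = 1) {j t : ℤ} (hj : j % 4 = 1) (h1 : a + 4 ^ m * j < t)
    (h2 : t < a + 4 ^ m * (j + 4)) : isK1 m (α t, β (t + l)) = false := by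
  rw [← Bool.not_eq_true, isK1_iff]
  rintro ⟨e1, e2⟩
  simp only at e1 e2
  rcases dec4 m (t - a) with ⟨i, hi⟩ | ⟨q, hq, i, hi, ht⟩
  · have ht : t = a + 4 ^ m * i := by linarith
    have hp : (0 : ℤ) < 4 ^ m := by positivity
    have h3 : j < i := lt_of_mul_lt_mul_left (by linarith) hp.le
    have h4 : i < j + 4 := lt_of_mul_lt_mul_left (by linarith) hp.le
    rw [ht] at e1 e2
    by_cases hi4 : i % 4 = 0
    · rw [lab_top' hβ hl (by omega), lab_eq_iff] at e2
      omega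
    · rw [lab_top hα hi4, lab_eq_iff] at e1
      omega
  · have ht' : t = a + 4 ^ q * i := by linarith
    have := hid_low (hα.mono (by omega)) (hβ.mono (by omega)) hl hq hi
    rw [← ht'] at this
    rw [e1, e2, lab_eq_iff] at this
    omega

/-- The window rule gives the phase of the parent labels. -/
theorem window_app (hav : AvS α β) (hα : Str α (m + 1) a) (hβ : Str β (m + 1) b)
    (hl : l = b - a + 4 ^ m * s) (hs : s % 4 = 1) (i : ℤ) :
    W4 (m + 1) fun k : Fin 4 => (α (a + 4 ^ m * (4 * (i + (k : ℕ)) + 1))).2.1 := by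
  by_contra hne
  have hp : (0 : ℤ) < 4 ^ m := by positivity
  have K1 : ∀ j : ℤ, j % 4 = 1 → isK1 m (α (a + 4 ^ m * j), β (a + 4 ^ m * j + l)) = true :=
    fun j hj => k1_col hα hβ hl hs hj
  have K2 : ∀ j : ℤ, j % 4 = 1 →
      isK2 m (α (a + 4 ^ m * (j + 1)), β (a + 4 ^ m * (j + 1) + l)) = true :=
    fun j hj => k2_col hα hβ hl hs (by omega)
  have B : ∀ j t : ℤ, a + 4 ^ m * j < t → t < a + 4 ^ m * (j + 1) → hid (α t, β (t + l)) = true :=
    fun j t h1 h2 => hid_between (hα.mono (by omega)) (hβ.mono (by omega)) hl h1 h2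
  have NK : ∀ j t : ℤ, j % 4 = 1 → a + 4 ^ m * j < t → t < a + 4 ^ m * (j + 4) →
      (!isK1 m (α t, β (t + l))) = true := fun j t hj h1 h2 => by
    rw [not_k1 hα hβ hl hs hj h1 h2]; rfl
  refine hav.2 _ (patR1_mem m hne) l (a + 4 ^ m * (4 * i + 1)) (a + 4 ^ m * (4 * i + 14) + 1) ?_
  have mono : ∀ j j' : ℤ, j < j' → a + 4 ^ m * j < a + 4 ^ m * j' := fun j j' h => by
    have := mul_lt_mul_of_pos_left h hp
    linarith
  have e0 : ((0 : Fin 4) : ℕ) = 0 := rfl
  have e1 : ((1 : Fin 4) : ℕ) = 1 := rfl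
  have e2 : ((2 : Fin 4) : ℕ) = 2 := rfl
  have e3 : ((3 : Fin 4) : ℕ) = 3 := rfl
  refine ⟨?_, a + 4 ^ m * (4 * i + 2), ?_, ?_, ?_, a + 4 ^ m * (4 * i + 5), ?_, ?_, ?_,
    a + 4 ^ m * (4 * i + 6), ?_, ?_, ?_, a + 4 ^ m * (4 * i + 9), ?_, ?_, ?_,
    a + 4 ^ m * (4 * i + 10), ?_, ?_, ?_, a + 4 ^ m * (4 * i + 13), ?_, ?_, ?_,
    a + 4 ^ m * (4 * i + 14), ?_, ?_, ?_, rfl⟩
  · rw [isK1p, K1 _ (by omega), Bool.true_and, decide_eq_true_iff]
    simp only [e0, Nat.cast_zero, add_zero]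
  · have := mono (4 * i + 1) (4 * i + 2) (by omega); omega
  · intro t h h'
    exact B (4 * i + 1) t (by omega) (by rw [show 4 * i + 1 + 1 = 4 * i + 2 by ring]; exact h')
  · have := K2 (4 * i + 1) (by omega)
    rwa [show 4 * i + 1 + 1 = 4 * i + 2 by ring] at this
  · have := mono (4 * i + 2) (4 * i + 5) (by omega); omega
  · intro t h h'
    have := mono (4 * i + 1) (4 * i + 2) (by omega)
    exact NK (4 * i + 1) t (by omega) (by omega) (by rw [show 4 * i + 1 + 4 = 4 * i + 5 by ring]; exact h')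
  · rw [isK1p, K1 _ (by omega), Bool.true_and, decide_eq_true_iff]
    simp only [e1, Nat.cast_one]
    rw [show 4 * (i + 1) + 1 = 4 * i + 5 by ring]
  · have := mono (4 * i + 5) (4 * i + 6) (by omega); omega
  · intro t h h'
    exact B (4 * i + 5) t (by omega) (by rw [show 4 * i + 5 + 1 = 4 * i + 6 by ring]; exact h')
  · have := K2 (4 * i + 5) (by omega)
    rwa [show 4 * i + 5 + 1 = 4 * i + 6 by ring] at this
  · have := mono (4 * i + 6) (4 * i + 9) (by omega); omega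
  · intro t h h'
    have := mono (4 * i + 5) (4 * i + 6) (by omega)
    exact NK (4 * i + 5) t (by omega) (by omega) (by rw [show 4 * i + 5 + 4 = 4 * i + 9 by ring]; exact h')
  · rw [isK1p, K1 _ (by omega), Bool.true_and, decide_eq_true_iff]
    simp only [e2, Nat.cast_ofNat]
    rw [show 4 * (i + 2) + 1 = 4 * i + 9 by ring]
  · have := mono (4 * i + 9) (4 * i + 10) (by omega); omega
  · intro t h h'
    exact B (4 * i + 9) t (by omega) (by rw [show 4 * i + 9 + 1 = 4 * i + 10 by ring]; exact h')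
  · have := K2 (4 * i + 9) (by omega)
    rwa [show 4 * i + 9 + 1 = 4 * i + 10 by ring] at this
  · have := mono (4 * i + 10) (4 * i + 13) (by omega); omega
  · intro t h h'
    have := mono (4 * i + 9) (4 * i + 10) (by omega)
    exact NK (4 * i + 9) t (by omega) (by omega) (by rw [show 4 * i + 9 + 4 = 4 * i + 13 by ring]; exact h')
  · rw [isK1p, K1 _ (by omega), Bool.true_and, decide_eq_true_iff]
    simp only [e3, Nat.cast_ofNat]
    rw [show 4 * (i + 3) + 1 = 4 * i + 13 by ring]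
  · have := mono (4 * i + 13) (4 * i + 14) (by omega); omega
  · intro t h h'
    exact B (4 * i + 13) t (by omega) (by rw [show 4 * i + 13 + 1 = 4 * i + 14 by ring]; exact h')
  · have := K2 (4 * i + 13) (by omega)
    rwa [show 4 * i + 13 + 1 = 4 * i + 14 by ring] at this

theorem hid_join {c : ℤ → Col Γ} {p q r : ℤ} (h1 : ∀ t, p < t → t < q → hid (c t) = true)
    (h2 : hid (c q) = true) (h3 : ∀ t, q < t → t < r → hid (c t) = true) :
    ∀ t, p < t → t < r → hid (c t) = true := fun t ht ht' => by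
  rcases lt_trichotomy t q with h | h | h
  · exact h1 t ht h
  · rw [h]; exact h2
  · exact h3 t h ht'

/-- The parent label of a `K1` letter, by cases on the two preceding columns. -/
theorem par_cases (hav : AvS α β) (hα : Str α (m + 1) a) (hβ : Str β (m + 1) b)
    (hl : l = b - a + 4 ^ m * s) (hs : s % 4 = 1) (i : ℤ) {x y ξ : S}
    (hx : (α (a + 4 ^ m * (4 * i))).1 = x) (hy : (β (a + 4 ^ m * (4 * i - 1) + l)).1 = y)
    (hξ : (α (a + 4 ^ m * (4 * i + 1))).2.1 = ξ) :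
    (x ≠ lab m 1 → x ≠ lab m 3 → ξ = x) ∧
    (x = lab m 3 → y ≠ lab m 3 → ξ = lab m 3) ∧
    (x = lab m 3 → y = lab m 3 → ξ = lab m 1 ∨ ξ = lab m 3) ∧
    (x = lab m 1 → y ≠ lab m 1 → ξ = lab m 1) ∧
    (x = lab m 1 → y = lab m 1 → ξ = lab m 1 ∨ ξ = lab m 3) := by
  have hp : (0 : ℤ) < 4 ^ m := by positivity
  have B : ∀ j j' : ℤ, j' = j + 1 → ∀ t, a + 4 ^ m * j < t → t < a + 4 ^ m * j' →
      hid (α t, β (t + l)) = true := fun j j' hj t h1 h2 =>
    hid_between (hα.mono (by omega)) (hβ.mono (by omega)) hl h1 (by rw [← hj]; exact h2)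
  have mono : ∀ j j' : ℤ, j < j' → a + 4 ^ m * j < a + 4 ^ m * j' := fun j j' h => by
    have := mul_lt_mul_of_pos_left h hp
    linarith
  have K1 : isK1 m (α (a + 4 ^ m * (4 * i + 1)), β (a + 4 ^ m * (4 * i + 1) + l)) = true :=
    k1_col hα hβ hl hs (by omega)
  have K2 : isK2 m (α (a + 4 ^ m * (4 * i + 2)), β (a + 4 ^ m * (4 * i + 2) + l)) = true :=
    k2_col hα hβ hl hs (by omega)
  have A1 : (α (a + 4 ^ m * (4 * i - 3))).1 = lab m 1 := by
    rw [lab_top hα (by omega), lab_eq_iff]; omega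
  have A1' : (β (a + 4 ^ m * (4 * i - 3) + l)).1 = lab m 2 := by
    rw [lab_top' hβ hl (by omega), lab_eq_iff]; omega
  have A2 : (α (a + 4 ^ m * (4 * i - 2))).1 = lab m 2 := by
    rw [lab_top hα (by omega), lab_eq_iff]; omega
  have A2' : (β (a + 4 ^ m * (4 * i - 2) + l)).1 = lab m 3 := by
    rw [lab_top' hβ hl (by omega), lab_eq_iff]; omega
  have A3 : (α (a + 4 ^ m * (4 * i - 1))).1 = lab m 3 := by
    rw [lab_top hα (by omega), lab_eq_iff]; omega
  have A4' : (β (a + 4 ^ m * (4 * i) + l)).1 = lab m 1 := by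
    rw [lab_top' hβ hl (by omega), lab_eq_iff]; omega
  have n12 : lab m 1 ≠ lab m 2 := lab_ne (by omega)
  have n13 : lab m 1 ≠ lab m 3 := lab_ne (by omega)
  have n23 : lab m 2 ≠ lab m 3 := lab_ne (by omega)
  have o1 := mono (4 * i - 3) (4 * i - 2) (by omega)
  have o2 := mono (4 * i - 2) (4 * i - 1) (by omega)
  have o3 := mono (4 * i - 1) (4 * i) (by omega)
  have o4 := mono (4 * i) (4 * i + 1) (by omega)
  have o5 := mono (4 * i + 1) (4 * i + 2) (by omega)
  have bE := B (4 * i + 1) (4 * i + 2) (by ring)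
  have b0 := B (4 * i - 3) (4 * i - 2) (by ring)
  have b1 := B (4 * i - 2) (4 * i - 1) (by ring)
  have b2 := B (4 * i - 1) (4 * i) (by ring)
  have b3 := B (4 * i) (4 * i + 1) (by ring)
  -- if `x` is visible and `y` is visible
  have c11 : x ≠ lab m 1 → y ≠ lab m 3 → badPar m (lab m 3, y) (x, lab m 1) ξ = false := by
    intro h1 h2
    have := r2_app (m := m) hav (l := l) o3 o4 o5 (by rw [A3, hy]; exact h2.symm)
      (by rw [hx, A4']; exact h1) K1 K2 b2 b3 bE
    rwa [A3, hy, hx, A4', hξ] at this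
  have c10 : x ≠ lab m 1 → y = lab m 3 →
      badPar m (lab m 2, lab m 3) (x, lab m 1) ξ = false := by
    intro h1 h2
    have hid' : hid (α (a + 4 ^ m * (4 * i - 1)), β (a + 4 ^ m * (4 * i - 1) + l)) = true := by
      rw [hid_iff]; show (α _).1 = (β _).1; rw [A3, hy, h2]
    have := r2_app (m := m) hav (l := l) (o2.trans o3) o4 o5 (by rw [A2, A2']; exact n23)
      (by rw [hx, A4']; exact h1) K1 K2 (hid_join (c := fun t => (α t, β (t + l))) b1 hid' b2) b3 bE
    rwa [A2, A2', hx, A4', hξ] at this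
  have hidA : x = lab m 1 → hid (α (a + 4 ^ m * (4 * i)), β (a + 4 ^ m * (4 * i) + l)) = true := by
    intro h; rw [hid_iff]; show (α _).1 = (β _).1; rw [hx, A4', h]
  have c01 : x = lab m 1 → y ≠ lab m 3 →
      badPar m (lab m 2, lab m 3) (lab m 3, y) ξ = false := by
    intro h1 h2
    have := r2_app (m := m) hav (l := l) o2 (o3.trans o4) o5 (by rw [A2, A2']; exact n23)
      (by rw [A3, hy]; exact h2.symm) K1 K2 b1
      (hid_join (c := fun t => (α t, β (t + l))) b2 (hidA h1) b3) bE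
    rwa [A2, A2', A3, hy, hξ] at this
  have c00 : x = lab m 1 → y = lab m 3 →
      badPar m (lab m 1, lab m 2) (lab m 2, lab m 3) ξ = false := by
    intro h1 h2
    have hid' : hid (α (a + 4 ^ m * (4 * i - 1)), β (a + 4 ^ m * (4 * i - 1) + l)) = true := by
      rw [hid_iff]; show (α _).1 = (β _).1; rw [A3, hy, h2]
    have := r2_app (m := m) hav (l := l) o1 (o2.trans (o3.trans o4)) o5
      (by rw [A1, A1']; exact n12) (by rw [A2, A2']; exact n23) K1 K2 b0
      (hid_join (c := fun t => (α t, β (t + l)))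
        (hid_join (c := fun t => (α t, β (t + l))) b1 hid' b2) (hidA h1) b3) bE
    rwa [A1, A1', A2, A2', hξ] at this
  have n21 : lab m 2 ≠ lab m 1 := n12.symm
  have n31 : lab m 3 ≠ lab m 1 := n13.symm
  have n32 : lab m 3 ≠ lab m 2 := n23.symm
  refine ⟨?_, ?_, ?_, ?_, ?_⟩
  · intro h1 h3
    by_cases hy3 : y = lab m 3
    · have := c10 h1 hy3
      simpa [badPar, h3] using this
    · have := c11 h1 hy3
      simpa [badPar, h3] using this
  · intro h3 hy3
    have := c11 (by rw [h3]; exact n31) hy3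
    simpa [badPar, h3] using this
  · intro h3 hy3
    have := c10 (by rw [h3]; exact n31) hy3
    simp [badPar, h3, n23] at this
    tauto
  · intro h1 hy1
    by_cases hy3 : y = lab m 3
    · have := c00 h1 hy3
      simpa [badPar, n31, n23, n32] using this
    · have := c01 h1 hy3
      simpa [badPar, hy1, n31] using this
  · intro h1 hy1
    have := c01 h1 (by rw [hy1]; exact n13)
    simp [badPar, hy1, n23] at this
    tauto

end fixed

end Pool.Agent.H81.Dec
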