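import Mathlib
import Pool.Agent.H81.Dec.Structure

set_option autoImplicit false

/-!
# All levels of the structure, parent labels, aperiodicity
-/

namespace Pool.Agent.H81.Dec

variable {Γ : Type} {α β : ℤ → Lt Γ}

theorem str_one (h : ∀ t : ℤ, W4 0 fun i : Fin 4 => (α (t + (i : ℕ))).1) : ∃ a, Str α 1 a := by
  obtain ⟨φ, hφ⟩ := global_phase 0 (fun t => (α t).1) h
  refine ⟨φ, fun q hq j hj => ?_⟩
  obtain rfl : q = 0 := by omega
  have := hφ (φ + 4 ^ 0 * j) (by simpa using hj)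
  rw [this, lab_eq_iff]
  exact ⟨rfl, by simp⟩

theorem str_next (hav : AvS α β) {m : ℕ} {a b : ℤ} (hα : Str α (m + 1) a) (hβ : Str β (m + 1) b) :
    ∃ a', Str α (m + 2) a' := by
  have hs : (1 : ℤ) % 4 = 1 := by norm_num
  have hl : b - a + 4 ^ m * 1 = b - a + 4 ^ m * 1 := rfl
  obtain ⟨φ, hφ⟩ := global_phase (m + 1) (fun i => (α (a + 4 ^ m * (4 * i + 1))).2.1)
    (fun i => window_app hav hα hβ hl hs i)
  have key : ∀ i, (i - φ) % 4 ≠ 0 → (α (a + 4 ^ m * (4 * i))).1 = lab (m + 1) (i - φ) := by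
    intro i hi
    have hξ := hφ i hi
    obtain ⟨c1, c2, c3, c4, c5⟩ := par_cases hav hα hβ hl hs i rfl rfl hξ
    have n3 : lab (m + 1) (i - φ) ≠ lab m 3 := lab_ne (by omega)
    have n1 : lab (m + 1) (i - φ) ≠ lab m 1 := lab_ne (by omega)
    by_cases hx1 : (α (a + 4 ^ m * (4 * i))).1 = lab m 1
    · exfalso
      by_cases hy : (β (a + 4 ^ m * (4 * i - 1) + (b - a + 4 ^ m * 1))).1 = lab m 1
      · rcases c5 hx1 hy with h | h
        · exact n1 h
        · exact n3 h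
      · exact n1 (c4 hx1 hy)
    · by_cases hx3 : (α (a + 4 ^ m * (4 * i))).1 = lab m 3
      · exfalso
        by_cases hy : (β (a + 4 ^ m * (4 * i - 1) + (b - a + 4 ^ m * 1))).1 = lab m 3
        · rcases c3 hx3 hy with h | h
          · exact n1 h
          · exact n3 h
        · exact n3 (c2 hx3 hy)
      · exact (c1 hx1 hx3).symm
  refine ⟨a + 4 ^ (m + 1) * φ, fun q hq j hj => ?_⟩
  rcases Nat.lt_succ_iff_lt_or_eq.1 hq with hq | rfl
  · have := hα q (by omega) (j + 4 ^ (m + 1 - q) * φ) (by rw [shift_mod (by omega)]; exact hj)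
    rw [show a + 4 ^ (m + 1) * φ + 4 ^ q * j = a + 4 ^ q * (j + 4 ^ (m + 1 - q) * φ) by
      rw [pow_split (q := q) (m := m + 1) (by omega) φ]; ring, this, lab_eq_iff,
      shift_mod (by omega)]
    exact ⟨rfl, rfl⟩
  · have := key (φ + j) (by simpa using hj)
    rw [show a + 4 ^ (m + 1) * φ + 4 ^ (m + 1) * j = a + 4 ^ m * (4 * (φ + j)) by ring, this,
      lab_eq_iff]
    exact ⟨rfl, by simp⟩

theorem str_all (h1 : AvS α β) (h2 : AvS β α) (p : ℕ) : ∃ a b, Str α (p + 1) a ∧ Str β (p + 1) b := by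
  induction p with
  | zero =>
    obtain ⟨a, ha⟩ := str_one h1.1
    obtain ⟨b, hb⟩ := str_one h2.1
    exact ⟨a, b, ha, hb⟩
  | succ p ih =>
    obtain ⟨a, b, ha, hb⟩ := ih
    obtain ⟨a', ha'⟩ := str_next h1 ha hb
    obtain ⟨b', hb'⟩ := str_next h2 hb ha
    exact ⟨a', b', ha', hb'⟩

/-- Parent labels are correct. -/
theorem par_correct (hav : AvS α β) {m : ℕ} {a b : ℤ} (hα : Str α (m + 1) a)
    (hβ : Str β (m + 2) b) (i : ℤ) :
    (α (a + 4 ^ m * (4 * i + 1))).2.1 = (α (a + 4 ^ m * (4 * i))).1 := by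
  have hs : (1 + 4 * (1 - i)) % 4 = 1 := by omega
  have hl : b - a + 4 ^ m * (1 + 4 * (1 - i)) = b - a + 4 ^ m * (1 + 4 * (1 - i)) := rfl
  have hy : (β (a + 4 ^ m * (4 * i - 1) + (b - a + 4 ^ m * (1 + 4 * (1 - i))))).1 = lab (m + 1) 1 := by
    rw [show a + 4 ^ m * (4 * i - 1) + (b - a + 4 ^ m * (1 + 4 * (1 - i))) = b + 4 ^ (m + 1) * 1 by
      ring]
    exact hβ (m + 1) (by omega) 1 (by norm_num)
  obtain ⟨c1, c2, c3, c4, c5⟩ := par_cases hav hα (hβ.mono (by omega)) hl hs i rfl hy rfl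
  have n3 : lab (m + 1) 1 ≠ lab m 3 := lab_ne (by omega)
  have n1 : lab (m + 1) 1 ≠ lab m 1 := lab_ne (by omega)
  by_cases hx1 : (α (a + 4 ^ m * (4 * i))).1 = lab m 1
  · rw [hx1]; exact c4 hx1 n1
  · by_cases hx3 : (α (a + 4 ^ m * (4 * i))).1 = lab m 3
    · rw [hx3]; exact c2 hx3 n3
    · exact c1 hx1 hx3

theorem exists_val {P : ℤ} (hP : P ≠ 0) : ∃ (q : ℕ) (j : ℤ), j % 4 ≠ 0 ∧ P = 4 ^ q * j := by
  rcases dec4 P.natAbs P with ⟨j, hj⟩ | ⟨q, -, j, hj, h⟩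
  · exfalso
    have hj0 : j ≠ 0 := by rintro rfl; exact hP (by simpa using hj)
    have h1 : P.natAbs = 4 ^ P.natAbs * j.natAbs := by
      conv_lhs => rw [hj]
      rw [Int.natAbs_mul, Int.natAbs_pow]
      rfl
    have h2 : 1 ≤ j.natAbs := Nat.one_le_iff_ne_zero.2 (Int.natAbs_ne_zero.2 hj0)
    have h3 : P.natAbs < 4 ^ P.natAbs := Nat.lt_pow_self (by norm_num)
    have h4 : 4 ^ P.natAbs * 1 ≤ 4 ^ P.natAbs * j.natAbs := Nat.mul_le_mul_left _ h2
    omega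
  · exact ⟨q, j, hj, h⟩

/-- Words with the full structure are not periodic. -/
theorem aperiodic (h1 : AvS α β) (h2 : AvS β α) {P : ℤ} (hP : P ≠ 0) : ¬ ∀ t, α (t + P) = α t := by
  intro hper
  obtain ⟨q, p, hp, rfl⟩ := exists_val hP
  obtain ⟨a, b, ha, -⟩ := str_all h1 h2 q
  by_cases h3 : p % 4 = 3
  · have e1 := ha q (by omega) 2 (by norm_num)
    have e2 := ha q (by omega) (2 + p) (by omega)
    rw [show a + 4 ^ q * (2 + p) = a + 4 ^ q * 2 + 4 ^ q * p by ring, hper, e1, lab_eq_iff] at e2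
    omega
  · have e1 := ha q (by omega) 1 (by norm_num)
    have e2 := ha q (by omega) (1 + p) (by omega)
    rw [show a + 4 ^ q * (1 + p) = a + 4 ^ q * 1 + 4 ^ q * p by ring, hper, e1, lab_eq_iff] at e2
    omega

end Pool.Agent.H81.Dec
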