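import Mathlib
import Pool.Agent.H81.Dec.Stages

set_option autoImplicit false

/-!
# Rows of an avoiding pair form a chain
-/

namespace Pool.Agent.H81.Dec

variable {Γ : Type} {α β : ℤ → Lt Γ}

theorem isCell_iff (r : ℕ) (c : Col Γ) : isCell r c = true ↔
    c.1.1 = c.2.1 ∧ c.1.1.2 = 1 ∧ c.1.2.1 = lab (r + 1) 1 ∧ c.2.2.1 = lab r 1 := by
  simp [isCell, hid, and_assoc]

theorem lab_snd_eq_one {m : ℕ} {d : ℤ} : (lab m d).2 = 1 ↔ d % 4 = 1 := by
  unfold lab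
  rw [Fin.ext_iff]
  show (d % 4).toNat = 1 ↔ _
  have h1 := Int.emod_nonneg d (show (4 : ℤ) ≠ 0 by norm_num)
  omega

/-- Setting: two rows, at `g = a + 4 ^ (m + 1)` on the first tape and `g' = b + 4 ^ m` on the second
tape, compared at lag `l`. -/
structure Rows (α β : ℤ → Lt Γ) (m : ℕ) (a b l : ℤ) : Prop where
  hα : Str α (m + 2) a
  hβ : Str β (m + 1) b
  hl : l = b - a + 4 ^ m * (-3)
  pα : ∀ p < m, ∀ i : ℤ, (α (a + 4 ^ p * (4 * i + 1))).2.1 = (α (a + 4 ^ p * (4 * i))).1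
  pβ : ∀ p < m, ∀ i : ℤ, (β (b + 4 ^ p * (4 * i + 1))).2.1 = (β (b + 4 ^ p * (4 * i))).1

theorem rows_of (h1 : AvS α β) (h2 : AvS β α) {m : ℕ} {a b : ℤ} (hα : Str α (m + 2) a)
    (hβ : Str β (m + 2) b) : Rows α β m a b (b - a + 4 ^ m * (-3)) where
  hα := hα
  hβ := hβ.mono (by omega)
  hl := rfl
  pα p hp i := by
    exact par_correct h1 (hα.mono (by omega)) (hβ.mono (by omega)) i
  pβ p hp i := by
    exact par_correct h2 (hβ.mono (by omega)) (hα.mono (by omega)) i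

section rows

variable {m : ℕ} {a b l : ℤ} (R : Rows α β m a b l)

include R

theorem Rows.colA : isA m (α (a + 4 ^ m * 4), β (a + 4 ^ m * 4 + l)) = true := by
  rw [isA_iff]
  constructor
  · show (α (a + 4 ^ m * 4)).1 = _
    rw [show a + 4 ^ m * 4 = a + 4 ^ (m + 1) * 1 by ring]
    exact R.hα (m + 1) (by omega) 1 (by norm_num)
  · show (β (a + 4 ^ m * 4 + l)).1 = _
    rw [lab_top' (R.hβ.mono (by omega)) R.hl (by norm_num), lab_eq_iff]
    exact ⟨rfl, by norm_num⟩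

theorem Rows.colK1 : isK1 m (α (a + 4 ^ m * 5), β (a + 4 ^ m * 5 + l)) = true :=
  k1_col (R.hα.mono (by omega)) (R.hβ.mono (by omega)) R.hl (by norm_num) (by norm_num)

theorem Rows.colK2 : isK2 m (α (a + 4 ^ m * 6), β (a + 4 ^ m * 6 + l)) = true :=
  k2_col (R.hα.mono (by omega)) (R.hβ.mono (by omega)) R.hl (by norm_num) (by norm_num)

theorem Rows.colZ (hβ' : Str β (m + 2) b) :
    isZ m (α (a + 4 ^ m * 7), β (a + 4 ^ m * 7 + l)) = true := by
  rw [isZ_iff]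
  constructor
  · show (α (a + 4 ^ m * 7)).1 = _
    rw [lab_top (R.hα.mono (by omega)) (by norm_num), lab_eq_iff]
    exact ⟨rfl, by norm_num⟩
  · show (β (a + 4 ^ m * 7 + l)).1 = _
    rw [R.hl, show a + 4 ^ m * 7 + (b - a + 4 ^ m * -3) = b + 4 ^ (m + 1) * 1 by ring]
    exact hβ' (m + 1) (by omega) 1 (by norm_num)

theorem Rows.colC : isC m (α (a + 4 ^ m * 8), β (a + 4 ^ m * 8 + l)) = true := by
  rw [isC_iff]
  constructor
  · show (α (a + 4 ^ m * 8)).1 = _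
    rw [show a + 4 ^ m * 8 = a + 4 ^ (m + 1) * 2 by ring]
    exact R.hα (m + 1) (by omega) 2 (by norm_num)
  · show (β (a + 4 ^ m * 8 + l)).1 = _
    rw [lab_top' (R.hβ.mono (by omega)) R.hl (by norm_num), lab_eq_iff]
    exact ⟨rfl, by norm_num⟩

theorem Rows.hidB {j j' t : ℤ} (hj : j' = j + 1) (h1 : a + 4 ^ m * j < t) (h2 : t < a + 4 ^ m * j') :
    hid (α t, β (t + l)) = true :=
  hid_between (R.hα.mono (by omega)) (R.hβ.mono (by omega)) R.hl h1 (by rw [← hj]; exact h2)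

/-- The positions of the cells. -/
theorem Rows.cell_iff {t : ℤ} (h1 : 0 < t) (h2 : t < 4 ^ m) :
    isCell m (α (a + 4 ^ m * 4 + t), β (a + 4 ^ m * 4 + t + l)) = true ↔ ∃ p < m, t = 4 ^ p := by
  obtain ⟨q, hq, j, hj, ht⟩ := not_mul_of_between (m := m) (j := 0) (t := t) (by simpa using h1)
    (by simpa using h2)
  have hp : (0 : ℤ) < 4 ^ q := by positivity
  have hpm : (4 : ℤ) ^ m = 4 ^ q * (4 * 4 ^ (m - q - 1)) := by
    rw [← pow_succ', ← pow_add]; congr 1; omega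
  have hj0 : 0 < j := by
    rw [ht] at h1; exact pos_of_mul_pos_right (by simpa using h1) hp.le |> fun h => h
  rw [isCell_iff]
  have eα : a + 4 ^ m * 4 + t = a + 4 ^ q * (j + 4 ^ (m - q) * 4) := by
    rw [ht, pow_split hq 4]; ring
  have hlα : (α (a + 4 ^ m * 4 + t)).1 = lab q j := by
    rw [eα, R.hα q (by omega) _ (by rw [shift_mod hq]; exact hj), lab_eq_iff, shift_mod hq]
    exact ⟨rfl, rfl⟩
  constructor
  · rintro ⟨-, e2, e3, e4⟩
    simp only at e2 e3 e4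
    refine ⟨q, hq, ?_⟩
    rw [hlα, lab_snd_eq_one] at e2
    -- `j = 4 u + 1`
    obtain ⟨u, hu⟩ : ∃ u, j = 4 * u + 1 := ⟨j / 4, by omega⟩
    have hmq : (4 : ℤ) ^ (m - q) = 4 * 4 ^ (m - q - 1) := by
      rw [← pow_succ']; congr 1; omega
    by_cases hu0 : u = 0
    · rw [ht, hu, hu0]; ring
    · exfalso
      have hu1 : 0 < u := by omega
      -- parents
      have f3 := R.pα q hq (u + 4 ^ (m - q - 1) * 4)
      have f4 := R.pβ q hq (u + 4 ^ (m - q - 1))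
      have g3 : a + 4 ^ m * 4 + t = a + 4 ^ q * (4 * (u + 4 ^ (m - q - 1) * 4) + 1) := by
        rw [ht, hu, hpm]; ring
      have g4 : a + 4 ^ m * 4 + t + l = b + 4 ^ q * (4 * (u + 4 ^ (m - q - 1)) + 1) := by
        rw [ht, hu, R.hl, hpm]; ring
      rw [← g3, e3] at f3
      rw [← g4, e4] at f4
      have hb := R.hidB (j := 4) (j' := 5) (t := a + 4 ^ m * 4 + 4 ^ q * (4 * u)) (by norm_num)
        (by have := mul_pos hp (mul_pos (show (0 : ℤ) < 4 by norm_num) hu1); linarith)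
        (by
          have : 4 ^ q * (4 * u) < t := by rw [ht, hu]; exact mul_lt_mul_of_pos_left (by omega) hp
          linarith)
      rw [hid_iff] at hb
      simp only at hb
      rw [show a + 4 ^ m * 4 + 4 ^ q * (4 * u) = a + 4 ^ q * (4 * (u + 4 ^ (m - q - 1) * 4)) by
        rw [hpm]; ring, ← f3, show a + 4 ^ q * (4 * (u + 4 ^ (m - q - 1) * 4)) + l =
        b + 4 ^ q * (4 * (u + 4 ^ (m - q - 1))) by rw [R.hl, hpm]; ring, ← f4, lab_eq_iff] at hb
      omega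
  · rintro ⟨p, hpm', htp⟩
    have hqp : q = p ∧ j = 1 := by
      rw [ht] at htp
      rcases lt_trichotomy q p with h | h | h
      · exfalso
        have := pow_split h 1
        rw [mul_one] at this
        rw [this] at htp
        have h3 := mul_left_cancel₀ hp.ne' htp
        obtain ⟨d, hd⟩ : ∃ d, p - q = d + 1 := ⟨p - q - 1, by omega⟩
        rw [hd, pow_succ] at h3
        apply hj
        rw [h3]
        omega
      · refine ⟨h, ?_⟩
        rw [h] at htp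
        have hp' : (0 : ℤ) < 4 ^ p := by positivity
        exact mul_left_cancel₀ hp'.ne' (by rw [htp, mul_one])
      · exfalso
        have h4 := pow_split h j
        have hp' : (0 : ℤ) < 4 ^ p := by positivity
        rw [h4] at htp
        have h3 : 4 ^ (q - p) * j = 1 := mul_left_cancel₀ hp'.ne' (by rw [htp, mul_one])
        obtain ⟨d, hd⟩ : ∃ d, q - p = d + 1 := ⟨q - p - 1, by omega⟩
        rw [hd, pow_succ] at h3
        have : (4 : ℤ) ∣ 1 := ⟨4 ^ d * j, by rw [← h3]; ring⟩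
        norm_num at this
    obtain ⟨rfl, rfl⟩ := hqp
    have hb := R.hidB (j := 4) (j' := 5) (t := a + 4 ^ m * 4 + t) (by norm_num) (by linarith)
        (by linarith)
    rw [hid_iff] at hb
    refine ⟨hb, ?_, ?_, ?_⟩
    · show (α (a + 4 ^ m * 4 + t)).1.2 = 1
      rw [hlα, lab_snd_eq_one]; norm_num
    · show (α (a + 4 ^ m * 4 + t)).2.1 = _
      have f3 := R.pα q hq (4 ^ (m - q - 1) * 4)
      rw [show a + 4 ^ m * 4 + t = a + 4 ^ q * (4 * (4 ^ (m - q - 1) * 4) + 1) by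
        rw [ht, hpm]; ring, f3, show a + 4 ^ q * (4 * (4 ^ (m - q - 1) * 4)) = a + 4 ^ (m + 1) * 1 by
        rw [pow_succ, hpm]; ring]
      exact R.hα (m + 1) (by omega) 1 (by norm_num)
    · show (β (a + 4 ^ m * 4 + t + l)).2.1 = _
      have f4 := R.pβ q hq (4 ^ (m - q - 1))
      rw [show a + 4 ^ m * 4 + t + l = b + 4 ^ q * (4 * 4 ^ (m - q - 1) + 1) by
        rw [ht, R.hl, hpm]; ring, f4, show b + 4 ^ q * (4 * 4 ^ (m - q - 1)) = b + 4 ^ m * 1 by
        rw [hpm]; ring]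
      exact R.hβ m (by omega) 1 (by norm_num)

theorem Rows.occ_tail (hβ' : Str β (m + 2) b) :
    Occ (fun t => (α t, β (t + l))) (tailP m) (a + 4 ^ m * 5 + 1) (a + 4 ^ m * 8 + 1) := by
  have hp : (0 : ℤ) < 4 ^ m := by positivity
  refine ⟨a + 4 ^ m * 6, by linarith, fun t h h' => R.hidB (j := 5) (j' := 6) (by norm_num)
    (by linarith) h', R.colK2, a + 4 ^ m * 7, by linarith, fun t h h' => R.hidB (j := 6) (j' := 7)
    (by norm_num) (by linarith) h', R.colZ hβ', a + 4 ^ m * 8, by linarith, fun t h h' =>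
    R.hidB (j := 7) (j' := 8) (by norm_num) (by linarith) h', R.colC, rfl⟩

theorem Rows.hidRow {t : ℤ} (h1 : a + 4 ^ m * 4 < t) (h2 : t < a + 4 ^ m * 5) :
    hid (α t, β (t + l)) = true :=
  R.hidB (j := 4) (j' := 5) (by norm_num) h1 h2

theorem Rows.nc_of {t : ℤ} (h1 : a + 4 ^ m * 4 < t) (h2 : t < a + 4 ^ m * 5)
    (h3 : ∀ p < m, t ≠ a + 4 ^ m * 4 + 4 ^ p) : nc m (α t, β (t + l)) = true := by
  have hc : isCell m (α t, β (t + l)) = false := by
    rw [← Bool.not_eq_true]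
    intro h
    have := (R.cell_iff (t := t - (a + 4 ^ m * 4)) (by linarith) (by linarith)).1
      (by rw [show a + 4 ^ m * 4 + (t - (a + 4 ^ m * 4)) = t by ring]; exact h)
    obtain ⟨p, hp, e⟩ := this
    exact h3 p hp (by linarith)
  rw [nc, R.hidRow h1 h2, hc]
  rfl

theorem Rows.cell_at {p : ℕ} (hp : p < m) :
    isCell m (α (a + 4 ^ m * 4 + 4 ^ p), β (a + 4 ^ m * 4 + 4 ^ p + l)) = true := by
  refine (R.cell_iff (t := 4 ^ p) (by positivity) ?_).2 ⟨p, hp, rfl⟩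
  exact pow_lt_pow_right₀ (by norm_num) hp

theorem Rows.seed (T : Sys Γ) [DecidableEq Γ] (hβ' : Str β (m + 2) b) (hc : AvC T α β) (hm : m = 0) :
    T.seed (α (a + 4 ^ m * 4 + 4 ^ m)).2.2 = true := by
  by_contra hne
  refine hc _ (patSeed_mem T m) l (a + 4 ^ m * 4) (a + 4 ^ m * 8 + 1) ?_
  refine ⟨R.colA, a + 4 ^ m * 5, ?_, ?_, ?_, R.occ_tail hβ'⟩
  · rw [hm]; norm_num
  · intro t h h'
    rw [hm] at h h'
    norm_num at h h'
    omega
  · show (isK1 m _ && !T.seed (α (a + 4 ^ m * 5)).2.2) = true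
    rw [R.colK1, show a + 4 ^ m * 5 = a + 4 ^ m * 4 + 4 ^ m by ring, Bool.eq_false_iff.2 hne]
    rfl

theorem Rows.start (T : Sys Γ) [DecidableEq Γ] (hβ' : Str β (m + 2) b) (hc : AvC T α β) (hm : 0 < m) :
    T.start (β (a + 4 ^ m * 4 + 4 ^ 0 + l)).2.2 (α (a + 4 ^ m * 4 + 4 ^ 0)).2.2 = true := by
  by_contra hne
  have hp : (4 : ℤ) ^ 0 < 4 ^ m := pow_lt_pow_right₀ (by norm_num) hm
  refine hc _ (patStart_mem T m) l (a + 4 ^ m * 4) (a + 4 ^ m * 8 + 1) ?_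
  refine ⟨R.colA, a + 4 ^ m * 4 + 4 ^ 0, ?_, ?_, ?_, a + 4 ^ m * 5, ?_, ?_, R.colK1, R.occ_tail hβ'⟩
  · norm_num
  · intro t h h'
    rw [pow_zero] at h'
    omega
  · show (isCell m _ && !T.start _ _) = true
    rw [R.cell_at hm, Bool.eq_false_iff.2 hne]
    rfl
  · rw [pow_zero] at hp ⊢; linarith
  · intro t h h'
    exact R.hidRow (by rw [pow_zero] at h; linarith) h'

theorem Rows.loc (T : Sys Γ) [DecidableEq Γ] (hβ' : Str β (m + 2) b) (hc : AvC T α β) {p : ℕ} (hm : p + 1 < m) :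
    T.loc (β (a + 4 ^ m * 4 + 4 ^ p + l)).2.2 (α (a + 4 ^ m * 4 + 4 ^ p)).2.2
      (β (a + 4 ^ m * 4 + 4 ^ (p + 1) + l)).2.2 (α (a + 4 ^ m * 4 + 4 ^ (p + 1))).2.2 = true := by
  by_contra hne
  have hp0 : (0 : ℤ) < 4 ^ p := by positivity
  have hp1 : (4 : ℤ) ^ p < 4 ^ (p + 1) := pow_lt_pow_right₀ (by norm_num) (by omega)
  have hp2 : (4 : ℤ) ^ (p + 1) < 4 ^ m := pow_lt_pow_right₀ (by norm_num) hm
  refine hc _ (patLoc_mem T m (β (a + 4 ^ m * 4 + 4 ^ p + l)).2.2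
    (α (a + 4 ^ m * 4 + 4 ^ p)).2.2) l (a + 4 ^ m * 4) (a + 4 ^ m * 8 + 1) ?_
  refine ⟨R.colA, a + 4 ^ m * 4 + 4 ^ p, ?_, ?_, ?_, a + 4 ^ m * 4 + 4 ^ (p + 1), ?_, ?_, ?_,
    a + 4 ^ m * 5, ?_, ?_, R.colK1, R.occ_tail hβ'⟩
  · linarith
  · intro t h h'
    exact R.hidRow (by linarith) (by linarith)
  · show (isCell m _ && decide _ && decide _) = true
    rw [R.cell_at (by omega)]
    simp
  · linarith
  · intro t h h'
    refine R.nc_of (by linarith) (by linarith) fun q hq e => ?_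
    rw [e] at h h'
    have h3 : (4 : ℤ) ^ p < 4 ^ q := by linarith
    have h4 : (4 : ℤ) ^ q < 4 ^ (p + 1) := by linarith
    have h5 := (pow_lt_pow_iff_right₀ (show (1 : ℤ) < 4 by norm_num)).1 h3
    have h6 := (pow_lt_pow_iff_right₀ (show (1 : ℤ) < 4 by norm_num)).1 h4
    omega
  · show (isCell m _ && !T.loc _ _ _ _) = true
    rw [R.cell_at hm, Bool.eq_false_iff.2 hne]
    rfl
  · linarith
  · intro t h h'
    exact R.hidRow (by linarith) h'

theorem Rows.last (T : Sys Γ) [DecidableEq Γ] (hβ' : Str β (m + 2) b) (hc : AvC T α β) (hm : 0 < m) :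
    T.last (β (a + 4 ^ m * 4 + 4 ^ (m - 1) + l)).2.2 (α (a + 4 ^ m * 4 + 4 ^ (m - 1))).2.2
      (α (a + 4 ^ m * 4 + 4 ^ m)).2.2 = true := by
  by_contra hne
  have hp0 : (0 : ℤ) < 4 ^ (m - 1) := by positivity
  have hp2 : (4 : ℤ) ^ (m - 1) < 4 ^ m := pow_lt_pow_right₀ (by norm_num) (by omega)
  refine hc _ (patLast_mem T m (β (a + 4 ^ m * 4 + 4 ^ (m - 1) + l)).2.2
    (α (a + 4 ^ m * 4 + 4 ^ (m - 1))).2.2) l (a + 4 ^ m * 4) (a + 4 ^ m * 8 + 1) ?_
  refine ⟨R.colA, a + 4 ^ m * 4 + 4 ^ (m - 1), ?_, ?_, ?_, a + 4 ^ m * 5, ?_, ?_, ?_, R.occ_tail hβ'⟩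
  · linarith
  · intro t h h'
    exact R.hidRow (by linarith) (by linarith)
  · show (isCell m _ && decide _ && decide _) = true
    rw [R.cell_at (by omega)]
    simp
  · linarith
  · intro t h h'
    refine R.nc_of (by linarith) (by linarith) fun q hq e => ?_
    rw [e] at h
    have h3 : (4 : ℤ) ^ (m - 1) < 4 ^ q := by linarith
    have h5 := (pow_lt_pow_iff_right₀ (show (1 : ℤ) < 4 by norm_num)).1 h3
    omega
  · show (isK1 m _ && !T.last _ _ (α (a + 4 ^ m * 5)).2.2) = true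
    rw [R.colK1, show a + 4 ^ m * 5 = a + 4 ^ m * 4 + 4 ^ m by ring, Bool.eq_false_iff.2 hne]
    rfl

/-- The contents of the cells of the row at `g`. -/
def rowOf (α : ℤ → Lt Γ) (g : ℤ) (p : ℕ) : Γ := (α (g + 4 ^ p)).2.2

omit R in
theorem rows_stp (T : Sys Γ) [DecidableEq Γ] (h1 : AvS α β) (h2 : AvS β α) (hc : AvC T α β)
    {m : ℕ} {a b : ℤ} (hα : Str α (m + 2) a) (hβ : Str β (m + 2) b) :
    Stp T m (rowOf β (b + 4 ^ m)) (rowOf α (a + 4 ^ (m + 1))) := by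
  have R := rows_of h1 h2 hα hβ
  have e1 : a + 4 ^ (m + 1) = a + 4 ^ m * 4 := by ring
  have e2 : ∀ p : ℕ, b + 4 ^ m + 4 ^ p = a + 4 ^ m * 4 + 4 ^ p + (b - a + 4 ^ m * (-3)) := by
    intro p; ring
  constructor
  · intro hm
    have := R.seed T hβ hc hm
    rw [rowOf, e1]
    rwa [hm] at this ⊢
  · intro hm
    refine ⟨?_, ?_, ?_⟩
    · rw [rowOf, rowOf, e1, e2]
      exact R.start T hβ hc hm
    · intro p hp
      rw [rowOf, rowOf, rowOf, rowOf, e1, e2, e2]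
      exact R.loc T hβ hc hp
    · rw [rowOf, rowOf, rowOf, e1, e2]
      exact R.last T hβ hc hm

end rows

end Pool.Agent.H81.Dec
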