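import Mathlib
import Pool.Agent.H81.Dec.Content
import Pool.Agent.H81.Dec.Words

set_option autoImplicit false

/-!
# The counting rule, and the chain of an avoiding pair
-/

namespace Pool.Agent.H81.Dec

variable {Γ : Type} {α β : ℤ → Lt Γ}

section rows

variable {m : ℕ} {a b l : ℤ} (R : Rows α β m a b l)

include R

theorem Rows.count {p : ℕ} (hp : p ≤ m) :
    ((fw (fun t => (α t, β (t + l))) (a + 4 ^ m * 4 + 1) (4 ^ p - 1)).filter
      (isCell m)).length = p := by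
  induction p with
  | zero => simp [fw_zero]
  | succ p ih =>
    have h4 : 0 < 4 ^ p := by positivity
    have e : 4 ^ (p + 1) - 1 = (4 ^ p - 1) + 1 + (3 * 4 ^ p - 1) := by rw [pow_succ]; omega
    rw [e, fw_add, fw_add, List.filter_append, List.filter_append, List.length_append,
      List.length_append, ih (by omega), fw_succ, fw_zero]
    have e2 : a + 4 ^ m * 4 + 1 + ((4 ^ p - 1 : ℕ) : ℤ) = a + 4 ^ m * 4 + 4 ^ p := by
      push_cast [h4]; ring
    have e3 : a + 4 ^ m * 4 + 1 + ((4 ^ p - 1 + 1 : ℕ) : ℤ) = a + 4 ^ m * 4 + 4 ^ p + 1 := by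
      push_cast [h4]; ring
    have hc := R.cell_at (p := p) (by omega)
    have hr : (fw (fun t => (α t, β (t + l))) (a + 4 ^ m * 4 + 4 ^ p + 1) (3 * 4 ^ p - 1)).filter
        (isCell m) = [] := by
      rw [List.filter_eq_nil_iff]
      intro x hx
      obtain ⟨t, h1, h2, rfl⟩ := mem_fw hx
      have h5 : (((3 * 4 ^ p - 1 : ℕ) : ℤ)) = 3 * 4 ^ p - 1 := by
        push_cast [show 1 ≤ 3 * 4 ^ p by omega]; ring
      rw [h5] at h2
      have h6 : (4 : ℤ) ^ (p + 1) ≤ 4 ^ m := pow_le_pow_right₀ (by norm_num) hp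
      rw [pow_succ] at h6
      have h7 : (0 : ℤ) < 4 ^ p := by positivity
      intro hcell
      have := (R.cell_iff (t := t - (a + 4 ^ m * 4)) (by linarith) (by linarith)).1
        (by rw [show a + 4 ^ m * 4 + (t - (a + 4 ^ m * 4)) = t by ring]; exact hcell)
      obtain ⟨q, hq, hq2⟩ := this
      have h8 : (4 : ℤ) ^ p < 4 ^ q := by linarith
      have h9 : (4 : ℤ) ^ q < 4 ^ (p + 1) := by rw [pow_succ]; linarith
      have h10 := (pow_lt_pow_iff_right₀ (show (1 : ℤ) < 4 by norm_num)).1 h8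
      have h11 := (pow_lt_pow_iff_right₀ (show (1 : ℤ) < 4 by norm_num)).1 h9
      omega
    rw [e2, e3, hr]
    simp only [List.filter_cons, List.filter_nil, List.length_nil, add_zero]
    rw [hc]
    simp

theorem Rows.cnt (T : Sys Γ) {N : ℕ} (hβ' : Str β (m + 2) b) (hN : AvN T N α β) (hm : 1 ≤ m) :
    badN N (T.run (β (a + 4 ^ m * 4 + 4 ^ 0 + l)).2.2) (T.run (α (a + 4 ^ m * 4 + 4 ^ 0)).2.2) m
      = false := by
  by_contra hne
  rw [Bool.not_eq_false] at hne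
  set c : ℤ → Col Γ := fun t => (α t, β (t + l)) with hcdef
  have h4 : 0 < 4 ^ m := by positivity
  have h4' : 4 ^ 1 ≤ 4 ^ m := Nat.pow_le_pow_right (by norm_num) hm
  refine hN l (a + 4 ^ m * 4) (1 + (4 ^ m - 1) + (4 ^ m * 3 + 1)) ?_
  refine ⟨m % 2, by omega, c (a + 4 ^ m * 4), fw c (a + 4 ^ m * 4 + 1) (4 ^ m - 1),
    fw c (a + 4 ^ m * 5) (4 ^ m * 3 + 1), c (a + 4 ^ m * 4 + 4 ^ 0), ?_, ?_, ?_, ?_, ?_, ?_⟩
  · have e1 : a + 4 ^ m * 4 + ((1 + (4 ^ m - 1) : ℕ) : ℤ) = a + 4 ^ m * 5 := by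
      push_cast [h4]; ring
    have e2 : a + 4 ^ m * 4 + ((1 : ℕ) : ℤ) = a + 4 ^ m * 4 + 1 := by push_cast; ring
    rw [fw_add, fw_add, fw_succ, fw_zero, e1, e2, List.append_assoc]
    rfl
  · rw [isA_mod]; exact R.colA
  · intro x hx
    obtain ⟨t, h1, h2, rfl⟩ := mem_fw hx
    have h5 : (((4 ^ m - 1 : ℕ) : ℤ)) = 4 ^ m - 1 := by
      push_cast [h4]; ring
    rw [h5] at h2
    exact R.hidRow (by linarith) (by linarith)
  · rw [isCell_mod, show 4 ^ m - 1 = (4 ^ m - 2) + 1 by omega, fw_succ]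
    have := R.cell_at (p := 0) (by omega)
    rw [List.filter_cons]
    rw [pow_zero] at this ⊢
    rw [show isCell m (c (a + 4 ^ m * 4 + 1)) = true from this]
    simp
  · rw [isCell_mod, R.count le_rfl]
    exact hne
  · rw [isK1_mod, tailP_mod]
    have h5 : (((4 ^ m * 3 + 1 : ℕ) : ℤ)) = 4 ^ m * 3 + 1 := by push_cast; ring
    have hocc : Occ c (.one (isK1 m) :: tailP m) (a + 4 ^ m * 5) (a + 4 ^ m * 8 + 1) :=
      ⟨R.colK1, R.occ_tail hβ'⟩
    have := (mt_of_occ c _ _ _ hocc).2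
    rw [show (a + 4 ^ m * 8 + 1 - (a + 4 ^ m * 5)).toNat = 4 ^ m * 3 + 1 by
      rw [show a + 4 ^ m * 8 + 1 - (a + 4 ^ m * 5) = ((4 ^ m * 3 + 1 : ℕ) : ℤ) by
        rw [h5]; ring]; exact Int.toNat_natCast _] at this
    exact this

omit R in
theorem rows_cnt (T : Sys Γ) {N : ℕ} (h1 : AvS α β) (h2 : AvS β α) (hN : AvN T N α β)
    {m : ℕ} (hm : 1 ≤ m) {a b : ℤ} (hα : Str α (m + 2) a) (hβ : Str β (m + 2) b) :
    (T.run (rowOf β (b + 4 ^ m) 0) = true ↔ N + 1 ≤ m) ∧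
    (T.run (rowOf α (a + 4 ^ (m + 1)) 0) = true ↔ N ≤ m) := by
  have R := rows_of h1 h2 hα hβ
  have := R.cnt T hβ hN hm
  have e1 : a + 4 ^ (m + 1) = a + 4 ^ m * 4 := by ring
  have e2 : ∀ p : ℕ, b + 4 ^ m + 4 ^ p = a + 4 ^ m * 4 + 4 ^ p + (b - a + 4 ^ m * (-3)) := by
    intro p; ring
  rw [rowOf, rowOf, e1, e2]
  revert this
  generalize T.run (β (a + 4 ^ m * 4 + 4 ^ 0 + (b - a + 4 ^ m * (-3)))).2.2 = fb
  generalize T.run (α (a + 4 ^ m * 4 + 4 ^ 0)).2.2 = fa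
  intro h
  unfold badN at h
  rw [Bool.or_eq_false_iff] at h
  obtain ⟨h3, h4⟩ := h
  rw [bne_eq_false_iff_eq] at h3 h4
  rw [h3, h4]
  simp

end rows

theorem avoid_chain (T : Sys Γ) [DecidableEq Γ] (hseed : ∀ a, T.seed a = true → T.run a = false)
    {N : ℕ} (hN1 : 1 ≤ N) (h1 : AvS α β) (h2 : AvS β α) (c1 : AvC T α β) (c2 : AvC T β α)
    (hN : AvN T N α β) : Chain T N := by
  choose a b hα hβ using fun q => str_all h1 h2 (q + 1)
  have hstp : ∀ m, Stp T m (if m % 2 = 0 then rowOf β (b m + 4 ^ m) else rowOf α (a m + 4 ^ m))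
      (if (m + 1) % 2 = 0 then rowOf β (b (m + 1) + 4 ^ (m + 1))
        else rowOf α (a (m + 1) + 4 ^ (m + 1))) := by
    intro m
    by_cases hm : m % 2 = 0
    · rw [if_pos hm, if_neg (by omega)]
      exact rows_stp T h1 h2 c1 ((hα (m + 1)).mono (by omega)) ((hβ m).mono (by omega))
    · rw [if_neg hm, if_pos (by omega)]
      exact rows_stp T h2 h1 c2 ((hβ (m + 1)).mono (by omega)) ((hα m).mono (by omega))
  refine ⟨fun m => if m % 2 = 0 then rowOf β (b m + 4 ^ m) else rowOf α (a m + 4 ^ m),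
    fun m => ⟨hstp m, fun hm => ?_⟩⟩
  beta_reduce
  by_cases hm2 : m % 2 = 0
  · rw [if_pos hm2]
    exact (rows_cnt T h1 h2 hN hm ((hα m).mono (by omega)) ((hβ m).mono (by omega))).1
  · rw [if_neg hm2]
    obtain ⟨m, rfl⟩ : ∃ m', m = m' + 1 := ⟨m - 1, by omega⟩
    by_cases hm0 : m = 0
    · subst hm0
      have := (hstp 0).1 rfl
      rw [if_neg (by omega)] at this
      rw [hseed _ this]
      simp
      omega
    · rw [(rows_cnt T h1 h2 hN (show 1 ≤ m by omega) ((hα (m + 1)).mono (by omega))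
        ((hβ m).mono (by omega))).2]
      omega

end Pool.Agent.H81.Dec
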