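import Mathlib
import Pool.Agent.H81.Dec.Defs
import Pool.Agent.H81.Dec.IdealThm

set_option autoImplicit false

/-!
# Periodicity from decomposability
-/

namespace Pool.Agent.H81.Dec

/-- Local form of decomposability. -/
theorem decomp_iff_local {A : Type} (K : Set (List A)) :
    Decomp K ↔ ∃ S : Set (Set (List A)), S.Finite ∧ K ∈ S ∧
    (∀ L ∈ S, ∀ x y : List A, x ++ y ∈ L → ∃ L₁ ∈ S, ∃ L₂ ∈ S, x ∈ L₁ ∧ y ∈ L₂ ∧
      ∀ x' ∈ L₁, ∀ y' ∈ L₂, x' ++ y' ∈ L) ∧
    (∀ L ∈ S, ∀ x y : List A, (∃ w ∈ L, Sh x y w) → ∃ L₁ ∈ S, ∃ L₂ ∈ S, x ∈ L₁ ∧ y ∈ L₂ ∧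
      ∀ x' ∈ L₁, ∀ y' ∈ L₂, ∃ w ∈ L, Sh x' y' w) := by
  constructor
  · rintro ⟨S, hS, hK, h⟩
    refine ⟨S, hS, hK, ?_, ?_⟩
    · intro L hL x y hxy
      obtain ⟨P, hP, hPe⟩ := (h L hL).1
      have hm : (x, y) ∈ {p : List A × List A | p.1 ++ p.2 ∈ L} := hxy
      rw [hPe] at hm
      simp only [Set.mem_iUnion, exists_prop] at hm
      obtain ⟨q, hq, hx, hy⟩ := hm
      refine ⟨q.1, (hP hq).1, q.2, (hP hq).2, hx, hy, fun x' hx' y' hy' => ?_⟩
      have hm' : (x', y') ∈ ⋃ q ∈ P, q.1 ×ˢ q.2 := by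
        simp only [Set.mem_iUnion, exists_prop]
        exact ⟨q, hq, hx', hy'⟩
      rw [← hPe] at hm'
      exact hm'
    · intro L hL x y hxy
      obtain ⟨P, hP, hPe⟩ := (h L hL).2
      have hm : (x, y) ∈ {p : List A × List A | ∃ w ∈ L, Sh p.1 p.2 w} := hxy
      rw [hPe] at hm
      simp only [Set.mem_iUnion, exists_prop] at hm
      obtain ⟨q, hq, hx, hy⟩ := hm
      refine ⟨q.1, (hP hq).1, q.2, (hP hq).2, hx, hy, fun x' hx' y' hy' => ?_⟩
      have hm' : (x', y') ∈ ⋃ q ∈ P, q.1 ×ˢ q.2 := by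
        simp only [Set.mem_iUnion, exists_prop]
        exact ⟨q, hq, hx', hy'⟩
      rw [← hPe] at hm'
      exact hm'
  · rintro ⟨S, hS, hK, hτ, hσ⟩
    exact decomp_of_local S hS K hK hτ hσ

theorem periodic_of_decomp {A : Type} {K : Set (List A)} (hid : TwoSided K) (hD : Decomp K)
    (a b : ℕ → A)
    (hab : ∀ i j w, Sh ((List.range i).map a) ((List.range j).map b) w → w ∉ K) :
    ∃ i P : ℕ, 0 < P ∧ ∀ n j w,
      Sh ((List.range n).map fun t => a (i + t % P)) ((List.range j).map b) w → w ∉ K := by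
  obtain ⟨S, hS, hK, hτ, hσ⟩ := (decomp_iff_local K).1 hD
  -- the equivalence
  let R : List A → List A → Prop := fun u u' => ∀ L ∈ S, u ∈ L → u' ∈ L
  have Rtrans : ∀ u v w, R u v → R v w → R u w := fun u v w h1 h2 L hL hu => h2 L hL (h1 L hL hu)
  have Rrefl : ∀ u, R u u := fun u L hL hu => hu
  have Rapp : ∀ u u' x, R u u' → R (u ++ x) (u' ++ x) := by
    intro u u' x h L hL hu
    obtain ⟨L₁, h₁, L₂, h₂, hx, hy, hall⟩ := hτ L hL u x hu
    exact hall u' (h L₁ h₁ hx) x hy
  -- pigeonhole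
  obtain ⟨i, j, hij, hR⟩ : ∃ i j, i < j ∧ R ((List.range j).map a) ((List.range i).map a) := by
    have hfin : (𝒫 S).Finite := hS.finite_subsets
    have hinf : (Set.univ : Set ℕ).Infinite := Set.infinite_univ
    obtain ⟨i, -, j, -, hne, heq⟩ := hinf.exists_ne_map_eq_of_mapsTo
      (f := fun n => {L ∈ S | (List.range n).map a ∈ L}) (t := 𝒫 S)
      (fun n _ L hL => hL.1) hfin
    have key : ∀ i j, {L ∈ S | (List.range i).map a ∈ L} = {L ∈ S | (List.range j).map a ∈ L} →
        R ((List.range j).map a) ((List.range i).map a) := by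
      intro i j heq L hL hj
      have : L ∈ {L ∈ S | (List.range i).map a ∈ L} := by
        rw [heq]; exact ⟨hL, hj⟩
      exact this.2
    rcases lt_or_gt_of_ne hne with h | h
    · exact ⟨i, j, h, key i j heq⟩
    · exact ⟨j, i, h, key j i heq.symm⟩
  obtain ⟨P, hP, rfl⟩ : ∃ P, 0 < P ∧ j = i + P := ⟨j - i, by omega, by omega⟩
  refine ⟨i, P, hP, ?_⟩
  have hprefix : ∀ n, R ((List.range i).map a ++ (List.range n).map fun t => a (i + t % P))
      ((List.range (i + n % P)).map a) := by
    intro n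
    induction n with
    | zero => simpa using Rrefl _
    | succ n ih =>
      have h1 : (List.range i).map a ++ ((List.range (n + 1)).map fun t => a (i + t % P)) =
          ((List.range i).map a ++ (List.range n).map fun t => a (i + t % P)) ++
            [a (i + n % P)] := by
        rw [List.range_succ, List.map_append, ← List.append_assoc]
        rfl
      rw [h1]
      refine Rtrans _ _ _ (Rapp _ _ _ ih) ?_
      have h2 : (List.range (i + n % P)).map a ++ [a (i + n % P)] =
          (List.range (i + n % P + 1)).map a := by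
        rw [List.range_succ, List.map_append]
        rfl
      rw [h2]
      have hlt := Nat.mod_lt n hP
      by_cases hc : n % P + 1 < P
      · have : (n + 1) % P = n % P + 1 := by
          rw [Nat.add_mod, Nat.mod_eq_of_lt (show 1 < P by omega), Nat.mod_eq_of_lt hc]
        rw [this]
        exact Rrefl _
      · have h3 : n % P + 1 = P := by omega
        have h4 : (n + 1) % P = 0 := by
          have h5 : n + 1 = P * (n / P) + P := by
            have := Nat.div_add_mod n P
            omega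
          rw [h5, Nat.add_mod_right, Nat.mul_mod_right]
        rw [h4, add_assoc, h3, add_zero]
        exact hR
  intro n j w hw hwK
  have h1 : Sh ((List.range i).map a ++ (List.range n).map fun t => a (i + t % P))
      ((List.range j).map b) ((List.range i).map a ++ w) := by
    have := Sh.append (Sh.nil_left ((List.range i).map a)).symm hw
    simpa using this
  have h2 : (List.range i).map a ++ w ∈ K := by simpa using hid ((List.range i).map a) w [] hwK
  obtain ⟨L₁, h₁, L₂, h₂, hx, hy, hall⟩ := hσ K hK _ _ ⟨_, h2, h1⟩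
  obtain ⟨w', hw', hs'⟩ := hall _ (hprefix n L₁ h₁ hx) _ hy
  exact hab _ _ _ hs' hw'

end Pool.Agent.H81.Dec
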