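import Mathlib
import Pool.Agent.H81.Dec.Defs
import Pool.Agent.H81.Dec.Periodic

set_option autoImplicit false

/-!
# The form of decomposability in the frozen statement
-/

namespace Pool.Agent.H81.Dec

theorem Sh.map {A B : Type} (f : A → B) {u v w : List A} (h : Sh u v w) :
    Sh (u.map f) (v.map f) (w.map f) := by
  induction h with
  | nil => exact .nil
  | left _ ih => exact .left ih
  | right _ ih => exact .right ih

/-- Shuffles by marked words. -/
theorem sh_iff_marked {A : Type} (u v w : List A) : Sh u v w ↔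
    ∃ l : List (A × Bool), l.map Prod.fst = w ∧
      (l.filter (fun x => x.2)).map Prod.fst = u ∧
      (l.filter (fun x => !x.2)).map Prod.fst = v := by
  constructor
  · intro h
    induction h with
    | nil => exact ⟨[], rfl, rfl, rfl⟩
    | @left a u v w _ ih =>
      obtain ⟨l, h1, h2, h3⟩ := ih
      exact ⟨(a, true) :: l, by simp [h1], by simp [h2], by simp [h3]⟩
    | @right a u v w _ ih =>
      obtain ⟨l, h1, h2, h3⟩ := ih
      exact ⟨(a, false) :: l, by simp [h1], by simp [h2], by simp [h3]⟩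
  · rintro ⟨l, rfl, rfl, rfl⟩
    induction l with
    | nil => exact .nil
    | cons x l ih =>
      obtain ⟨a, c⟩ := x
      cases c
      · simpa using Sh.right (a := a) ih
      · simpa using Sh.left (a := a) ih

theorem Decomp.transport {A B : Type} (e : A ≃ B) {K : Set (List A)} (h : Decomp K) :
    Decomp {w : List B | w.map e.symm ∈ K} := by
  rw [decomp_iff_local] at h ⊢
  obtain ⟨S, hS, hK, hτ, hσ⟩ := h
  have hee : ∀ w : List A, (w.map e).map e.symm = w := by
    intro w; rw [List.map_map]; simp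
  have hee' : ∀ w : List B, (w.map e.symm).map e = w := by
    intro w; rw [List.map_map]; simp
  refine ⟨(fun L : Set (List A) => {w : List B | w.map e.symm ∈ L}) '' S, hS.image _,
    ⟨K, hK, rfl⟩, ?_, ?_⟩
  · rintro _ ⟨L, hL, rfl⟩ x y hxy
    have hxy' : x.map e.symm ++ y.map e.symm ∈ L := by
      rw [← List.map_append]; exact hxy
    obtain ⟨L₁, h₁, L₂, h₂, hx, hy, hall⟩ := hτ L hL _ _ hxy'
    refine ⟨_, ⟨L₁, h₁, rfl⟩, _, ⟨L₂, h₂, rfl⟩, hx, hy, ?_⟩
    intro x' hx' y' hy'
    have := hall _ hx' _ hy'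
    rw [← List.map_append] at this
    exact this
  · rintro _ ⟨L, hL, rfl⟩ x y ⟨w, hw, hxy⟩
    obtain ⟨L₁, h₁, L₂, h₂, hx, hy, hall⟩ := hσ L hL _ _ ⟨_, hw, hxy.map e.symm⟩
    refine ⟨_, ⟨L₁, h₁, rfl⟩, _, ⟨L₂, h₂, rfl⟩, hx, hy, ?_⟩
    intro x' hx' y' hy'
    obtain ⟨w', hw', hs⟩ := hall _ hx' _ hy'
    refine ⟨w'.map e, ?_, ?_⟩
    · change (w'.map e).map e.symm ∈ L
      rwa [hee]
    · have := hs.map e
      rwa [hee', hee'] at this

theorem decomp_frozen {A : Type} {k : ℕ} (e : A ≃ Fin k) (K : Set (List A)) : Decomp K ↔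
  ∃ S : Set (Set (List (Fin k))), S.Finite ∧ {w : List (Fin k) | w.map e.symm ∈ K} ∈ S ∧ ∀ L ∈ S,
    (∃ P : Set (Set (List (Fin k)) × Set (List (Fin k))), P ⊆ S ×ˢ S ∧
      {p : List (Fin k) × List (Fin k) | p.1 ++ p.2 ∈ L} = ⋃ q ∈ P, q.1 ×ˢ q.2) ∧
    (∃ P : Set (Set (List (Fin k)) × Set (List (Fin k))), P ⊆ S ×ˢ S ∧
      {p : List (Fin k) × List (Fin k) | ∃ w ∈ L, ∃ l : List (Fin k × Bool), l.map Prod.fst = w ∧
        (l.filter (fun x => x.2)).map Prod.fst = p.1 ∧ (l.filter (fun x => !x.2)).map Prod.fst = p.2} =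
      ⋃ q ∈ P, q.1 ×ˢ q.2) := by
  have h1 : Decomp K ↔ Decomp {w : List (Fin k) | w.map e.symm ∈ K} := by
    constructor
    · exact fun h => h.transport e
    · intro h
      have h2 := h.transport e.symm
      have h3 : {w : List A | w.map e.symm.symm ∈ {w : List (Fin k) | w.map e.symm ∈ K}} = K := by
        ext w
        change (w.map e).map e.symm ∈ K ↔ w ∈ K
        rw [List.map_map]
        simp
      rwa [h3] at h2
  rw [h1]
  have h4 : ∀ L : Set (List (Fin k)),
      {p : List (Fin k) × List (Fin k) | ∃ w ∈ L, Sh p.1 p.2 w} =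
      {p : List (Fin k) × List (Fin k) | ∃ w ∈ L, ∃ l : List (Fin k × Bool), l.map Prod.fst = w ∧
        (l.filter (fun x => x.2)).map Prod.fst = p.1 ∧
        (l.filter (fun x => !x.2)).map Prod.fst = p.2} := by
    intro L
    ext p
    simp only [Set.mem_ofPred_eq, sh_iff_marked]
  unfold Decomp
  simp only [h4]

end Pool.Agent.H81.Dec
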