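import Mathlib
import Pool.Agent.H81.Dec.Machine

set_option autoImplicit false

/-!
# A stack machine with undecidable halting problem on unary inputs
-/

namespace Pool.Agent.H81.Dec

open StateTransition Relation

/-! ### A code with an undecidable domain on unary inputs -/

theorem hlt_exists_fun : ∃ f : ℕ →. ℕ, Partrec f ∧ ¬ ComputablePred (fun n => (f n).Dom) := by
  refine ⟨fun n => Nat.Partrec.Code.eval (Denumerable.ofNat Nat.Partrec.Code n) 0, ?_, ?_⟩
  · exact Nat.Partrec.Code.eval_part.comp (Computable.ofNat _) (Computable.const 0)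
  · intro h
    apply ComputablePred.halting_problem 0
    have hr : (fun c : Nat.Partrec.Code => (c.eval 0).Dom) ≤₀
        (fun n => (Nat.Partrec.Code.eval (Denumerable.ofNat Nat.Partrec.Code n) 0).Dom) :=
      ⟨Encodable.encode, Computable.encode, fun c => by simp⟩
    exact ComputablePred.computable_of_manyOneReducible hr h

open Turing.ToPartrec in
/-- The second branch of the loop body. -/
def hltG : Code :=
  Code.cons (Code.comp Code.succ Code.zero)
    (Code.cons (Code.comp Code.succ Code.tail) (Code.comp Code.tail (Code.comp Code.tail Code.tail)))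

open Turing.ToPartrec in
/-- The loop body that counts a list of ones. -/
def hltS : Code :=
  Code.comp (Code.case Code.zero' hltG) (Code.cons (Code.comp Code.head Code.tail) Code.id)

set_option backward.isDefEq.respectTransparency false in
theorem hltS_nil (k : ℕ) : hltS.eval [k] = Part.some [0, k] := by
  simp [hltS]

set_option backward.isDefEq.respectTransparency false in
theorem hltS_one (k : ℕ) (r : List ℕ) : hltS.eval (k :: 1 :: r) = Part.some (1 :: (k + 1) :: r) := by
  simp [hltS, hltG]

open Turing.ToPartrec in
theorem hlt_fix (m k : ℕ) : [k + m] ∈ (Code.fix hltS).eval (k :: List.replicate m 1) := by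
  induction m generalizing k with
  | zero =>
    rw [Code.fix_eval]
    apply PFun.mem_fix_iff.2
    left
    simp [hltS_nil]
  | succ m ih =>
    rw [Code.fix_eval]
    apply PFun.mem_fix_iff.2
    right
    refine ⟨(k + 1) :: List.replicate m 1, ?_, ?_⟩
    · simp [List.replicate_succ, hltS_one]
    · have := ih (k + 1)
      rw [Code.fix_eval] at this
      rw [show k + (m + 1) = k + 1 + m by ring]
      exact this

set_option backward.isDefEq.respectTransparency false in
open Turing.ToPartrec in
theorem hlt_exists_code : ∃ c : Code,
    ¬ ComputablePred (fun n : ℕ => (c.eval (List.replicate (n + 1) 1)).Dom) := by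
  obtain ⟨f, hf, hn⟩ := hlt_exists_fun
  obtain ⟨C, hC⟩ := Code.exists_code (Nat.Partrec'.part_iff₁.2 hf)
  refine ⟨C.comp (Code.pred.comp ((Code.fix hltS).comp Code.zero')), fun h => hn ?_⟩
  refine h.of_eq fun n => ?_
  have h1 : (Code.fix hltS).eval (0 :: List.replicate (n + 1) 1) = Part.some [n + 1] := by
    have := hlt_fix (n + 1) 0
    rw [zero_add] at this
    exact Part.eq_some_iff.2 this
  have h2 : (C.comp (Code.pred.comp ((Code.fix hltS).comp Code.zero'))).eval
      (List.replicate (n + 1) 1) = C.eval [n] := by
    rw [Code.comp_eval, Code.comp_eval, Code.comp_eval, Code.zero'_eval]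
    simp only [Part.pure_eq_some, Part.bind_eq_bind, Part.bind_some]
    rw [h1]
    simp
  rw [h2]
  have h3 := hC (n ::ᵥ List.Vector.nil)
  have h4 : (n ::ᵥ List.Vector.nil : List.Vector ℕ 1).1 = [n] := rfl
  rw [h4] at h3
  rw [h3]
  simp

/-! ### Small-step machines -/

variable {Q K G : Type}

theorem hlt_iter_succ (M : SM Q K G) (c : Q × (K → List G)) (t : ℕ) :
    M.iter c (t + 1) = (M.iter c t).bind M.step := by
  unfold SM.iter
  rw [Function.iterate_succ_apply']

theorem hlt_iter_dom (M : SM Q K G) (c : Q × (K → List G)) :
    (∃ t, M.iter c t = none) ↔ (StateTransition.eval M.step c).Dom := by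
  have key : ∀ t b, M.iter c t = some b → StateTransition.Reaches M.step c b := by
    intro t
    induction t with
    | zero =>
      intro b hb
      have : some c = some b := hb
      cases this
      exact ReflTransGen.refl
    | succ t ih =>
      intro b hb
      rw [hlt_iter_succ] at hb
      obtain ⟨a, ha, hab⟩ := Option.bind_eq_some_iff.1 hb
      exact (ih a ha).tail hab
  constructor
  · rintro ⟨t, ht⟩
    induction t with
    | zero => exact absurd ht (by simp [SM.iter])
    | succ t ih =>
      cases hb : M.iter c t with
      | none => exact ih hb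
      | some b =>
        rw [hlt_iter_succ, hb] at ht
        exact Part.dom_iff_mem.2 ⟨b, StateTransition.mem_eval.2 ⟨key t b hb, ht⟩⟩
  · intro h
    obtain ⟨b, hb⟩ := Part.dom_iff_mem.1 h
    obtain ⟨h1, h2⟩ := StateTransition.mem_eval.1 hb
    have h3 : ∃ t, M.iter c t = some b := by
      clear h2 hb h
      induction h1 with
      | refl => exact ⟨0, rfl⟩
      | tail _ h ih =>
        obtain ⟨t, ht⟩ := ih
        refine ⟨t + 1, ?_⟩
        rw [hlt_iter_succ, ht]
        exact h
    obtain ⟨t, ht⟩ := h3
    refine ⟨t + 1, ?_⟩
    rw [hlt_iter_succ, ht]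
    exact h2

open Classical in
/-- Restriction of a machine to a set of states. -/
noncomputable def hltRestrict (M : SM Q K G) (F : Q → Prop) : SM {q // F q} K G where
  δ q tops := (M.δ q.1 tops).bind fun r =>
    if h : F r.1 then some (⟨r.1, h⟩, r.2) else none

theorem hlt_restrict_step (M : SM Q K G) (F : Q → Prop)
    (hF : ∀ q tops r, F q → M.δ q tops = some r → F r.1) (c : {q // F q} × (K → List G)) :
    ((hltRestrict M F).step c).map (fun c => (c.1.1, c.2)) = M.step (c.1.1, c.2) := by
  unfold SM.step hltRestrict
  simp only
  cases h : M.δ c.1.1 (fun k => (c.2 k).head?) with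
  | none => simp
  | some r =>
    have := hF _ _ _ c.1.2 h
    simp [this]

theorem hlt_restrict_iter (M : SM Q K G) (F : Q → Prop)
    (hF : ∀ q tops r, F q → M.δ q tops = some r → F r.1) (c : {q // F q} × (K → List G)) (t : ℕ) :
    ((hltRestrict M F).iter c t).map (fun c => (c.1.1, c.2)) = M.iter (c.1.1, c.2) t := by
  induction t with
  | zero => rfl
  | succ t ih =>
    rw [hlt_iter_succ, hlt_iter_succ, ← ih]
    cases (hltRestrict M F).iter c t with
    | none => rfl
    | some b =>
      simp only [Option.bind_some, Option.map_some]
      exact hlt_restrict_step M F hF b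

/-! ### The machine of a code -/

open Turing Turing.PartrecToTM2

/-- The operation on one stack. -/
def hltOp (k : K') (o : Op Γ') : K' → Op Γ' := fun k' => if k' = k then o else .keep

/-- Small steps of `TM2` statements. -/
def hltM : SM (Option Stmt' × Option Γ') K' Γ' where
  δ q tops :=
    match q.1 with
    | none => none
    | some (TM2.Stmt.push k f s) => some ((some s, q.2), hltOp k (.push (f q.2)))
    | some (TM2.Stmt.peek k f s) => some ((some s, f q.2 (tops k)), fun _ => .keep)
    | some (TM2.Stmt.pop k f s) => some ((some s, f q.2 (tops k)), hltOp k .pop)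
    | some (TM2.Stmt.load a s) => some ((some s, a q.2), fun _ => .keep)
    | some (TM2.Stmt.branch p s1 s2) => some ((some (cond (p q.2) s1 s2), q.2), fun _ => .keep)
    | some (TM2.Stmt.goto l) => some ((some (tr (l q.2)), q.2), fun _ => .keep)
    | some TM2.Stmt.halt => some ((none, q.2), fun _ => .keep)

/-- Translation of configurations. -/
def hltTr (c : Cfg') : (Option Stmt' × Option Γ') × (K' → List Γ') :=
  ((c.l.map tr, c.var), c.stk)

theorem hlt_update_push (S : K' → List Γ') (k : K') (a : Γ') :
    (fun k' => (hltOp k (.push a) k').app (S k')) = Function.update S k (a :: S k) := by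
  funext k'
  by_cases h : k' = k
  · subst h
    simp [hltOp, Op.app]
  · simp [hltOp, Op.app, h]

theorem hlt_update_pop (S : K' → List Γ') (k : K') :
    (fun k' => (hltOp k .pop k').app (S k')) = Function.update S k (S k).tail := by
  funext k'
  by_cases h : k' = k
  · subst h
    simp [hltOp, Op.app]
  · simp [hltOp, Op.app, h]

theorem hlt_reaches (s : Stmt') (v : Option Γ') (S : K' → List Γ') :
    Reaches₁ hltM.step ((some s, v), S) (hltTr (TM2.stepAux s v S)) := by
  induction s generalizing v S with
  | push k f q ih =>
    refine TransGen.head ?_ (ih v (Function.update S k (f v :: S k)))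
    rw [← hlt_update_push]
    rfl
  | peek k f q ih =>
    exact TransGen.head rfl (ih (f v (S k).head?) S)
  | pop k f q ih =>
    refine TransGen.head ?_ (ih (f v (S k).head?) (Function.update S k (S k).tail))
    rw [← hlt_update_pop]
    rfl
  | load a q ih =>
    exact TransGen.head rfl (ih (a v) S)
  | branch p q1 q2 ih1 ih2 =>
    have h1 : TM2.stepAux (TM2.Stmt.branch p q1 q2) v S =
        cond (p v) (TM2.stepAux q1 v S) (TM2.stepAux q2 v S) := rfl
    rw [h1]
    refine TransGen.head (b := ((some (cond (p v) q1 q2), v), S)) rfl ?_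
    cases p v
    · exact ih2 v S
    · exact ih1 v S
  | goto l => exact TransGen.single rfl
  | halt => exact TransGen.single rfl

theorem hlt_respects : Respects (TM2.step tr) hltM.step (fun a b => hltTr a = b) := by
  rintro ⟨l, v, S⟩ _ rfl
  cases l with
  | none => rfl
  | some l => exact ⟨_, rfl, hlt_reaches (tr l) v S⟩

theorem hlt_trList (m : ℕ) : trList (List.replicate m 1) =
    (List.range (2 * m)).map (fun i => if i % 2 = 0 then Γ'.bit1 else Γ'.cons) := by
  induction m with
  | zero => rfl
  | succ m ih =>
    rw [List.replicate_succ, trList, ih, show 2 * (m + 1) = 2 * m + 1 + 1 by ring,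
      List.range_succ_eq_map, List.range_succ_eq_map]
    have h1 : trNat 1 = [Γ'.bit1] := by
      rw [trNat]
      rfl
    rw [h1]
    simp only [List.map_cons, List.map_map]
    simp only [List.cons_append, List.nil_append]
    congr 1
    congr 1
    apply List.map_congr_left
    intro i _
    have h2 : (i + 1 + 1) % 2 = i % 2 := by omega
    simp [Nat.succ_eq_add_one, h2]

instance hltFintypeK' : Fintype K' := ⟨{K'.main, K'.rev, K'.aux, K'.stack}, by
  intro k; cases k <;> simp⟩

set_option backward.isDefEq.respectTransparency false in
theorem exists_machine : ∃ (Q K G : Type) (_ : Fintype Q) (_ : DecidableEq Q) (_ : Fintype K)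
    (_ : DecidableEq K) (_ : Fintype G) (_ : DecidableEq G) (M : SM Q K G) (q0 : Q) (k0 : K)
    (g1 g2 : G),
    ¬ ComputablePred (fun n : ℕ => ∃ t, M.iter (initC q0 k0 g1 g2 (2 * (n + 1))) t = none) := by
  classical
  obtain ⟨c, hc⟩ := hlt_exists_code
  set l0 : Λ' := trNormal c Cont'.halt with hl0
  set Sc : Finset Λ' := codeSupp c Cont'.halt with hSc
  have hsupp : @TM2.Supports _ _ _ _ ⟨l0⟩ tr Sc := tr_supports c Cont'.halt
  have hl0mem : l0 ∈ Sc := hsupp.1
  set St : Finset (Option Stmt') := TM2.stmts tr Sc with hSt
  have htr : ∀ l ∈ Sc, some (tr l) ∈ St := by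
    intro l hl
    rw [hSt]
    unfold TM2.stmts
    rw [Finset.mem_insertNone]
    intro s hs
    rw [Option.mem_def, Option.some.injEq] at hs
    subst hs
    rw [Finset.mem_biUnion]
    exact ⟨l, hl, TM2.stmts₁_self⟩
  let F : Option Stmt' × Option Γ' → Prop := fun q => q.1 ∈ St
  have hF : ∀ q tops r, F q → hltM.δ q tops = some r → F r.1 := by
    rintro ⟨s, v⟩ tops r hq hr
    have hsub : ∀ s' s'' : Stmt', s = some s'' → s' ∈ TM2.stmts₁ s'' → some s' ∈ St := by
      rintro s' s'' rfl h
      exact TM2.stmts_trans h hq
    cases s with
    | none => exact absurd hr (by simp [hltM])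
    | some s =>
      cases s with
      | push k f s =>
        cases Option.some.inj hr
        exact hsub _ _ rfl (by rw [TM2.stmts₁]; exact Finset.mem_insert_of_mem TM2.stmts₁_self)
      | peek k f s =>
        cases Option.some.inj hr
        exact hsub _ _ rfl (by rw [TM2.stmts₁]; exact Finset.mem_insert_of_mem TM2.stmts₁_self)
      | pop k f s =>
        cases Option.some.inj hr
        exact hsub _ _ rfl (by rw [TM2.stmts₁]; exact Finset.mem_insert_of_mem TM2.stmts₁_self)
      | load a s =>
        cases Option.some.inj hr
        exact hsub _ _ rfl (by rw [TM2.stmts₁]; exact Finset.mem_insert_of_mem TM2.stmts₁_self)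
      | branch p s1 s2 =>
        cases Option.some.inj hr
        have h1 : cond (p v) s1 s2 = s1 ∨ cond (p v) s1 s2 = s2 := by
          cases p v
          · exact Or.inr rfl
          · exact Or.inl rfl
        refine hsub _ _ rfl ?_
        rw [TM2.stmts₁]
        apply Finset.mem_insert_of_mem
        rw [Finset.mem_union]
        rcases h1 with h1 | h1
        · left
          show cond (p v) s1 s2 ∈ _
          rw [h1]
          exact TM2.stmts₁_self
        · right
          show cond (p v) s1 s2 ∈ _
          rw [h1]
          exact TM2.stmts₁_self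
      | goto l =>
        cases Option.some.inj hr
        have h1 := @TM2.stmts_supportsStmt _ _ _ _ ⟨l0⟩ tr Sc _ hsupp hq
        exact htr _ (h1 v)
      | halt =>
        cases Option.some.inj hr
        show none ∈ St
        rw [hSt]
        unfold TM2.stmts
        simp
  have hfin : Finite {q // F q} := by
    have : {q : Option Stmt' × Option Γ' | F q} ⊆
        (((St ×ˢ Finset.univ : Finset (Option Stmt' × Option Γ'))) :
          Set (Option Stmt' × Option Γ')) := by
      intro q hq
      simp only [Finset.coe_product, Finset.coe_univ, Set.mem_prod, Finset.mem_coe, Set.mem_univ,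
        and_true]
      exact hq
    exact Set.Finite.subset (Finset.finite_toSet _) this
  let q0 : {q // F q} := ⟨(some (tr l0), none), htr l0 hl0mem⟩
  refine ⟨{q // F q}, K', Γ', Fintype.ofFinite _, Classical.decEq _, inferInstance, inferInstance,
    inferInstance, inferInstance, hltRestrict hltM F, q0, K'.main, Γ'.bit1, Γ'.cons, fun h => hc ?_⟩
  refine h.of_eq fun n => ?_
  have h1 : ∀ t, (hltRestrict hltM F).iter (initC q0 K'.main Γ'.bit1 Γ'.cons (2 * (n + 1))) t = none ↔
      hltM.iter (hltTr (init c (List.replicate (n + 1) 1))) t = none := by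
    intro t
    rw [← Option.map_eq_none_iff (f := fun c : {q // F q} × (K' → List Γ') => (c.1.1, c.2)),
      hlt_restrict_iter hltM F hF]
    have e : ((initC q0 K'.main Γ'.bit1 Γ'.cons (2 * (n + 1))).1.1,
        (initC q0 K'.main Γ'.bit1 Γ'.cons (2 * (n + 1))).2) =
        hltTr (init c (List.replicate (n + 1) 1)) := by
      unfold initC hltTr init
      simp only [Prod.mk.injEq]
      refine ⟨rfl, ?_⟩
      funext k
      cases k with
      | main => simp [hlt_trList]
      | rev => rfl
      | aux => rfl
      | stack => rfl
    rw [e]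
  simp only [h1]
  rw [hlt_iter_dom, StateTransition.tr_eval_dom hlt_respects rfl,
    Turing.PartrecToTM2.tr_eval]
  simp

end Pool.Agent.H81.Dec
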