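import Mathlib
import Pool.Agent.H81.RegClosure
import Pool.Agent.H81.Dec.Defs

set_option autoImplicit false

/-!
# The fixed part of the language is regular
-/

namespace Pool.Agent.H81.Dec

open Language Computability

section Gen

variable {α : Type}

/-- All words. -/
def uL (α : Type) : Language α := (Set.univ : Set (List α))

theorem isRegular_uL : (uL α).IsRegular := by
  refine isRegular_of_subset (S := {uL α}) (Set.finite_singleton _) ?_
  intro x
  have h : (uL α).leftQuotient x = uL α := by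
    ext y
    exact ⟨fun _ => trivial, fun _ => trivial⟩
  rw [h]
  exact Set.mem_singleton _

/-- Union of a family of languages. -/
def unL {ι : Type} (I : Set ι) (L : ι → Language α) : Language α :=
  ({w | ∃ i ∈ I, w ∈ L i} : Set (List α))

theorem isRegular_unL {ι : Type} {I : Set ι} (hI : I.Finite) (L : ι → Language α)
    (h : ∀ i ∈ I, (L i).IsRegular) : (unL I L).IsRegular := by
  classical
  induction I, hI using Set.Finite.induction_on with
  | empty =>
    refine isRegular_finite (∅ : Finset (List α)) ?_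
    intro x hx
    obtain ⟨i, hi, _⟩ := hx
    exact absurd hi (Set.notMem_empty _)
  | @insert a s _ _ ih =>
    have h1 := (h a (Set.mem_insert _ _)).add (ih fun i hi => h i (Set.mem_insert_of_mem _ hi))
    have h2 : unL (insert a s) L = L a + unL s L := by
      ext w
      rw [Language.mem_add]
      constructor
      · rintro ⟨i, hi, hw⟩
        rcases Set.mem_insert_iff.1 hi with rfl | hi
        · exact Or.inl hw
        · exact Or.inr ⟨i, hi, hw⟩
      · rintro (hw | ⟨i, hi, hw⟩)
        · exact ⟨a, Set.mem_insert _ _, hw⟩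
        · exact ⟨i, Set.mem_insert_of_mem _ hi, hw⟩
    rw [h2]
    exact h1

/-- The words with a factor in `L`. -/
def fL (L : Language α) : Language α :=
  ({w | ∃ u e v, w = u ++ e ++ v ∧ e ∈ L} : Set (List α))

/-- The words containing a factor in `L` form a regular language if `L` is regular. -/
theorem isRegular_fL {L : Language α} (hL : L.IsRegular) : (fL L).IsRegular := by
  have h1 := isRegular_mul (isRegular_mul (isRegular_uL (α := α)) hL) (isRegular_uL (α := α))
  have h2 : fL L = uL α * L * uL α := by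
    ext w
    constructor
    · rintro ⟨u, e, v, rfl, he⟩
      exact Language.append_mem_mul (Language.append_mem_mul (Set.mem_univ u) he) (Set.mem_univ v)
    · intro hw
      obtain ⟨x, hx, v, _, rfl⟩ := Language.mem_mul.1 hw
      obtain ⟨u, _, e, he, rfl⟩ := Language.mem_mul.1 hx
      exact ⟨u, e, v, rfl, he⟩
  rw [h2]
  exact h1

variable {T : Type}

/-- The images of the words matching a pattern. -/
def ML (g : T → List α) (pat : List (Item T)) : Language α :=
  ({w | ∃ e, Mt pat e ∧ w = e.flatMap g} : Set (List α))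

/-- The images of the letters in a class. -/
def LL (g : T → List α) (P : T → Bool) : Language α :=
  ({w | ∃ c, P c = true ∧ w = g c} : Set (List α))

theorem isRegular_LL [Fintype T] (g : T → List α) (P : T → Bool) : (LL g P).IsRegular := by
  classical
  refine isRegular_finite (Finset.univ.image g) ?_
  rintro x ⟨c, _, rfl⟩
  exact Finset.mem_image_of_mem g (Finset.mem_univ c)

theorem mem_kstar_LL (g : T → List α) (P : T → Bool) (w : List α) :
    w ∈ (LL g P)∗ ↔ ∃ u : List T, (∀ c ∈ u, P c = true) ∧ w = u.flatMap g := by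
  rw [Language.mem_kstar]
  constructor
  · rintro ⟨ls, rfl, hls⟩
    induction ls with
    | nil => exact ⟨[], by simp, rfl⟩
    | cons l ls ih =>
      obtain ⟨u, hu, he⟩ := ih fun y hy => hls y (List.mem_cons_of_mem _ hy)
      obtain ⟨c, hc, rfl⟩ := hls l List.mem_cons_self
      refine ⟨c :: u, ?_, ?_⟩
      · intro c' hc'
        rcases List.mem_cons.1 hc' with rfl | hc'
        · exact hc
        · exact hu c' hc'
      · rw [List.flatten_cons, he, List.flatMap_cons]
  · rintro ⟨u, hu, rfl⟩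
    refine ⟨u.map g, ?_, ?_⟩
    · rw [List.flatMap_def]
    · intro y hy
      rw [List.mem_map] at hy
      obtain ⟨c, hc, rfl⟩ := hy
      exact ⟨c, hu c hc, rfl⟩

theorem isRegular_ML [Fintype T] (g : T → List α) (pat : List (Item T)) :
    (ML g pat).IsRegular := by
  induction pat with
  | nil =>
    refine isRegular_finite {[]} ?_
    rintro x ⟨e, he, rfl⟩
    simp only [Mt] at he
    subst he
    simp
  | cons it r ih =>
    cases it with
    | one P =>
      have h : ML g (.one P :: r) = LL g P * ML g r := by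
        ext w
        rw [Language.mem_mul]
        constructor
        · rintro ⟨e, he, rfl⟩
          simp only [Mt] at he
          obtain ⟨c, w', rfl, hc, hw'⟩ := he
          exact ⟨g c, ⟨c, hc, rfl⟩, w'.flatMap g, ⟨w', hw', rfl⟩, by rw [List.flatMap_cons]⟩
        · rintro ⟨_, ⟨c, hc, rfl⟩, _, ⟨w', hw', rfl⟩, rfl⟩
          refine ⟨c :: w', ?_, by rw [List.flatMap_cons]⟩
          simp only [Mt]
          exact ⟨c, w', rfl, hc, hw'⟩
      rw [h]
      exact isRegular_mul (isRegular_LL g P) ih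
    | many P =>
      have h : ML g (.many P :: r) = (LL g P)∗ * ML g r := by
        ext w
        rw [Language.mem_mul]
        constructor
        · rintro ⟨e, he, rfl⟩
          simp only [Mt] at he
          obtain ⟨u, v, rfl, hu, hv⟩ := he
          exact ⟨u.flatMap g, (mem_kstar_LL g P _).2 ⟨u, hu, rfl⟩, v.flatMap g, ⟨v, hv, rfl⟩,
            by rw [List.flatMap_append]⟩
        · rintro ⟨_, hx, _, ⟨v, hv, rfl⟩, rfl⟩
          obtain ⟨u, hu, rfl⟩ := (mem_kstar_LL g P _).1 hx
          refine ⟨u ++ v, ?_, by rw [List.flatMap_append]⟩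
          simp only [Mt]
          exact ⟨u, v, rfl, hu, hv⟩
      rw [h]
      exact isRegular_mul (isRegular_kstar (isRegular_LL g P)) ih

end Gen

variable {Γ : Type}

theorem finite_SP : (SP Γ).Finite := by
  refine (Set.finite_range (fun i : (Fin 2 × (Fin 4 → S)) ⊕ (Fin 2 × (S × S) × (S × S) × S) =>
    (match i with
    | .inl p => patR1 (Γ := Γ) p.1 p.2
    | .inr p => patR2 (Γ := Γ) p.1 p.2.1 p.2.2.1 p.2.2.2))).subset ?_
  rintro pat ⟨r, hr, ⟨x, _, rfl⟩ | ⟨v2, v1, x, _, _, _, rfl⟩⟩
  · exact ⟨.inl (⟨r, hr⟩, x), rfl⟩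
  · exact ⟨.inr (⟨r, hr⟩, v2, v1, x), rfl⟩

theorem finite_CP [Fintype Γ] [DecidableEq Γ] (T : Sys Γ) : (CP T).Finite := by
  refine (Set.finite_range (fun i : Fin 2 × (Unit ⊕ Unit ⊕ (Γ × Γ) ⊕ (Γ × Γ)) =>
    (match i.2 with
    | .inl _ => patSeed T i.1
    | .inr (.inl _) => patStart T i.1
    | .inr (.inr (.inl p)) => patLoc T i.1 p.1 p.2
    | .inr (.inr (.inr p)) => patLast T i.1 p.1 p.2))).subset ?_
  rintro pat ⟨r, hr, rfl | rfl | ⟨b, a, rfl | rfl⟩⟩
  · exact ⟨(⟨r, hr⟩, .inl ()), rfl⟩
  · exact ⟨(⟨r, hr⟩, .inr (.inl ())), rfl⟩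
  · exact ⟨(⟨r, hr⟩, .inr (.inr (.inl (b, a)))), rfl⟩
  · exact ⟨(⟨r, hr⟩, .inr (.inr (.inr (b, a)))), rfl⟩

theorem isRegular_Kfix [Fintype Γ] [DecidableEq Γ] (T : Sys Γ) :
    Language.IsRegular (Kfix T : Language (Al Γ)) := by
  have h1 := isRegular_unL (Set.toFinite {f : Fin 4 → S | ¬ W4 0 f})
    (fun f => fL (ML (fun c => [c]) (patX (Γ := Γ) f))) (fun f _ => isRegular_fL (isRegular_ML _ _))
  have h2 := isRegular_unL (Set.toFinite {f : Fin 4 → S | ¬ W4 0 f})
    (fun f => fL (ML (fun c => [c]) (patY (Γ := Γ) f))) (fun f _ => isRegular_fL (isRegular_ML _ _))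
  have h3 := isRegular_unL (finite_SP.union (finite_CP T))
    (fun pat => fL (ML (fun c : Col Γ => ([Sum.inl c.1, Sum.inr c.2] : List (Al Γ))) pat))
    (fun pat _ => isRegular_fL (isRegular_ML _ _))
  have h4 := isRegular_unL (finite_SP.union (finite_CP T))
    (fun pat => fL (ML (fun c : Col Γ => ([Sum.inr c.1, Sum.inl c.2] : List (Al Γ))) pat))
    (fun pat _ => isRegular_fL (isRegular_ML _ _))
  have h5 := (h1.add h2).add (h3.add h4)
  have hid : ∀ e : List (Al Γ), e.flatMap (fun c => [c]) = e := fun e => by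
    rw [List.flatMap_def]
    induction e with
    | nil => rfl
    | cons a e ih => simpa using ih
  convert h5 using 1
  ext w
  constructor
  · rintro (⟨u, e, v, rfl, f, hf, hM | hM⟩ | ⟨u, e, v, rfl | rfl, pat, hp, hM⟩)
    · exact Or.inl (Or.inl ⟨f, hf, u, e, v, rfl, e, hM, (hid e).symm⟩)
    · exact Or.inl (Or.inr ⟨f, hf, u, e, v, rfl, e, hM, (hid e).symm⟩)
    · exact Or.inr (Or.inl ⟨pat, hp, u, _, v, rfl, e, hM, rfl⟩)
    · exact Or.inr (Or.inr ⟨pat, hp, u, _, v, rfl, e, hM, rfl⟩)
  · rintro ((⟨f, hf, u, _, v, rfl, e, hM, rfl⟩ | ⟨f, hf, u, _, v, rfl, e, hM, rfl⟩) |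
      (⟨pat, hp, u, _, v, rfl, e, hM, rfl⟩ | ⟨pat, hp, u, _, v, rfl, e, hM, rfl⟩))
    · exact Or.inl ⟨u, e, v, by rw [hid], f, hf, Or.inl hM⟩
    · exact Or.inl ⟨u, e, v, by rw [hid], f, hf, Or.inr hM⟩
    · exact Or.inr ⟨u, e, v, Or.inl rfl, pat, hp, hM⟩
    · exact Or.inr ⟨u, e, v, Or.inr rfl, pat, hp, hM⟩

end Pool.Agent.H81.Dec
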