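import Mathlib
import Pool.Agent.H81.Dec.FixReg
import Pool.Agent.H81.Dec.Code
import Pool.Agent.H81.Dec.CntAuto

set_option autoImplicit false

/-!
# The language `KN`: ideal, automata and codes
-/

namespace Pool.Agent.H81.Dec

variable {Γ : Type}

theorem twoSided_KN [DecidableEq Γ] (T : Sys Γ) (N : ℕ) : TwoSided (KN T N) := by
  intro u' w v' hw
  rcases hw with (⟨u, e, v, rfl, h⟩ | ⟨u, e, v, h1, h⟩) | ⟨u, e, v, rfl, h⟩
  · refine Or.inl (Or.inl ⟨u' ++ u, e, v ++ v', ?_, h⟩)
    simp only [List.append_assoc]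
  · refine Or.inl (Or.inr ⟨u' ++ u, e, v ++ v', ?_, h⟩)
    rcases h1 with rfl | rfl
    · left
      simp only [List.append_assoc]
    · right
      simp only [List.append_assoc]
  · refine Or.inr ⟨u' ++ u, e, v ++ v', ?_, h⟩
    simp only [List.append_assoc]

theorem kreg_run_snd {Q A : Type} (M : CA Q A) (N : ℕ) (w : List A) : (M.run N w).2 ≤ N + 1 := by
  have h : ∀ (w : List A) (c : Q × ℕ), c.2 ≤ N + 1 → (w.foldl (M.next N) c).2 ≤ N + 1 := by
    intro w
    induction w with
    | nil => intro c hc; exact hc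
    | cons a w ih =>
      intro c hc
      rw [List.foldl_cons]
      apply ih
      simp only [CA.next]
      rcases M.act c.1 a (compare c.2 N) with _ | _ | _
      · exact hc
      · exact Nat.zero_le _
      · exact Nat.min_le_right _ _
  exact h w _ (Nat.zero_le _)

theorem exists_CA_KN [Fintype Γ] [DecidableEq Γ] (T : Sys Γ) :
    ∃ (Q : Type) (_ : Fintype Q) (_ : DecidableEq Q) (M : CA Q (Al Γ)),
      ∀ N w, M.Accepts N w ↔ w ∈ KN T N := by
  classical
  obtain ⟨σ, hσ, D, hD⟩ := isRegular_Kfix T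
  obtain ⟨Q, hQ, hQ', M, hM⟩ := exists_cntAuto T
  let P : CA (σ × Q) (Al Γ) :=
    { q0 := (D.start, M.q0)
      step := fun s a o => (D.step s.1 a, M.step s.2 a o)
      act := fun s a o => M.act s.2 a o
      acc := fun s => decide (s.1 ∈ D.accept) || M.acc s.2 }
  have hrun : ∀ (N : ℕ) (w : List (Al Γ)),
      P.run N w = ((D.eval w, (M.run N w).1), (M.run N w).2) := by
    intro N w
    have h : ∀ (w : List (Al Γ)) (s : σ) (c : Q × ℕ),
        w.foldl (P.next N) ((s, c.1), c.2) =
          ((D.evalFrom s w, (w.foldl (M.next N) c).1), (w.foldl (M.next N) c).2) := by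
      intro w
      induction w with
      | nil => intro s c; rfl
      | cons a w ih =>
        intro s c
        have h1 : P.next N ((s, c.1), c.2) a =
            ((D.step s a, (M.next N c a).1), (M.next N c a).2) := rfl
        rw [List.foldl_cons, h1, ih]
        rfl
    exact h w D.start (M.q0, 0)
  refine ⟨σ × Q, inferInstance, inferInstance, P, ?_⟩
  intro N w
  have h1 : w ∈ Kfix T ↔ D.eval w ∈ D.accept := by
    have h2 : w ∈ D.accepts ↔ w ∈ (Kfix T : Language (Al Γ)) := by
      rw [hD]
      exact Iff.rfl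
    exact h2.symm
  unfold CA.Accepts
  rw [hrun]
  have h3 : P.acc (D.eval w, (M.run N w).1) = true ↔
      D.eval w ∈ D.accept ∨ M.acc (M.run N w).1 = true := by
    simp [P]
  rw [h3, ← h1]
  constructor
  · rintro (h | h)
    · exact Or.inl h
    · exact Or.inr ((hM N w).1 h)
  · rintro (h | h)
    · exact Or.inl h
    · exact Or.inr ((hM N w).2 h)

theorem isRegular_KN [Fintype Γ] [DecidableEq Γ] (T : Sys Γ) (N : ℕ) :
    Language.IsRegular (KN T N : Language (Al Γ)) := by
  obtain ⟨Q, hQ, hQ', M, hM⟩ := exists_CA_KN T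
  let D : DFA (Al Γ) (Q × Fin (N + 2)) :=
    { step := fun s a => ((M.next N (s.1, (s.2 : ℕ)) a).1,
        ⟨min (M.next N (s.1, (s.2 : ℕ)) a).2 (N + 1), by omega⟩)
      start := (M.q0, 0)
      accept := {s | M.acc s.1 = true} }
  have hrun : ∀ (w : List (Al Γ)), (D.eval w).1 = (M.run N w).1 ∧
      ((D.eval w).2 : ℕ) = (M.run N w).2 := by
    intro w
    induction w using List.reverseRecOn with
    | nil => exact ⟨rfl, rfl⟩
    | append_singleton w a ih =>
      have h1 : D.eval (w ++ [a]) = D.step (D.eval w) a := DFA.eval_append_singleton D w a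
      have h2 : M.run N (w ++ [a]) = M.next N (M.run N w) a := by
        unfold CA.run
        rw [List.foldl_append]
        rfl
      have h3 : ((D.eval w).1, ((D.eval w).2 : ℕ)) = M.run N w := by
        rw [ih.1, ih.2]
      have h4 := kreg_run_snd M N (w ++ [a])
      rw [h2] at h4
      rw [h1, h2]
      constructor
      · change (M.next N ((D.eval w).1, ((D.eval w).2 : ℕ)) a).1 = _
        rw [h3]
      · change min (M.next N ((D.eval w).1, ((D.eval w).2 : ℕ)) a).2 (N + 1) = _
        rw [h3]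
        omega
  refine ⟨Q × Fin (N + 2), inferInstance, D, ?_⟩
  ext w
  change D.eval w ∈ D.accept ↔ w ∈ KN T N
  rw [← hM N w]
  change M.acc (D.eval w).1 = true ↔ M.acc (M.run N w).1 = true
  rw [(hrun w).1]

theorem exists_code_KN [Fintype Γ] [DecidableEq Γ] (T : Sys Γ) {k : ℕ} (e : Al Γ ≃ Fin k) :
    ∃ f : ℕ → List (List ℕ) × List ℕ, Computable f ∧
      ∀ N (w : List (Fin k)), CodeAcc (f N) w ↔ w.map e.symm ∈ KN T N := by
  obtain ⟨Q, hQ, hQ', M, hM⟩ := exists_CA_KN T
  let P : CA Q (Fin k) :=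
    { q0 := M.q0
      step := fun s a o => M.step s (e.symm a) o
      act := fun s a o => M.act s (e.symm a) o
      acc := M.acc }
  obtain ⟨f, hf, h⟩ := exists_code P
  refine ⟨f, hf, ?_⟩
  intro N w
  rw [h N w, ← hM N]
  unfold CA.Accepts
  have hrun : P.run N w = M.run N (w.map e.symm) := by
    unfold CA.run
    rw [List.foldl_map]
    rfl
  rw [hrun]

end Pool.Agent.H81.Dec
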