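import Mathlib
import Pool.Agent.H81.Dec.Count

set_option autoImplicit false

/-!
# The valid word of a chain
-/

namespace Pool.Agent.H81.Dec

variable {Γ : Type}

theorem val_unique {q q' : ℕ} {j j' : ℤ} (hj : j % 4 ≠ 0) (hj' : j' % 4 ≠ 0)
    (h : (4 : ℤ) ^ q * j = 4 ^ q' * j') : q = q' ∧ j = j' := by
  have hp : (0 : ℤ) < 4 ^ q := by positivity
  have hp' : (0 : ℤ) < 4 ^ q' := by positivity
  rcases lt_trichotomy q q' with h1 | h1 | h1
  · exfalso
    rw [pow_split h1] at h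
    have h3 := mul_left_cancel₀ hp.ne' h
    obtain ⟨d, hd⟩ : ∃ d, q' - q = d + 1 := ⟨q' - q - 1, by omega⟩
    rw [hd, pow_succ, show (4 : ℤ) ^ d * 4 * j' = 4 * (4 ^ d * j') by ring] at h3
    omega
  · subst h1
    exact ⟨rfl, mul_left_cancel₀ hp.ne' h⟩
  · exfalso
    rw [pow_split h1 j] at h
    have h3 := mul_left_cancel₀ hp'.ne' h
    obtain ⟨d, hd⟩ : ∃ d, q - q' = d + 1 := ⟨q - q' - 1, by omega⟩
    rw [hd, pow_succ, show (4 : ℤ) ^ d * 4 * j = 4 * (4 ^ d * j) by ring] at h3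
    omega

/-- The level of an integer. -/
noncomputable def vl (n : ℤ) : ℕ := if h : n ≠ 0 then (exists_val h).choose else 0

/-- The integer without its factors `4`. -/
noncomputable def dg (n : ℤ) : ℤ := if h : n ≠ 0 then (exists_val h).choose_spec.choose else 0

theorem vl_dg {n : ℤ} (h : n ≠ 0) : dg n % 4 ≠ 0 ∧ n = 4 ^ vl n * dg n := by
  rw [vl, dg, dif_pos h, dif_pos h]
  exact (exists_val h).choose_spec.choose_spec

theorem mul_ne {q : ℕ} {j : ℤ} (hj : j % 4 ≠ 0) : (4 : ℤ) ^ q * j ≠ 0 := by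
  apply mul_ne_zero (by positivity)
  rintro rfl
  exact hj (by norm_num)

theorem vl_mul (q : ℕ) {j : ℤ} (hj : j % 4 ≠ 0) : vl (4 ^ q * j) = q :=
  ((val_unique hj (vl_dg (mul_ne hj)).1 (vl_dg (mul_ne hj)).2).1).symm

theorem dg_mul (q : ℕ) {j : ℤ} (hj : j % 4 ≠ 0) : dg (4 ^ q * j) = j :=
  ((val_unique hj (vl_dg (mul_ne hj)).1 (vl_dg (mul_ne hj)).2).2).symm

/-- Own label. -/
noncomputable def Lb (n : ℤ) : S := lab (vl n) (dg n)

theorem Lb_mul (q : ℕ) {j : ℤ} (hj : j % 4 ≠ 0) : Lb (4 ^ q * j) = lab q j := by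
  rw [Lb, vl_mul q hj, dg_mul q hj]

/-- Parent. -/
noncomputable def par (n : ℤ) : ℤ := n - 4 ^ vl n * (dg n % 4)

theorem par_mul (q : ℕ) (i : ℤ) : par (4 ^ q * (4 * i + 1)) = 4 ^ q * (4 * i) := by
  have h : (4 * i + 1) % 4 ≠ 0 := by omega
  rw [par, vl_mul q h, dg_mul q h, show (4 * i + 1) % 4 = 1 by omega]
  ring

/-- The valid word of a sequence of rows. -/
noncomputable def Xw (ρ : ℕ → ℕ → Γ) (n : ℤ) : Lt Γ := (Lb n, Lb (par n), ρ (vl (par n)) (vl n))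

theorem Xw_str (ρ : ℕ → ℕ → Γ) (p : ℕ) (w : ℤ) : Str (Xw ρ) p (4 ^ p * w) := by
  intro q hq j hj
  show Lb _ = _
  rw [pow_split hq, ← mul_add, Lb_mul q, lab_eq_iff]
  · refine ⟨rfl, ?_⟩
    rw [add_comm, shift_mod hq]
  · rw [add_comm, shift_mod hq]
    exact hj

theorem Xw_par (ρ : ℕ → ℕ → Γ) (q : ℕ) (i : ℤ) : (Xw ρ (4 ^ q * (4 * i + 1))).2.1 =
    (Xw ρ (4 ^ q * (4 * i))).1 := by
  show Lb (par _) = Lb _
  rw [par_mul]

theorem Xw_W4 (l : ℕ) (u : ℤ) : W4 l fun i : Fin 4 => Lb (4 ^ l * (u + (i : ℕ))) := by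
  refine ⟨⟨(u % 4).toNat, by have := Int.emod_lt_of_pos u (show (0 : ℤ) < 4 by norm_num); omega⟩,
    fun i hi => ?_⟩
  have h1 : ((u % 4).toNat : ℤ) = u % 4 := Int.toNat_of_nonneg (Int.emod_nonneg _ (by norm_num))
  simp only at hi ⊢
  have h2 : (u + (i : ℕ)) % 4 ≠ 0 := by omega
  rw [Lb_mul l h2, lab_eq_iff, h1]
  exact ⟨rfl, by omega⟩

section pair

variable {ρ : ℕ → ℕ → Γ} {m : ℕ} {l s : ℤ}

theorem vis_mul (hl : l = 4 ^ m * s) {t : ℤ} (h : Lb t ≠ Lb (t + l)) : ∃ j, t = 4 ^ m * j := by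
  rcases dec4 m t with hj | ⟨q, hq, i, hi, ht⟩
  · exact hj
  · exfalso
    apply h
    rw [ht, hl, pow_split hq, ← mul_add, Lb_mul q hi, Lb_mul q (by rw [shift_mod hq]; exact hi),
      lab_eq_iff, shift_mod hq]
    exact ⟨rfl, rfl⟩

/-- A `K1` column followed by a `K2` column. -/
theorem k12 (hl : l = 4 ^ m * s) (hs : s % 4 ≠ 0) {r : ℕ} {t t' : ℤ}
    (h1 : isK1 r ((fun t : ℤ => ((Xw ρ t, Xw ρ (t + l)) : Col Γ)) t) = true) (h2 : isK2 r ((fun t : ℤ => ((Xw ρ t, Xw ρ (t + l)) : Col Γ)) t') = true) (htt : t < t')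
    (hb : ∀ x, t < x → x < t' → hid ((fun t : ℤ => ((Xw ρ t, Xw ρ (t + l)) : Col Γ)) x) = true) :
    r % 2 = m % 2 ∧ s % 4 = 1 ∧ ∃ u, t = 4 ^ m * (4 * u + 1) ∧ t' = 4 ^ m * (4 * u + 2) := by
  have hp : (0 : ℤ) < 4 ^ m := by positivity
  rw [isK1_iff] at h1
  rw [isK2_iff] at h2
  obtain ⟨e1, e2⟩ := h1
  obtain ⟨e3, e4⟩ := h2
  change Lb t = _ at e1
  change Lb (t + l) = _ at e2
  change Lb t' = _ at e3
  change Lb (t' + l) = _ at e4
  obtain ⟨j, rfl⟩ := vis_mul hl (t := t) (by rw [e1, e2]; exact lab_ne (by omega))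
  obtain ⟨j', rfl⟩ := vis_mul hl (t := t') (by rw [e3, e4]; exact lab_ne (by omega))
  have hjj : j < j' := lt_of_mul_lt_mul_left htt hp.le
  have hb' : ∀ i, j < i → i < j' → Lb (4 ^ m * i) = Lb (4 ^ m * (i + s)) := by
    intro i h h'
    have := hb (4 ^ m * i) (mul_lt_mul_of_pos_left h hp) (mul_lt_mul_of_pos_left h' hp)
    rw [hid_iff] at this
    change Lb (4 ^ m * i) = Lb (4 ^ m * i + l) at this
    rwa [hl, ← mul_add] at this
  rw [hl, ← mul_add] at e2 e4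
  -- labels
  have L1 : j % 4 ≠ 0 → m % 2 = r % 2 ∧ j % 4 = 1 := fun h => by
    rw [Lb_mul m h, lab_eq_iff] at e1; omega
  have L2 : (j + s) % 4 ≠ 0 → m % 2 = r % 2 ∧ (j + s) % 4 = 2 := fun h => by
    rw [Lb_mul m h, lab_eq_iff] at e2; omega
  have L3 : j' % 4 ≠ 0 → m % 2 = r % 2 ∧ j' % 4 = 2 := fun h => by
    rw [Lb_mul m h, lab_eq_iff] at e3; omega
  have L4 : (j' + s) % 4 ≠ 0 → m % 2 = r % 2 ∧ (j' + s) % 4 = 3 := fun h => by
    rw [Lb_mul m h, lab_eq_iff] at e4; omega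
  have L5 : j + 1 < j' → (j + 1) % 4 ≠ 0 → (j + 1 + s) % 4 ≠ 0 → False := fun h h' h'' => by
    have := hb' (j + 1) (by omega) h
    rw [Lb_mul m h', Lb_mul m h'', lab_eq_iff] at this
    omega
  have key : m % 2 = r % 2 ∧ s % 4 = 1 ∧ j % 4 = 1 ∧ j' = j + 1 := by
    by_cases c1 : j % 4 = 0
    · exfalso
      have := L2 (by omega)
      by_cases c2 : j + 1 < j'
      · exact L5 c2 (by omega) (by omega)
      · have : j' = j + 1 := by omega
        subst this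
        have := L3 (by omega)
        omega
    · have h3 := L1 c1
      by_cases c3 : (j + s) % 4 = 0
      · exfalso
        by_cases c2 : j + 1 < j'
        · exact L5 c2 (by omega) (by omega)
        · have : j' = j + 1 := by omega
          subst this
          have := L4 (by omega)
          omega
      · have h4 := L2 c3
        refine ⟨h3.1, by omega, h3.2, ?_⟩
        by_contra hne
        exact L5 (by omega) (by omega) (by omega)
  obtain ⟨k1, k2, k3, k4⟩ := key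
  refine ⟨k1.symm, k2, j / 4, ?_, ?_⟩
  · congr 1; omega
  · congr 1; omega

theorem hid_zero (t : ℤ) : hid ((Xw ρ t, Xw ρ (t + 0)) : Col Γ) = true := by
  rw [hid_iff, add_zero]

theorem isK1_not_hid {r : ℕ} {c : Col Γ} (h : isK1 r c = true) : ¬ hid c = true := by
  rw [isK1_iff] at h
  rw [hid_iff, h.1, h.2]
  exact lab_ne (by omega)

theorem k12' {r : ℕ} {t t' : ℤ}
    (h1 : isK1 r ((fun t : ℤ => ((Xw ρ t, Xw ρ (t + l)) : Col Γ)) t) = true) (h2 : isK2 r ((fun t : ℤ => ((Xw ρ t, Xw ρ (t + l)) : Col Γ)) t') = true) (htt : t < t')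
    (hb : ∀ x, t < x → x < t' → hid ((fun t : ℤ => ((Xw ρ t, Xw ρ (t + l)) : Col Γ)) x) = true) :
    ∃ (m : ℕ) (s : ℤ), l = 4 ^ m * s ∧ s % 4 = 1 ∧ r % 2 = m % 2 ∧
      ∃ u, t = 4 ^ m * (4 * u + 1) ∧ t' = 4 ^ m * (4 * u + 2) := by
  by_cases hl : l = 0
  · exfalso
    subst hl
    exact isK1_not_hid h1 (hid_zero t)
  · obtain ⟨m, s, hs, hl⟩ := exists_val hl
    obtain ⟨h3, h4, h5⟩ := k12 hl hs h1 h2 htt hb
    exact ⟨m, s, hl, h4, h3, h5⟩

theorem Xw_str0 (ρ : ℕ → ℕ → Γ) (p : ℕ) : Str (Xw ρ) p 0 := by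
  have := Xw_str ρ p 0
  rwa [mul_zero] at this

theorem xk1 (hl : l = 4 ^ m * s) (hs : s % 4 = 1) (u : ℤ) :
    isK1 m ((fun t : ℤ => ((Xw ρ t, Xw ρ (t + l)) : Col Γ)) (4 ^ m * (4 * u + 1))) = true := by
  have := k1_col (m := m) (a := 0) (b := 0) (l := l) (s := s) (Xw_str0 ρ _) (Xw_str0 ρ _)
    (by rw [hl]; ring) hs (j := 4 * u + 1) (by omega)
  rwa [zero_add] at this

theorem xk2 (hl : l = 4 ^ m * s) (hs : s % 4 = 1) (u : ℤ) :
    isK2 m ((fun t : ℤ => ((Xw ρ t, Xw ρ (t + l)) : Col Γ)) (4 ^ m * (4 * u + 2))) = true := by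
  have := k2_col (m := m) (a := 0) (b := 0) (l := l) (s := s) (Xw_str0 ρ _) (Xw_str0 ρ _)
    (by rw [hl]; ring) hs (j := 4 * u + 2) (by omega)
  rwa [zero_add] at this

/-- The following `K1` column. -/
theorem next_k1 (hl : l = 4 ^ m * s) (hs : s % 4 = 1) {r : ℕ} (hr : r % 2 = m % 2) {u t t' : ℤ}
    (h1 : isK1 r ((fun t : ℤ => ((Xw ρ t, Xw ρ (t + l)) : Col Γ)) t) = true) (h2 : isK2 r ((fun t : ℤ => ((Xw ρ t, Xw ρ (t + l)) : Col Γ)) t') = true) (htt : t < t')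
    (hb : ∀ x, t < x → x < t' → hid ((fun t : ℤ => ((Xw ρ t, Xw ρ (t + l)) : Col Γ)) x) = true)
    (h3 : 4 ^ m * (4 * u + 2) < t)
    (h4 : ∀ x, 4 ^ m * (4 * u + 2) < x → x < t → isK1 r ((fun t : ℤ => ((Xw ρ t, Xw ρ (t + l)) : Col Γ)) x) = false) :
    t = 4 ^ m * (4 * (u + 1) + 1) ∧ t' = 4 ^ m * (4 * (u + 1) + 2) := by
  have hp : (0 : ℤ) < 4 ^ m := by positivity
  obtain ⟨-, -, u', rfl, rfl⟩ := k12 hl (by omega) h1 h2 htt hb
  have h5 := lt_of_mul_lt_mul_left h3 hp.le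
  have h6 : u' = u + 1 := by
    by_contra hne
    have h7 := h4 (4 ^ m * (4 * (u + 1) + 1)) (mul_lt_mul_of_pos_left (by omega) hp)
      (mul_lt_mul_of_pos_left (by omega) hp)
    have h8 := xk1 (ρ := ρ) hl hs (u + 1)
    rw [← isK1_mod, ← hr, isK1_mod] at h8
    rw [h7] at h8
    exact Bool.false_ne_true h8
  subst h6
  exact ⟨rfl, rfl⟩

theorem isK1p_iff (r : ℕ) (x : S) (c : Col Γ) : isK1p r x c = true ↔ isK1 r c = true ∧ c.1.2.1 = x := by
  simp [isK1p]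

theorem Xw_R1 {r : ℕ} {x : Fin 4 → S} {b e : ℤ} (h : Occ (fun t : ℤ => ((Xw ρ t, Xw ρ (t + l)) : Col Γ)) (patR1 r x) b e) : W4 (r + 1) x := by
  obtain ⟨k0, b1, g1, hd1, z1, b2, g2, n2, k2, b3, g3, hd3, z3, b4, g4, n4, k4, b5, g5, hd5, z5,
    b6, g6, n6, k6, b7, g7, hd7, z7, -⟩ := h
  rw [isK1p_iff] at k0 k2 k4 k6
  obtain ⟨m, s, hl, hs, hr, u, rfl, rfl⟩ := k12' k0.1 z1 (by omega) (fun x h h' => hd1 x (by omega) h')
  have conv : ∀ {c : Col Γ}, (!isK1 r c) = true → isK1 r c = false := fun h => by simpa using h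
  obtain ⟨rfl, rfl⟩ := next_k1 hl hs hr (u := u) k2.1 z3 (by omega)
    (fun x h h' => hd3 x (by omega) h') (by omega) (fun x h h' => conv (n2 x (by omega) h'))
  obtain ⟨rfl, rfl⟩ := next_k1 hl hs hr (u := u + 1) k4.1 z5 (by omega)
    (fun x h h' => hd5 x (by omega) h') (by omega) (fun x h h' => conv (n4 x (by omega) h'))
  obtain ⟨rfl, rfl⟩ := next_k1 hl hs hr (u := u + 1 + 1) k6.1 z7 (by omega)
    (fun x h h' => hd7 x (by omega) h') (by omega) (fun x h h' => conv (n6 x (by omega) h'))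
  have h0 := k0.2
  have h1 := k2.2
  have h2 := k4.2
  have h3 := k6.2
  simp only [Xw_par] at h0 h1 h2 h3
  have hx : x = fun i : Fin 4 => Lb (4 ^ (m + 1) * (u + (i : ℕ))) := by
    funext i
    fin_cases i
    · show x 0 = _
      rw [← h0]
      show Lb _ = Lb _
      congr 1
      simp
      ring
    · show x 1 = _
      rw [← h1]
      show Lb _ = Lb _
      congr 1
      simp
      ring
    · show x 2 = _
      rw [← h2]
      show Lb _ = Lb _
      congr 1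
      simp
      ring
    · show x 3 = _
      rw [← h3]
      show Lb _ = Lb _
      congr 1
      simp
      ring
  rw [← W4_mod, hr, W4_mod, hx]
  exact Xw_W4 (m + 1) u

/-- The last visible column before a position. -/
theorem prev_vis (hl : l = 4 ^ m * s) {j t : ℤ} (ht : t < 4 ^ m * j)
    (hv : Lb t ≠ Lb (t + l)) (hb : ∀ x, t < x → x < 4 ^ m * j → hid ((fun t : ℤ => ((Xw ρ t, Xw ρ (t + l)) : Col Γ)) x) = true) :
    ∃ i, i < j ∧ t = 4 ^ m * i ∧ Lb (4 ^ m * i) ≠ Lb (4 ^ m * (i + s)) ∧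
      ∀ k, i < k → k < j → Lb (4 ^ m * k) = Lb (4 ^ m * (k + s)) := by
  have hp : (0 : ℤ) < 4 ^ m := by positivity
  obtain ⟨i, rfl⟩ := vis_mul hl hv
  refine ⟨i, lt_of_mul_lt_mul_left ht hp.le, rfl, by rwa [hl, ← mul_add] at hv, fun k h h' => ?_⟩
  have := hb (4 ^ m * k) (mul_lt_mul_of_pos_left h hp) (mul_lt_mul_of_pos_left h' hp)
  rw [hid_iff] at this
  change Lb (4 ^ m * k) = Lb (4 ^ m * k + l) at this
  rwa [hl, ← mul_add] at this

theorem Xw_R2 {r : ℕ} {v2 v1 : S × S} {x : S} {b e : ℤ} (hv2 : v2.1 ≠ v2.2) (hv1 : v1.1 ≠ v1.2)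
    (h : Occ (fun t : ℤ => ((Xw ρ t, Xw ρ (t + l)) : Col Γ)) (patR2 r v2 v1 x) b e) : badPar r v2 v1 x = false := by
  obtain ⟨k0, b1, g1, hd1, k1, b2, g2, hd2, k2, b3, g3, hd3, k3, -⟩ := h
  rw [sp_iff] at k0 k1
  rw [isK1p_iff] at k2
  obtain ⟨m, s, hl, hs, hr, u, rfl, rfl⟩ := k12' k2.1 k3 (by omega)
    (fun x h h' => hd3 x (by omega) h')
  have hx := k2.2
  simp only [Xw_par] at hx
  change Lb (4 ^ m * (4 * u)) = x at hx
  obtain ⟨k1a, k1b⟩ := k1
  obtain ⟨k0a, k0b⟩ := k0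
  change Lb b1 = _ at k1a
  change Lb (b1 + l) = _ at k1b
  change Lb b = _ at k0a
  change Lb (b + l) = _ at k0b
  obtain ⟨i1, hi1, rfl, vi1, hid1⟩ := prev_vis (ρ := ρ) hl (t := b1) (j := 4 * u + 1) (by omega)
    (by rw [k1a, k1b]; exact hv1) (fun x h h' => hd2 x (by omega) h')
  obtain ⟨i2, hi2, rfl, vi2, hid2⟩ := prev_vis (ρ := ρ) hl (t := b) (j := i1) (by omega)
    (by rw [k0a, k0b]; exact hv2) (fun x h h' => hd1 x (by omega) h')
  rw [hl, ← mul_add] at k1b k0b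
  have n12 : lab m 1 ≠ lab m 2 := lab_ne (by omega)
  have n13 : lab m 1 ≠ lab m 3 := lab_ne (by omega)
  have n23 : lab m 2 ≠ lab m 3 := lab_ne (by omega)
  have n21 : lab m 2 ≠ lab m 1 := n12.symm
  have n31 : lab m 3 ≠ lab m 1 := n13.symm
  have n32 : lab m 3 ≠ lab m 2 := n23.symm
  rw [← badPar_mod, hr, badPar_mod]
  -- labels of the columns `4 u`, `4 u - 1`, `4 u - 2`
  have A0 : Lb (4 ^ m * (4 * u + s)) = lab m 1 := by
    rw [Lb_mul m (by omega), lab_eq_iff]; exact ⟨rfl, by omega⟩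
  have A1 : Lb (4 ^ m * (4 * u - 1)) = lab m 3 := by
    rw [Lb_mul m (by omega), lab_eq_iff]; exact ⟨rfl, by omega⟩
  have A2 : Lb (4 ^ m * (4 * u - 2)) = lab m 2 := by
    rw [Lb_mul m (by omega), lab_eq_iff]; exact ⟨rfl, by omega⟩
  have A2' : Lb (4 ^ m * (4 * u - 2 + s)) = lab m 3 := by
    rw [Lb_mul m (by omega), lab_eq_iff]; exact ⟨rfl, by omega⟩
  have hi1' : 4 * u - 2 ≤ i1 := by
    by_contra hne
    have := hid1 (4 * u - 2) (by omega) (by omega)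
    rw [A2, A2'] at this
    exact n23 this
  by_cases c0 : i1 = 4 * u
  · -- the parent column is visible
    subst c0
    rw [A0] at k1b
    rw [hx] at k1a
    have e1 : v1 = (x, lab m 1) := Prod.ext k1a.symm k1b.symm
    rw [e1]
    have hx1 : x ≠ lab m 1 := by
      rw [e1] at hv1; exact hv1
    by_cases hx3 : x = lab m 3
    · subst hx3
      by_cases hv : v2.1 = lab m 3
      · simp [badPar, hv]
      · simp [badPar, hv]
    · simp [badPar, hx3]
  · have hx1 : x = lab m 1 := by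
      have := hid1 (4 * u) (by omega) (by omega)
      rwa [hx, A0] at this
    subst hx1
    by_cases c1 : i1 = 4 * u - 1
    · subst c1
      rw [A1] at k1a
      have hi2' : i2 = 4 * u - 2 := by
        by_contra hne
        have := hid2 (4 * u - 2) (by omega) (by omega)
        rw [A2, A2'] at this
        exact n23 this
      subst hi2'
      rw [A2] at k0a
      rw [A2'] at k0b
      have e2 : v2 = (lab m 2, lab m 3) := Prod.ext k0a.symm k0b.symm
      obtain ⟨w1, w2⟩ := v1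
      simp only at k1a k1b hv1
      subst k1a
      rw [e2]
      by_cases hw : w2 = lab m 1
      · simp [badPar, hw, n23]
      · simp [badPar, hw]
    · have c2 : i1 = 4 * u - 2 := by omega
      subst c2
      rw [A2] at k1a
      rw [A2'] at k1b
      have e1 : v1 = (lab m 2, lab m 3) := Prod.ext k1a.symm k1b.symm
      rw [e1]
      simp [badPar, n31, n23]

theorem Xw_avS (ρ : ℕ → ℕ → Γ) : AvS (Xw ρ) (Xw ρ) := by
  constructor
  · intro t
    have := Xw_W4 0 t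
    show W4 0 fun i : Fin 4 => Lb (t + (i : ℕ))
    simpa using this
  · rintro pat ⟨r, -, ⟨x, hx, rfl⟩ | ⟨v2, v1, x, h2, h1, hb, rfl⟩⟩ l b e h
    · exact hx (Xw_R1 h)
    · rw [Xw_R2 h2 h1 h] at hb
      exact Bool.false_ne_true hb

theorem next_vis (hl : l = 4 ^ m * s) {j t : ℤ} (ht : 4 ^ m * j < t)
    (hv : Lb t ≠ Lb (t + l)) (hb : ∀ x, 4 ^ m * j < x → x < t → hid ((fun t : ℤ => ((Xw ρ t, Xw ρ (t + l)) : Col Γ)) x) = true) :
    ∃ i, j < i ∧ t = 4 ^ m * i ∧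
      ∀ k, j < k → k < i → Lb (4 ^ m * k) = Lb (4 ^ m * (k + s)) := by
  have hp : (0 : ℤ) < 4 ^ m := by positivity
  obtain ⟨i, rfl⟩ := vis_mul hl hv
  refine ⟨i, lt_of_mul_lt_mul_left ht hp.le, rfl, fun k h h' => ?_⟩
  have := hb (4 ^ m * k) (mul_lt_mul_of_pos_left h hp) (mul_lt_mul_of_pos_left h' hp)
  rw [hid_iff] at this
  change Lb (4 ^ m * k) = Lb (4 ^ m * k + l) at this
  rwa [hl, ← mul_add] at this

theorem Xw_cont (q : ℕ) (i : ℤ) : (Xw ρ (4 ^ q * (4 * i + 1))).2.2 = ρ (vl (4 ^ q * (4 * i))) q := by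
  show ρ (vl (par _)) (vl _) = _
  rw [par_mul, vl_mul q (j := 4 * i + 1) (by omega)]

/-- Contents of a compared pair of rows. -/
structure Cont (ρ : ℕ → ℕ → Γ) (m : ℕ) (a l : ℤ) : Prop where
  cα : ∀ p ≤ m, (Xw ρ (a + 4 ^ m * 4 + 4 ^ p)).2.2 = ρ (m + 1) p
  cβ : ∀ p < m, (Xw ρ (a + 4 ^ m * 4 + 4 ^ p + l)).2.2 = ρ m p

theorem a_k1 {r : ℕ} {t0 tK e : ℤ} (hA : isA r ((fun t : ℤ => ((Xw ρ t, Xw ρ (t + l)) : Col Γ)) t0) = true) (h0 : t0 < tK)
    (hb : ∀ x, t0 < x → x < tK → hid ((fun t : ℤ => ((Xw ρ t, Xw ρ (t + l)) : Col Γ)) x) = true) (hK : isK1 r ((fun t : ℤ => ((Xw ρ t, Xw ρ (t + l)) : Col Γ)) tK) = true)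
    (hT : Occ (fun t : ℤ => ((Xw ρ t, Xw ρ (t + l)) : Col Γ)) (tailP r) (tK + 1) e) :
    ∃ (m : ℕ) (a b : ℤ), r % 2 = m % 2 ∧ Rows (Xw ρ) (Xw ρ) m a b l ∧ Cont ρ m a l ∧
      t0 = a + 4 ^ m * 4 ∧ tK = a + 4 ^ m * 5 := by
  obtain ⟨tE, g1, hd1, kE, tZ, g2, hd2, kZ, tC, g3, hd3, kC, -⟩ := hT
  obtain ⟨m, s, hl, hs, hr, u, rfl, rfl⟩ := k12' hK kE (by omega) (fun x h h' => hd1 x (by omega) h')
  rw [isA_iff] at hA
  rw [isZ_iff] at kZ
  rw [isC_iff] at kC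
  obtain ⟨A1, A2⟩ := hA
  obtain ⟨Z1, Z2⟩ := kZ
  obtain ⟨C1, C2⟩ := kC
  change Lb t0 = _ at A1
  change Lb (t0 + l) = _ at A2
  change Lb tZ = _ at Z1
  change Lb (tZ + l) = _ at Z2
  change Lb tC = _ at C1
  change Lb (tC + l) = _ at C2
  have L : ∀ j : ℤ, j % 4 ≠ 0 → Lb (4 ^ m * j) = lab m j := fun j hj => Lb_mul m hj
  obtain ⟨i, hi, rfl, vi, hid1⟩ := prev_vis (ρ := ρ) hl h0
    (by rw [A1, A2]; exact lab_ne (by omega)) hb
  obtain ⟨k, hk, rfl, hid2⟩ := next_vis (ρ := ρ) hl (j := 4 * u + 2) (t := tZ) (by omega)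
    (by rw [Z1, Z2]; exact lab_ne (by omega)) (fun x h h' => hd2 x (by omega) h')
  obtain ⟨k', hk', rfl, hid3⟩ := next_vis (ρ := ρ) hl (j := k) (t := tC) (by omega)
    (by rw [C1, C2]; exact lab_ne (by omega)) (fun x h h' => hd3 x (by omega) h')
  rw [hl, ← mul_add] at A2 Z2 C2
  -- the `A` column
  have hi0 : i = 4 * u := by
    by_contra hne
    have hi2 : 4 * u - 2 ≤ i := by
      by_contra hne'
      have := hid1 (4 * u - 2) (by omega) (by omega)
      rw [L _ (by omega), L _ (by omega), lab_eq_iff] at this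
      omega
    rw [L i (by omega), lab_eq_iff] at A1
    omega
  subst hi0
  have hk0 : k = 4 * u + 3 := by
    by_contra hne
    have hk5 : k ≤ 4 * u + 5 := by
      by_contra hne'
      have := hid2 (4 * u + 5) (by omega) (by omega)
      rw [L _ (by omega), L _ (by omega), lab_eq_iff] at this
      omega
    by_cases h4 : k = 4 * u + 4
    · rw [L (k + s) (by omega), lab_eq_iff] at Z2
      omega
    · rw [L k (by omega), lab_eq_iff] at Z1
      omega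
  subst hk0
  have hk1 : k' = 4 * u + 4 := by
    by_contra hne
    have hk5 : k' ≤ 4 * u + 5 := by
      by_contra hne'
      have := hid3 (4 * u + 5) (by omega) (by omega)
      rw [L _ (by omega), L _ (by omega), lab_eq_iff] at this
      omega
    rw [L k' (by omega), lab_eq_iff] at C1
    omega
  subst hk1
  have hu : u % 4 = 1 := by
    by_cases h3 : (u + 1) % 4 = 0
    · exfalso
      rw [show (4 : ℤ) ^ m * (4 * u) = 4 ^ (m + 1) * u by ring, Lb_mul _ (by omega), lab_eq_iff] at A1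
      omega
    · rw [show (4 : ℤ) ^ m * (4 * u + 4) = 4 ^ (m + 1) * (u + 1) by ring, Lb_mul _ h3,
        lab_eq_iff] at C1
      omega
  refine ⟨m, 4 ^ (m + 1) * (u - 1), 4 ^ m * (4 * u + s - 1), hr, ⟨?_, ?_, ?_, ?_, ?_⟩, ⟨?_, ?_⟩,
    by ring, by ring⟩
  · have := Xw_str ρ (m + 2) ((u - 1) / 4)
    rwa [show (4 : ℤ) ^ (m + 2) * ((u - 1) / 4) = 4 ^ (m + 1) * (u - 1) by
      rw [pow_succ 4 (m + 1), mul_assoc]; congr 1; omega] at this
  · have := Xw_str ρ (m + 1) ((4 * u + s - 1) / 4)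
    rwa [show (4 : ℤ) ^ (m + 1) * ((4 * u + s - 1) / 4) = 4 ^ m * (4 * u + s - 1) by
      rw [pow_succ 4 m, mul_assoc]; congr 1; omega] at this
  · rw [hl]; ring
  · intro p hp i
    have e := pow_split (q := p) (m := m) hp (4 * (u - 1))
    rw [show (4 : ℤ) ^ (m + 1) * (u - 1) = 4 ^ p * (4 * (4 ^ (m - p) * (u - 1))) by
      rw [pow_succ, mul_assoc, e]; ring, ← mul_add, ← mul_add]
    have := Xw_par ρ p (4 ^ (m - p) * (u - 1) + i)
    rw [show 4 * (4 ^ (m - p) * (u - 1)) + (4 * i + 1) = 4 * (4 ^ (m - p) * (u - 1) + i) + 1 by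
      ring, this]
    congr 3
    ring
  · intro p hp i
    have e : (4 : ℤ) ^ m * (4 * u + s - 1) = 4 ^ p * (4 * (4 ^ (m - p - 1) * (4 * u + s - 1))) := by
      rw [pow_split (q := p) (m := m) hp, show (4 : ℤ) ^ (m - p) = 4 * 4 ^ (m - p - 1) by
        rw [← pow_succ']; congr 1; omega, mul_assoc]
    rw [e, ← mul_add, ← mul_add]
    have := Xw_par ρ p (4 ^ (m - p - 1) * (4 * u + s - 1) + i)
    rw [show 4 * (4 ^ (m - p - 1) * (4 * u + s - 1)) + (4 * i + 1) =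
      4 * (4 ^ (m - p - 1) * (4 * u + s - 1) + i) + 1 by ring, this]
    congr 3
    ring
  · intro p hp
    have e : (4 : ℤ) ^ (m + 1) * u = 4 ^ p * (4 * (4 ^ (m - p) * u)) := by
      rw [pow_split (q := p) (m := m + 1) (by omega), show m + 1 - p = (m - p) + 1 by omega, pow_succ]
      ring
    rw [show (4 : ℤ) ^ (m + 1) * (u - 1) + 4 ^ m * 4 + 4 ^ p = 4 ^ (m + 1) * u + 4 ^ p by ring, e,
      show 4 ^ p * (4 * (4 ^ (m - p) * u)) + 4 ^ p = 4 ^ p * (4 * (4 ^ (m - p) * u) + 1) by ring,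
      Xw_cont, ← e, vl_mul _ (by omega)]
  · intro p hp
    have e : (4 : ℤ) ^ m * (4 * u + s) = 4 ^ p * (4 * (4 ^ (m - p - 1) * (4 * u + s))) := by
      rw [pow_split (q := p) (m := m) hp, show (4 : ℤ) ^ (m - p) = 4 * 4 ^ (m - p - 1) by
        rw [← pow_succ']; congr 1; omega, mul_assoc]
    rw [show (4 : ℤ) ^ (m + 1) * (u - 1) + 4 ^ m * 4 + 4 ^ p + l = 4 ^ m * (4 * u + s) + 4 ^ p by
      rw [hl]; ring, e, show 4 ^ p * (4 * (4 ^ (m - p - 1) * (4 * u + s))) + 4 ^ p =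
        4 ^ p * (4 * (4 ^ (m - p - 1) * (4 * u + s)) + 1) by ring,
      Xw_cont, ← e, vl_mul _ (by omega)]

theorem nc_iff (r : ℕ) (c : Col Γ) : nc r c = true ↔ hid c = true ∧ isCell r c = false := by
  simp [nc]

variable [DecidableEq Γ] {T : Sys Γ}

omit [DecidableEq Γ] in
/-- The positions of cells. -/
theorem cell_pos {m : ℕ} {a b : ℤ} (R : Rows (Xw ρ) (Xw ρ) m a b l) {r : ℕ} (hr : r % 2 = m % 2) {t : ℤ}
    (h1 : a + 4 ^ m * 4 < t) (h2 : t < a + 4 ^ m * 5) (h3 : isCell r ((fun t : ℤ => ((Xw ρ t, Xw ρ (t + l)) : Col Γ)) t) = true) :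
    ∃ p < m, t = a + 4 ^ m * 4 + 4 ^ p := by
  rw [← isCell_mod, hr, isCell_mod] at h3
  obtain ⟨p, hp, e⟩ := (R.cell_iff (t := t - (a + 4 ^ m * 4)) (by linarith) (by linarith)).1
    (by rw [show a + 4 ^ m * 4 + (t - (a + 4 ^ m * 4)) = t by ring]; exact h3)
  exact ⟨p, hp, by linarith⟩

omit [DecidableEq Γ] in
theorem not_nc {m : ℕ} {a b : ℤ} (R : Rows (Xw ρ) (Xw ρ) m a b l) {r : ℕ} (hr : r % 2 = m % 2)
    {p : ℕ} (hp : p < m) : ¬ nc r ((fun t : ℤ => ((Xw ρ t, Xw ρ (t + l)) : Col Γ)) (a + 4 ^ m * 4 + 4 ^ p)) = true := by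
  intro h
  rw [nc_iff, ← isCell_mod, hr, isCell_mod] at h
  exact Bool.false_ne_true (h.2.symm.trans (R.cell_at hp))

theorem Xw_avC (hst : ∀ m, Stp T m (ρ m) (ρ (m + 1))) : AvC T (Xw ρ) (Xw ρ) := by
  have mono : ∀ {p q : ℕ}, p < q → (4 : ℤ) ^ p < 4 ^ q := fun h => pow_lt_pow_right₀ (by norm_num) h
  have mono' : ∀ {p q : ℕ}, (4 : ℤ) ^ p < 4 ^ q → p < q := fun h =>
    (pow_lt_pow_iff_right₀ (show (1 : ℤ) < 4 by norm_num)).1 h
  rintro pat ⟨r, -, rfl | rfl | ⟨cb, ca, rfl | rfl⟩⟩ l b0 e h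
  · -- seed
    obtain ⟨hA, b1, g1, hd1, k1, hT⟩ := h
    rw [Bool.and_eq_true] at k1
    obtain ⟨m, a, b, hr, R, C, rfl, rfl⟩ := a_k1 hA (by omega)
      (fun x h h' => ((nc_iff _ _).1 (hd1 x (by omega) h')).1) k1.1 hT
    by_cases hm : m = 0
    · have h2 := k1.2
      have h3 := C.cα m le_rfl
      rw [show a + 4 ^ m * 5 = a + 4 ^ m * 4 + 4 ^ m by ring] at h2
      rw [h3] at h2
      subst hm
      rw [(hst 0).1 rfl] at h2
      simp at h2
    · have h4 : (4 : ℤ) ^ 0 < 4 ^ m := mono (by omega)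
      refine not_nc R hr (p := 0) (by omega) (hd1 _ ?_ ?_)
      · rw [pow_zero]
      · linarith
  · -- start
    obtain ⟨hA, b1, g1, hd1, k1, b2, g2, hd2, k2, hT⟩ := h
    simp only [Bool.and_eq_true] at k1
    have hcell := (isCell_iff _ _).1 k1.1
    obtain ⟨m, a, b, hr, R, C, rfl, rfl⟩ := a_k1 hA (by omega)
      (hid_join (fun x h h' => ((nc_iff _ _).1 (hd1 x (by omega) h')).1)
        ((hid_iff _).2 hcell.1) (fun x h h' => hd2 x (by omega) h')) k2 hT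
    obtain ⟨p, hp, rfl⟩ := cell_pos R hr (by omega) (by omega) k1.1
    have hp0 : p = 0 := by
      by_contra hne
      have h4 : (4 : ℤ) ^ 0 < 4 ^ p := mono (by omega)
      refine not_nc R hr (p := 0) (by omega) (hd1 _ ?_ ?_)
      · rw [pow_zero]
      · linarith
    subst hp0
    have h2 := k1.2
    rw [C.cα 0 (by omega), C.cβ 0 (by omega), ((hst m).2 (by omega)).1] at h2
    simp at h2
  · -- local
    obtain ⟨hA, b1, g1, hd1, k1, b2, g2, hd2, k2, b3, g3, hd3, k3, hT⟩ := h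
    simp only [Bool.and_eq_true, decide_eq_true_iff] at k1 k2
    have hcell := (isCell_iff _ _).1 k1.1.1
    have hcell2 := (isCell_iff _ _).1 k2.1
    obtain ⟨m, a, b, hr, R, C, rfl, rfl⟩ := a_k1 hA (by omega)
      (hid_join (hid_join (fun x h h' => hd1 x (by omega) h')
        ((hid_iff _).2 hcell.1) (fun x h h' => ((nc_iff _ _).1 (hd2 x (by omega) h')).1))
          ((hid_iff _).2 hcell2.1) (fun x h h' => hd3 x (by omega) h')) k3 hT
    obtain ⟨p, hp, rfl⟩ := cell_pos R hr (by omega) (by omega) k1.1.1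
    obtain ⟨q, hq, rfl⟩ := cell_pos R hr (by omega) (by omega) k2.1
    have hpq : p < q := mono' (by linarith)
    have hpq' : q = p + 1 := by
      by_contra hne
      have h4 : (4 : ℤ) ^ p < 4 ^ (p + 1) := mono (by omega)
      have h5 : (4 : ℤ) ^ (p + 1) < 4 ^ q := mono (by omega)
      refine not_nc R hr (p := p + 1) (by omega) (hd2 _ ?_ ?_)
      · linarith
      · linarith
    subst hpq'
    have h2 := k2.2
    rw [← k1.1.2, ← k1.2, C.cα p (by omega), C.cβ p (by omega), C.cα (p + 1) (by omega),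
      C.cβ (p + 1) (by omega), ((hst m).2 (by omega)).2.1 p hq] at h2
    simp at h2
  · -- last
    obtain ⟨hA, b1, g1, hd1, k1, b2, g2, hd2, k2, hT⟩ := h
    simp only [Bool.and_eq_true, decide_eq_true_iff] at k1 k2
    have hcell := (isCell_iff _ _).1 k1.1.1
    obtain ⟨m, a, b, hr, R, C, rfl, rfl⟩ := a_k1 hA (by omega)
      (hid_join (fun x h h' => hd1 x (by omega) h')
        ((hid_iff _).2 hcell.1) (fun x h h' => ((nc_iff _ _).1 (hd2 x (by omega) h')).1)) k2.1 hT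
    obtain ⟨p, hp, rfl⟩ := cell_pos R hr (by omega) (by omega) k1.1.1
    have hpm : p = m - 1 := by
      by_contra hne
      have h4 : (4 : ℤ) ^ p < 4 ^ (p + 1) := mono (by omega)
      have h5 : (4 : ℤ) ^ (p + 1) < 4 ^ m := mono (by omega)
      refine not_nc R hr (p := p + 1) (by omega) (hd2 _ ?_ ?_)
      · linarith
      · linarith
    subst hpm
    have h2 := k2.2
    rw [← k1.1.2, ← k1.2, C.cα (m - 1) (by omega), C.cβ (m - 1) (by omega),
      show a + 4 ^ m * 5 = a + 4 ^ m * 4 + 4 ^ m by ring, C.cα m le_rfl,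
      ((hst m).2 (by omega)).2.2] at h2
    simp at h2

omit [DecidableEq Γ] in
theorem Xw_avN {N : ℕ} (hrun : ∀ m, 1 ≤ m → (T.run (ρ m 0) = true ↔ N + 1 ≤ m)) :
    AvN T N (Xw ρ) (Xw ρ) := by
  rintro l t0 n ⟨r, -, cA, row, t, c0, he, hA, hrow, hhead, hbad, hT⟩
  have hn : n = 1 + row.length + t.length := by
    have := congrArg List.length he
    rw [length_fw, List.length_cons, List.length_append] at this
    omega
  rw [hn, fw_add, fw_add, fw_succ, fw_zero] at he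
  have he1 : [(fun t => ((Xw ρ t, Xw ρ (t + l)) : Col Γ)) t0] ++
      fw (fun t => ((Xw ρ t, Xw ρ (t + l)) : Col Γ)) (t0 + (1 : ℕ)) row.length = [cA] ++ row ∧
      fw (fun t => ((Xw ρ t, Xw ρ (t + l)) : Col Γ)) (t0 + (1 + row.length : ℕ)) t.length = t := by
    apply List.append_inj
    · rw [he]; simp
    · simp [length_fw]
  obtain ⟨he2, het⟩ := he1
  have he3 := List.append_inj he2 (by simp)
  obtain ⟨hecA, herow⟩ := he3
  rw [List.cons.injEq] at hecA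
  rw [← hecA.1] at hA
  rw [← het] at hT
  have hocc := occ_of_mt _ _ _ _ hT
  obtain ⟨hK, hT'⟩ := hocc
  obtain ⟨m, a, b, hr, R, C, rfl, e2⟩ := a_k1 (tK := t0 + (1 + row.length : ℕ)) hA (by push_cast; omega)
    (fun x h h' => by
      apply hrow
      rw [← herow]
      exact mem_fw_of (c := fun t => ((Xw ρ t, Xw ρ (t + l)) : Col Γ)) (by push_cast; omega)
        (by push_cast at h' ⊢; omega)) hK hT'
  have hlen : row.length = 4 ^ m - 1 := by
    have h5 : 0 < 4 ^ m := by positivity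
    zify [h5]
    push_cast at e2
    linarith
  rw [hlen, show a + 4 ^ m * 4 + ((1 : ℕ) : ℤ) = a + 4 ^ m * 4 + 1 by push_cast; ring] at herow
  rw [← herow, ← isCell_mod, hr, isCell_mod] at hhead hbad
  rw [R.count le_rfl] at hbad
  have hm : 1 ≤ m := by
    by_contra hne
    have : m = 0 := by omega
    subst this
    rw [show 4 ^ 0 - 1 = 0 from rfl, fw_zero] at hhead
    simp at hhead
  have h4 : 4 ^ 1 ≤ 4 ^ m := Nat.pow_le_pow_right (by norm_num) hm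
  have hc := R.cell_at (p := 0) (by omega)
  rw [pow_zero] at hc
  rw [show 4 ^ m - 1 = (4 ^ m - 2) + 1 by omega, fw_succ, List.filter_cons, hc] at hhead
  simp only [if_true, List.head?_cons, Option.some.injEq] at hhead
  rw [← hhead] at hbad
  have c1 := C.cα 0 (by omega)
  have c2 := C.cβ 0 (by omega)
  rw [pow_zero] at c1 c2
  simp only [c1, c2] at hbad
  have r1 := hrun m hm
  have r2 := hrun (m + 1) (by omega)
  unfold badN at hbad
  revert hbad r1 r2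
  generalize T.run (ρ m 0) = f1
  generalize T.run (ρ (m + 1) 0) = f2
  intro hbad r1 r2
  have e1 : f1 = decide (N + 1 ≤ m) := by
    rw [Bool.eq_iff_iff, decide_eq_true_iff]; exact r1
  have e3 : f2 = decide (N ≤ m) := by
    rw [Bool.eq_iff_iff, decide_eq_true_iff, r2]; omega
  rw [e1, e3] at hbad
  simp at hbad

end pair

/-- A chain gives a bi-infinite word which avoids all rules with itself. -/
theorem exists_valid [DecidableEq Γ] (T : Sys Γ) (N : ℕ) (h : Chain T N) :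
    ∃ X : ℤ → Lt Γ, AvS X X ∧ AvC T X X ∧ AvN T N X X := by
  obtain ⟨ρ, hρ⟩ := h
  exact ⟨Xw ρ, Xw_avS ρ, Xw_avC fun m => (hρ m).1, Xw_avN fun m hm => (hρ m).2 hm⟩

end Pool.Agent.H81.Dec
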