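import Mathlib
import Pool.Agent.H81.Dec.Valid
import Pool.Agent.H81.Dec.Bridge1
import Pool.Agent.H81.Dec.Bridge2
import Pool.Agent.H81.Dec.KReg
import Pool.Agent.H81.Dec.Frozen
import Pool.Agent.H81.Dec.ChainThm
import Pool.Agent.H81.Dec.Halting

set_option autoImplicit false

/-!
# Decomposability is undecidable
-/

namespace Pool.Agent.H81.Dec

/-- The language `KN T N` is decomposable iff there is no chain of rows. -/
theorem decomp_KN_iff {Γ : Type} [Fintype Γ] [DecidableEq Γ] (T : Sys Γ)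
    (hseed : ∀ a, T.seed a = true → T.run a = false) {N : ℕ} (hN : 1 ≤ N) :
    Decomp (KN T N) ↔ ¬ Chain T N := by
  constructor
  · intro hD hch
    obtain ⟨X, h1, h2, h3⟩ := exists_valid T N hch
    have hav := avoid_of_valid T N X (fun t _ => h1.1 t)
      (fun pat hpat l s e _ _ => by
        rcases hpat with hpat | hpat
        · exact h1.2 pat hpat l s e
        · exact h2 pat hpat l s e) (fun l s n _ _ => h3 l s n)
    obtain ⟨i, P, hP, hper⟩ := periodic_of_decomp (twoSided_KN T N) hD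
      (fun t : ℕ => (Sum.inl (X ((t : ℤ) + 1)) : Al Γ))
      (fun t : ℕ => (Sum.inr (X ((t : ℤ) + 1)) : Al Γ)) hav
    obtain ⟨α, β, a1, a2, a3⟩ := pair_of_periodic T N (fun t : ℕ => X ((t : ℤ) + 1))
      (fun t : ℕ => X ((t : ℤ) + 1)) i P hP hper
    exact aperiodic a1 a2 (P := (P : ℤ)) (by exact_mod_cast hP.ne') a3
  · intro hch
    have hm : ∃ M : ℕ, ∀ u v : List (Al Γ), M ≤ u.length → M ≤ v.length →
        ∃ w ∈ KN T N, Sh u v w := by
      by_contra hne
      obtain ⟨α, β, a1, a2, c1, c2, hn⟩ := pair_of_not_mortal T N hne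
      exact hch (avoid_chain T hseed hN a1 a2 c1 c2 hn)
    obtain ⟨M, hM⟩ := hm
    exact decomp_of_ideal (isRegular_KN T N) (twoSided_KN T N) M hM

/-- A finite alphabet over which decomposability of list codes is undecidable. -/
theorem exists_undecidable : ∃ k : ℕ, ¬ ComputablePred (fun c : List (List ℕ) × List ℕ =>
    ∃ S : Set (Set (List (Fin k))), S.Finite ∧ {w : List (Fin k) | CodeAcc c w} ∈ S ∧ ∀ L ∈ S,
      (∃ P : Set (Set (List (Fin k)) × Set (List (Fin k))), P ⊆ S ×ˢ S ∧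
        {p : List (Fin k) × List (Fin k) | p.1 ++ p.2 ∈ L} = ⋃ q ∈ P, q.1 ×ˢ q.2) ∧
      (∃ P : Set (Set (List (Fin k)) × Set (List (Fin k))), P ⊆ S ×ˢ S ∧
        {p : List (Fin k) × List (Fin k) | ∃ w ∈ L, ∃ l : List (Fin k × Bool),
          l.map Prod.fst = w ∧ (l.filter (fun x => x.2)).map Prod.fst = p.1 ∧
          (l.filter (fun x => !x.2)).map Prod.fst = p.2} = ⋃ q ∈ P, q.1 ×ˢ q.2)) := by
  obtain ⟨Q, K, G, _, _, _, _, _, _, M, q0, k0, g1, g2, hM⟩ := exists_machine
  set T : Sys (Cell Q K G) := sysOf M q0 k0 g1 g2 with hT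
  refine ⟨Fintype.card (Al (Cell Q K G)), fun hcomp => hM ?_⟩
  set e : Al (Cell Q K G) ≃ Fin (Fintype.card (Al (Cell Q K G))) := Fintype.equivFin _ with he
  obtain ⟨f, hf, hfN⟩ := exists_code_KN T e
  have hred : Computable (fun n : ℕ => f (2 * (n + 1))) := by
    apply hf.comp
    have : Primrec fun n : ℕ => 2 * (n + 1) :=
      Primrec.nat_mul.comp (Primrec.const 2) Primrec.succ
    exact this.to_comp
  have h1 := ComputablePred.computable_of_manyOneReducible
    (p := fun n : ℕ => ∃ t, M.iter (initC q0 k0 g1 g2 (2 * (n + 1))) t = none)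
    ⟨fun n => f (2 * (n + 1)), hred, fun n => ?_⟩ hcomp
  · exact h1
  · have h2 := decomp_KN_iff T (sysOf_seed M q0 k0 g1 g2) (N := 2 * (n + 1)) (by omega)
    have h3 := chain_iff M q0 k0 g1 g2 n
    have h4 := decomp_frozen e (KN T (2 * (n + 1)))
    have h5 : {w : List (Fin (Fintype.card (Al (Cell Q K G)))) | CodeAcc (f (2 * (n + 1))) w} =
        {w | w.map e.symm ∈ KN T (2 * (n + 1))} := by
      ext w
      exact hfN _ w
    beta_reduce
    rw [h5, ← h4, h2, h3]
    push Not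
    rfl

end Pool.Agent.H81.Dec
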